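import Pool.Agent.R525.MS.Defs

/-!
# Finite travelling waves of the p-Laplacian in a tube: definitions
-/

set_option autoImplicit false

open MeasureTheory Set Filter Topology
open scoped ENNReal ContDiff

namespace Run7.h845

open Pool.Agent.R525.MS (E IsTest)

/-- `u ∈ W^{1,p}_loc(U)` with weak gradient `G`: every point of `U` has a ball around it on which
`u` and `G` are `L^p` limits of smooth functions and of their gradients. -/
def IsSobolev {n : ℕ} (U : Set (E n)) (p : ℝ) (u : E n → ℝ) (G : E n → E n) : Prop :=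
  ∀ x ∈ U, ∃ r : ℝ, 0 < r ∧ Metric.ball x r ⊆ U ∧
    MemLp u (ENNReal.ofReal p) (volume.restrict (Metric.ball x r)) ∧
    MemLp G (ENNReal.ofReal p) (volume.restrict (Metric.ball x r)) ∧
    ∃ f : ℕ → E n → ℝ, (∀ k, ContDiff ℝ ∞ (f k)) ∧
      Tendsto (fun k => eLpNorm (fun y => f k y - u y) (ENNReal.ofReal p)
        (volume.restrict (Metric.ball x r))) atTop (𝓝 0) ∧
      Tendsto (fun k => eLpNorm (fun y => gradient (f k) y - G y) (ENNReal.ofReal p)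
        (volume.restrict (Metric.ball x r))) atTop (𝓝 0)

/-- `u` is a weak solution of `Δ_p u + d · ∇u + u / (p - 2) = 0` in the open set `U`. -/
def IsWeakSol {n : ℕ} (U : Set (E n)) (p : ℝ) (d : E n) (u : E n → ℝ) : Prop :=
  ∃ G : E n → E n, IsSobolev U p u G ∧ ∀ ζ : E n → ℝ, IsTest U ζ →
    ∫ x in U, ‖G x‖ ^ (p - 2) * inner ℝ (G x) (gradient ζ x) =
      ∫ x in U, (inner ℝ d (G x) + u x / (p - 2)) * ζ x

/-- `D` is a bounded domain with smooth boundary. -/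
def IsSmoothDomain {N : ℕ} (D : Set (E N)) : Prop :=
  IsOpen D ∧ IsConnected D ∧ Bornology.IsBounded D ∧
    ∀ z ∈ frontier D, ∃ ρ : E N → ℝ, ContDiff ℝ ∞ ρ ∧ ρ z = 0 ∧ gradient ρ z ≠ 0 ∧
      ∀ᶠ x in 𝓝 z, (x ∈ D ↔ 0 < ρ x)

/-- `n` is the inner unit normal of `D` at its boundary point `z`. -/
def IsInnerNormal {N : ℕ} (D : Set (E N)) (z n : E N) : Prop :=
  ‖n‖ = 1 ∧ ∃ ρ : E N → ℝ, ContDiff ℝ ∞ ρ ∧ ρ z = 0 ∧
    (∃ t : ℝ, 0 < t ∧ gradient ρ z = t • n) ∧ ∀ᶠ x in 𝓝 z, (x ∈ D ↔ 0 < ρ x)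

/-- The point `(z, s)` of `ℝ^N × ℝ`. -/
noncomputable def pt {N : ℕ} (z : E N) (s : ℝ) : E (N + 1) :=
  WithLp.toLp 2 (Fin.snoc (α := fun _ => ℝ) (fun i => z i) s)

/-- The component in the cross-section `ℝ^N`. -/
noncomputable def sec {N : ℕ} (X : E (N + 1)) : E N := WithLp.toLp 2 fun i => X i.castSucc

/-- The component along the axis. -/
def ax {N : ℕ} (X : E (N + 1)) : ℝ := X (Fin.last N)

/-- The tube `D × ℝ`. -/
def tube {N : ℕ} (D : Set (E N)) : Set (E (N + 1)) := {X | sec X ∈ D}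

/-- `Φ` is a nonnegative nontrivial weak solution of `-(p - 2) Δ_p Φ = Φ` in `D`,
`Φ = 0` on `∂D`. -/
def IsProfile {N : ℕ} (D : Set (E N)) (p : ℝ) (Φ : E N → ℝ) : Prop :=
  ContinuousOn Φ (closure D) ∧ (∀ z ∈ D, 0 ≤ Φ z) ∧ (∃ z ∈ D, Φ z ≠ 0) ∧
    (∀ z ∈ frontier D, Φ z = 0) ∧ IsWeakSol D p 0 Φ

/-- `φ` is (the profile of) a finite travelling wave of speed `c` in the tube `D × ℝ`: a
nonnegative weak solution of `Δ_p φ + c ∂_ξ φ + φ / (p - 2) = 0`, continuous up to the wall and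
zero there, with `φ(z, ξ) → Φ(z)` as `ξ → -∞` and `φ(z, ξ) = 0` for all large `ξ`. -/
def IsFiniteWave {N : ℕ} (D : Set (E N)) (p c : ℝ) (φ : E (N + 1) → ℝ) : Prop :=
  ContinuousOn φ (closure (tube D)) ∧ (∀ X ∈ tube D, 0 ≤ φ X) ∧
    (∀ X ∈ frontier (tube D), φ X = 0) ∧ IsWeakSol (tube D) p (c • pt 0 1) φ ∧
    (∃ Φ : E N → ℝ, IsProfile D p Φ ∧
      ∀ z ∈ D, Tendsto (fun s => φ (pt z s)) atBot (𝓝 (Φ z))) ∧
    ∃ s₀ : ℝ, ∀ X ∈ tube D, s₀ ≤ ax X → φ X = 0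

/-- The free boundary `Γ_φ = Ω ∩ ∂{φ > 0}`. -/
def freeBdry {N : ℕ} (D : Set (E N)) (φ : E (N + 1) → ℝ) : Set (E (N + 1)) :=
  tube D ∩ frontier {X | X ∈ tube D ∧ 0 < φ X}

/-- `P` is a contact point: a point of the wall in the closure of the free boundary. -/
def IsContact {N : ℕ} (D : Set (E N)) (φ : E (N + 1) → ℝ) (P : E (N + 1)) : Prop :=
  P ∈ frontier (tube D) ∧ P ∈ closure (freeBdry D φ)

end Run7.h845
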