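import Pool.Agent.Run7.h845.Vanish

/-!
# The positivity set is closed under downward translations
-/

set_option autoImplicit false

open MeasureTheory Set Filter Topology Asymptotics
open scoped ENNReal NNReal ContDiff

namespace Run7.h845

open Pool.Agent.R525.MS

variable {n : ℕ} {p : ℝ}

theorem gradient_neg' (f : E n → ℝ) (y : E n) :
    gradient (fun x => -f x) y = -gradient f y := by
  unfold gradient
  rw [fderiv_fun_neg, map_neg]

/-- The equation is odd. -/
theorem IsWeakSol.neg {U : Set (E n)} {d : E n} {u : E n → ℝ} (h : IsWeakSol U p d u) :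
    IsWeakSol U p d (fun x => -u x) := by
  obtain ⟨G, hS, hw⟩ := h
  refine ⟨fun x => -G x, ?_, ?_⟩
  · intro x hx
    obtain ⟨r, hr, hsub, hu, hG, f, hf, hf1, hf2⟩ := hS x hx
    refine ⟨r, hr, hsub, hu.neg, hG.neg, fun k y => -f k y, fun k => (hf k).neg, ?_, ?_⟩
    · refine hf1.congr fun k => ?_
      rw [← eLpNorm_neg]
      congr 1
      ext y
      simp only [Pi.neg_apply]
      ring
    · refine hf2.congr fun k => ?_
      rw [← eLpNorm_neg]
      congr 1
      ext1 y
      simp only [Pi.neg_apply, gradient_neg']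
      abel
  · intro ζ hζ
    have h1 := hw ζ hζ
    have e1 : (fun x => ‖-G x‖ ^ (p - 2) * inner ℝ (-G x) (gradient ζ x)) =
        fun x => -(‖G x‖ ^ (p - 2) * inner ℝ (G x) (gradient ζ x)) := by
      ext x; rw [norm_neg, inner_neg_left]; ring
    have e2 : (fun x => (inner ℝ d (-G x) + -u x / (p - 2)) * ζ x) =
        fun x => -((inner ℝ d (G x) + u x / (p - 2)) * ζ x) := by
      ext x; rw [inner_neg_right]; ring
    rw [e1, e2, integral_neg, integral_neg, h1]

/-- The lower barrier. -/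
noncomputable def tf (Y e : E n) (τ A t : ℝ) (X : E n) : ℝ :=
  -(τ * (inner ℝ e (X - Y) - A * (‖X - Y‖ ^ 2 - inner ℝ e (X - Y) ^ 2) + t))

theorem jet_tf (Y e : E n) (τ A t : ℝ) (X₀ : E n) :
    Jet (tf Y e τ A t) X₀
      (fun v => inner ℝ ((-τ) • (e - (2 * A) • (X₀ - Y - (inner ℝ e (X₀ - Y) : ℝ) • e))) v)
      (fun v => (2 * τ * A) * (‖v‖ ^ 2 + -1 * inner ℝ e v ^ 2)) := by
  have h0 := (jet_inner e (X₀ - Y)).comp (jet1_sq (inner ℝ e (X₀ - Y)))
  have h := ((((jet_inner e (X₀ - Y)).add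
    (((jet_norm_sq (X₀ - Y)).add (h0.const_mul (-1))).const_mul (-A))).add
      (jet_const t (X₀ - Y))).const_mul (-τ)).sub_const
  refine (h.congr_fun ?_).congr ?_ ?_
  · refine Eventually.of_forall fun X => ?_
    unfold tf
    ring
  · intro v
    simp only [real_inner_smul_left, inner_sub_left]
    ring
  · intro v
    ring

theorem down_point (hp : 2 < p) {Ω : Set (E n)} (hΩ : IsOpen Ω) {c : ℝ} (hc : 0 < c) {e : E n}
    (he : ‖e‖ = 1) {φ : E n → ℝ} (hφc : ContinuousOn φ Ω) (hφ0 : ∀ x ∈ Ω, 0 ≤ φ x)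
    (hw : IsWeakSol Ω p (c • e) φ) {Y : E n} {s₀ : ℝ} (hs₀ : 0 < s₀)
    (hball : Metric.closedBall Y (2 * s₀) ⊆ Ω) (hZ : 0 < φ (Y + s₀ • e)) : 0 < φ Y := by
  have hee : inner ℝ e e = (1:ℝ) := by rw [real_inner_self_eq_norm_sq, he]; norm_num
  have hp2 : 0 < p - 2 := by linarith
  -- a ball where the function is large
  have hZΩ : Y + s₀ • e ∈ Ω := by
    apply hball
    rw [Metric.mem_closedBall, dist_eq_norm, add_sub_cancel_left, norm_smul, he,
      Real.norm_eq_abs, abs_of_pos hs₀]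
    linarith
  have hcZ : ContinuousAt φ (Y + s₀ • e) := hφc.continuousAt (hΩ.mem_nhds hZΩ)
  obtain ⟨r₀, hr₀, hr₀b⟩ := Metric.eventually_nhds_iff_ball.1
    (hcZ.eventually (lt_mem_nhds (half_lt_self hZ)))
  set m := φ (Y + s₀ • e) / 2 with hm
  have hm0 : 0 < m := by positivity
  set r₁ := min (r₀ / 2) s₀ with hr₁
  have hr₁0 : 0 < r₁ := lt_min (by linarith) hs₀
  have hr₁r : r₁ < r₀ := (min_le_left _ _).trans_lt (by linarith)
  have hr₁s : r₁ ≤ s₀ := min_le_right _ _
  set A := 2 * s₀ / r₁ ^ 2 with hA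
  have hA0 : 0 < A := by positivity
  have hAr : A * r₁ ^ 2 = 2 * s₀ := by rw [hA]; field_simp
  obtain ⟨τ₀, hτ₀, hτ₀2⟩ := exists_tau (k := 1 + 2 * A * r₁) (C := 2 * A * (n + (p - 2)))
    (x := c) hp (by positivity) (by positivity) hc
  set τ := min τ₀ (m / (2 * s₀)) with hτ
  have hτ0 : 0 < τ := lt_min hτ₀ (by positivity)
  have hτ2 : ((1 + 2 * A * r₁) * τ) ^ (p - 2) * (2 * A * (n + (p - 2))) < c := by
    refine lt_of_le_of_lt ?_ hτ₀2
    apply mul_le_mul_of_nonneg_right _ (by positivity)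
    apply Real.rpow_le_rpow (by positivity) _ hp2.le
    exact mul_le_mul_of_nonneg_left (min_le_left _ _) (by positivity)
  have hτm : τ * (3 / 2 * s₀) < m := by
    have h1 : τ ≤ m / (2 * s₀) := min_le_right _ _
    rw [le_div_iff₀ (by positivity)] at h1
    nlinarith [mul_pos hτ0 hs₀]
  -- the compact set
  set hsq : E n → ℝ := fun X => ‖X - Y‖ ^ 2 - inner ℝ e (X - Y) ^ 2 with hhsq
  have hhc : Continuous hsq := by rw [hhsq]; fun_prop
  have hlc : Continuous fun X : E n => (inner ℝ e (X - Y) : ℝ) := by fun_prop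
  set K : Set (E n) := {X | hsq X ≤ r₁ ^ 2 ∧ -s₀ ≤ inner ℝ e (X - Y) ∧
    inner ℝ e (X - Y) ≤ s₀} with hK
  have hKcl : IsClosed K := by
    apply IsClosed.and (isClosed_le hhc continuous_const)
    exact IsClosed.and (isClosed_le continuous_const hlc) (isClosed_le hlc continuous_const)
  have hKb : K ⊆ Metric.closedBall Y (2 * s₀) := by
    intro X hX
    rw [Metric.mem_closedBall, dist_eq_norm]
    have h1 : ‖X - Y‖ ^ 2 ≤ (2 * s₀) ^ 2 := by
      have h2 : ‖X - Y‖ ^ 2 = hsq X + inner ℝ e (X - Y) ^ 2 := by rw [hhsq]; ring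
      have h3 : (inner ℝ e (X - Y) : ℝ) ^ 2 ≤ s₀ ^ 2 := by
        rw [← sq_abs (inner ℝ e (X - Y))]
        exact pow_le_pow_left₀ (abs_nonneg _) (abs_le.2 ⟨by linarith [hX.2.1], hX.2.2⟩) 2
      have h4 : r₁ ^ 2 ≤ s₀ ^ 2 := pow_le_pow_left₀ hr₁0.le hr₁s 2
      rw [h2]
      nlinarith [hX.1]
    exact abs_le_of_sq_le_sq' h1 (by positivity) |>.2
  have hKc : IsCompact K := (isCompact_closedBall Y (2 * s₀)).of_isClosed_subset hKcl hKb
  have hKΩ : K ⊆ Ω := hKb.trans hball
  -- the top of the compact set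
  have htopK : ∀ X ∈ K, inner ℝ e (X - Y) = s₀ → m < φ X := by
    intro X hX h1
    apply hr₀b
    rw [Metric.mem_ball, dist_eq_norm]
    have h2 : ‖X - (Y + s₀ • e)‖ ^ 2 = hsq X := by
      have e1 : X - (Y + s₀ • e) = (X - Y) - s₀ • e := by abel
      rw [e1, norm_sub_sq_real, real_inner_smul_right, real_inner_comm e (X - Y), h1, norm_smul,
        he, Real.norm_eq_abs, abs_of_pos hs₀]
      show _ = ‖X - Y‖ ^ 2 - inner ℝ e (X - Y) ^ 2
      rw [h1]
      ring
    have h3 : ‖X - (Y + s₀ • e)‖ ^ 2 ≤ r₁ ^ 2 := by rw [h2]; exact hX.1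
    exact (abs_le_of_sq_le_sq' h3 hr₁0.le).2.trans_lt hr₁r
  have hswp := sweep (K := K) (φ := fun x => -φ x)
    (Ψ := fun t X => tf Y e τ A (s₀ / 2 - t) X) (b := 3 * s₀)
    hKc (hφc.mono hKΩ).neg (by positivity) (by
      have : Continuous fun q : ℝ × E n => tf Y e τ A (s₀ / 2 - q.1) q.2 := by
        unfold tf; fun_prop
      exact this.continuousOn) (by
      intro X hX
      have h1 := hφ0 X (hKΩ hX)
      have h2 : (0:ℝ) < tf Y e τ A (s₀ / 2 - 3 * s₀) X := by
        unfold tf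
        have h3 : (inner ℝ e (X - Y) : ℝ) - A * (‖X - Y‖ ^ 2 - inner ℝ e (X - Y) ^ 2) +
            (s₀ / 2 - 3 * s₀) < 0 := by
          have h4 : 0 ≤ ‖X - Y‖ ^ 2 - inner ℝ e (X - Y) ^ 2 := by
            have h5 := abs_real_inner_le_norm e (X - Y)
            rw [he, one_mul] at h5
            have h6 := pow_le_pow_left₀ (abs_nonneg _) h5 2
            rw [sq_abs] at h6
            linarith
          have h5 := mul_nonneg hA0.le h4
          linarith [hX.2.2]
        have := mul_neg_of_pos_of_neg hτ0 h3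
        linarith
      linarith) (by
      intro t ht hall X hX heq
      have hφX := hφ0 X (hKΩ hX)
      have heq' : -φ X = -(τ * ((inner ℝ e (X - Y) : ℝ) -
        A * (‖X - Y‖ ^ 2 - inner ℝ e (X - Y) ^ 2) + (s₀ / 2 - t))) := heq
      have hin : 0 ≤ (inner ℝ e (X - Y) : ℝ) - A * (‖X - Y‖ ^ 2 - inner ℝ e (X - Y) ^ 2) +
        (s₀ / 2 - t) := by
        by_contra hcon
        push Not at hcon
        have := mul_neg_of_pos_of_neg hτ0 hcon
        linarith
      have hAh : A * hsq X ≤ inner ℝ e (X - Y) + s₀ / 2 := by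
        have : A * hsq X = A * (‖X - Y‖ ^ 2 - inner ℝ e (X - Y) ^ 2) := rfl
        rw [this]; linarith [ht.1]
      have hhsq0 : 0 ≤ hsq X := by
        have h5 := abs_real_inner_le_norm e (X - Y)
        rw [he, one_mul] at h5
        have h6 := pow_le_pow_left₀ (abs_nonneg _) h5 2
        rw [sq_abs] at h6
        have : hsq X = ‖X - Y‖ ^ 2 - inner ℝ e (X - Y) ^ 2 := rfl
        linarith
      -- X is interior
      have h1 : hsq X < r₁ ^ 2 := by
        have : A * hsq X < A * r₁ ^ 2 := by rw [hAr]; linarith [hX.2.2]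
        exact lt_of_mul_lt_mul_left this hA0.le
      have h2 : -s₀ < inner ℝ e (X - Y) := by
        have := mul_nonneg hA0.le hhsq0
        linarith
      have h3 : inner ℝ e (X - Y) < s₀ := by
        rcases hX.2.2.lt_or_eq with h | h
        · exact h
        · exfalso
          have h4 := htopK X hX h
          have h5 : φ X ≤ τ * (3 / 2 * s₀) := by
            have h6 : φ X = τ * ((inner ℝ e (X - Y) : ℝ) -
              A * (‖X - Y‖ ^ 2 - inner ℝ e (X - Y) ^ 2) + (s₀ / 2 - t)) := by linarith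
            rw [h6]
            apply mul_le_mul_of_nonneg_left _ hτ0.le
            have h7 := mul_nonneg hA0.le hhsq0
            have : A * hsq X = A * (‖X - Y‖ ^ 2 - inner ℝ e (X - Y) ^ 2) := rfl
            rw [this] at h7
            linarith [ht.1]
          linarith
      have hnhds : ∀ᶠ Z in 𝓝 X, Z ∈ K := by
        filter_upwards [(hhc.tendsto X).eventually (gt_mem_nhds h1),
          (hlc.tendsto X).eventually (lt_mem_nhds h2),
          (hlc.tendsto X).eventually (gt_mem_nhds h3)] with Z a1 a2 a3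
        exact ⟨a1.le, a2.le, a3.le⟩
      -- the gradient
      set x' := X - Y - (inner ℝ e (X - Y) : ℝ) • e with hx'
      set g := (-τ) • (e - (2 * A) • x') with hg
      have hex' : inner ℝ e x' = (0:ℝ) := by
        rw [hx', inner_sub_right, real_inner_smul_right, hee]; ring
      have heg : inner ℝ e g = -τ := by
        rw [hg, real_inner_smul_right, inner_sub_right, real_inner_smul_right, hex', hee]; ring
      have hg0 : g ≠ 0 := by
        intro h0
        rw [h0, inner_zero_right] at heg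
        linarith
      have hx'n : ‖x'‖ ≤ r₁ := by
        have h4 : ‖x'‖ ^ 2 = hsq X := by
          rw [hx', norm_sub_sq_real, real_inner_smul_right, real_inner_comm e (X - Y),
            norm_smul, he, Real.norm_eq_abs, mul_one, sq_abs]
          show _ = ‖X - Y‖ ^ 2 - inner ℝ e (X - Y) ^ 2
          ring
        have h5 : ‖x'‖ ^ 2 ≤ r₁ ^ 2 := by rw [h4]; exact h1.le
        exact (abs_le_of_sq_le_sq' h5 hr₁0.le).2
      have hgn : ‖g‖ ≤ (1 + 2 * A * r₁) * τ := by
        rw [hg, norm_smul, Real.norm_eq_abs, abs_neg, abs_of_pos hτ0, mul_comm]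
        apply mul_le_mul_of_nonneg_right _ hτ0.le
        refine (norm_sub_le _ _).trans ?_
        rw [he, norm_smul, Real.norm_eq_abs, abs_of_pos (by positivity)]
        have := mul_le_mul_of_nonneg_left hx'n (by positivity : 0 ≤ 2 * A)
        linarith
      have hQ : IsQ (fun v : E n => (2 * τ * A) * (‖v‖ ^ 2 + -1 * inner ℝ e v ^ 2)) := by
        refine ((isQ_norm_sq.add ((isQ_mul e e).const_mul (-1))).const_mul (2 * τ * A)).congr
          fun v => ?_
        ring
      have hv := visc_jet hΩ hp hφc.neg hw.neg (hKΩ hX) hg0 (jet_tf Y e τ A (s₀ / 2 - t) X)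
        (fun v => rfl) hQ (by
          filter_upwards [hnhds] with Z hZK
          exact hall Z hZK) heq
      rw [real_inner_smul_left, heg] at hv
      have hLq : Lq p g (fun v : E n => (2 * τ * A) * (‖v‖ ^ 2 + -1 * inner ℝ e v ^ 2)) ≤
          2 * τ * A * ((n + (p - 2)) * ‖g‖ ^ 2) := by
        rw [← Lq_norm_sq, ← Lq_const_mul]
        apply Lq_mono hp
        intro v
        apply mul_le_mul_of_nonneg_left _ (by positivity)
        have := sq_nonneg (inner ℝ e v : ℝ)
        linarith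
      have hgpos : 0 < ‖g‖ := norm_pos_iff.2 hg0
      have e4 : ‖g‖ ^ (p - 2) = ‖g‖ ^ (p - 4) * ‖g‖ ^ 2 := by
        rw [← Real.rpow_natCast ‖g‖ 2, ← Real.rpow_add hgpos]
        congr 1; push_cast; ring
      have h5 : ‖g‖ ^ (p - 4) *
          Lq p g (fun v : E n => (2 * τ * A) * (‖v‖ ^ 2 + -1 * inner ℝ e v ^ 2)) ≤
          τ * (((1 + 2 * A * r₁) * τ) ^ (p - 2) * (2 * A * (n + (p - 2)))) := by
        calc ‖g‖ ^ (p - 4) *
            Lq p g (fun v : E n => (2 * τ * A) * (‖v‖ ^ 2 + -1 * inner ℝ e v ^ 2))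
            ≤ ‖g‖ ^ (p - 4) * (2 * τ * A * ((n + (p - 2)) * ‖g‖ ^ 2)) :=
              mul_le_mul_of_nonneg_left hLq (Real.rpow_nonneg hgpos.le _)
          _ = τ * (‖g‖ ^ (p - 2) * (2 * A * (n + (p - 2)))) := by rw [e4]; ring
          _ ≤ _ := by
              apply mul_le_mul_of_nonneg_left _ hτ0.le
              apply mul_le_mul_of_nonneg_right _ (by positivity)
              exact Real.rpow_le_rpow hgpos.le hgn hp2.le
      have h6 : τ * (((1 + 2 * A * r₁) * τ) ^ (p - 2) * (2 * A * (n + (p - 2)))) < τ * c :=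
        mul_lt_mul_of_pos_left hτ2 hτ0
      have h7 : tf Y e τ A (s₀ / 2 - t) X / (p - 2) ≤ 0 := by
        have : tf Y e τ A (s₀ / 2 - t) X = -φ X := heq.symm
        rw [this]
        apply div_nonpos_of_nonpos_of_nonneg _ hp2.le
        linarith
      linarith)
  have hYK : Y ∈ K := by
    refine ⟨?_, ?_, ?_⟩
    · show ‖Y - Y‖ ^ 2 - (inner ℝ e (Y - Y) : ℝ) ^ 2 ≤ r₁ ^ 2
      simp only [sub_self, norm_zero, inner_zero_right]
      positivity
    · rw [sub_self, inner_zero_right]; linarith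
    · rw [sub_self, inner_zero_right]; exact hs₀.le
  have h1 := hswp Y hYK
  have h2 : tf Y e τ A (s₀ / 2 - 0) Y = -(τ * (s₀ / 2)) := by
    unfold tf
    simp
  rw [h2] at h1
  have h3 : 0 < τ * (s₀ / 2) := by positivity
  linarith

theorem down_closed (hp : 2 < p) {Ω : Set (E n)} (hΩ : IsOpen Ω) {c : ℝ} (hc : 0 < c) {e : E n}
    (he : ‖e‖ = 1) {φ : E n → ℝ} (hφc : ContinuousOn φ Ω) (hφ0 : ∀ x ∈ Ω, 0 ≤ φ x)
    (hw : IsWeakSol Ω p (c • e) φ) {X : E n} {T : ℝ}
    (hseg : ∀ t ∈ Icc 0 T, X - t • e ∈ Ω) (hX : 0 < φ X) {t : ℝ} (ht : t ∈ Icc 0 T) :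
    0 < φ (X - t • e) := by
  by_contra hcon
  set S := {t | t ∈ Icc 0 T ∧ φ (X - t • e) ≤ 0} with hS
  have hcS : ContinuousOn (fun t : ℝ => φ (X - t • e)) (Icc 0 T) :=
    hφc.comp (by fun_prop) fun t ht => hseg t ht
  have hScl : IsClosed S := hcS.preimage_isClosed_of_isClosed isClosed_Icc isClosed_Iic
  have hSc : IsCompact S := isCompact_Icc.of_isClosed_subset hScl fun t ht => ht.1
  obtain ⟨s, hs, hmin⟩ := hSc.exists_isMinOn ⟨t, ht, not_lt.1 hcon⟩ continuousOn_id
  have hs0 : 0 < s := by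
    rcases hs.1.1.lt_or_eq with h | h
    · exact h
    · exfalso
      have := hs.2
      rw [← h, zero_smul, sub_zero] at this
      linarith
  have hYΩ : X - s • e ∈ Ω := hseg s hs.1
  obtain ⟨R, hR, hRb⟩ := Metric.isOpen_iff.1 hΩ _ hYΩ
  set s₀ := min s (R / 4) with hs₀
  have hs₀0 : 0 < s₀ := lt_min hs0 (by linarith)
  have hs₀s : s₀ ≤ s := min_le_left _ _
  have hs₀R : s₀ ≤ R / 4 := min_le_right _ _
  have h1 : 0 < φ (X - s • e) := by
    refine down_point hp hΩ hc he hφc hφ0 hw hs₀0 ?_ ?_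
    · refine (Metric.closedBall_subset_ball ?_).trans hRb
      linarith
    · have e1 : X - s • e + s₀ • e = X - (s - s₀) • e := by
        rw [sub_smul]; abel
      rw [e1]
      by_contra hneg
      have h2 : s - s₀ ∈ S := ⟨⟨by linarith, by linarith [hs.1.2]⟩, not_lt.1 hneg⟩
      have h3 : s ≤ s - s₀ := hmin h2
      linarith
  exact absurd hs.2 (not_le.2 h1)

end Run7.h845
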