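import Pool.Agent.Run7.h845.Wedge

/-!
# Comparison with the wedge barrier: a growth estimate
-/

set_option autoImplicit false

open MeasureTheory Set Filter Topology Asymptotics
open scoped ENNReal NNReal ContDiff

namespace Run7.h845

open Pool.Agent.R525.MS

variable {n : ℕ} {p κ γ : ℝ}

theorem closure_cond {S C : Set (E n)} {P : E n} {ρ : ℝ} (hC : IsClosed C)
    (h : ∀ X ∈ S, X ∈ Metric.ball P ρ → X ∈ C) :
    ∀ X ∈ closure S, X ∈ Metric.ball P ρ → X ∈ C := by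
  intro X hX hb
  have h1 : X ∈ closure (Metric.ball P ρ ∩ S) := Metric.isOpen_ball.inter_closure ⟨hb, hX⟩
  exact closure_minimal (fun y hy => h y hy.2 hy.1) hC h1

/-- The positivity set. -/
def posSet (Ω : Set (E n)) (φ : E n → ℝ) : Set (E n) := {X | X ∈ Ω ∧ 0 < φ X}

theorem interior_touch {Ω : Set (E n)} (hΩ : IsOpen Ω) {φ : E n → ℝ}
    (hφc : ContinuousOn φ (closure Ω)) (hb : ∀ X ∈ frontier Ω, φ X = 0) {P X : E n} {ρ : ℝ}
    (hX : X ∈ closure (posSet Ω φ)) (hXρ : ‖X - P‖ < ρ) (hpos : 0 < φ X) :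
    X ∈ Ω ∧ ∀ᶠ Y in 𝓝 X, Y ∈ closure (posSet Ω φ) ∩ Metric.closedBall P ρ := by
  have hXc : X ∈ closure Ω := closure_mono (fun y hy => hy.1) hX
  have hXΩ : X ∈ Ω := by
    by_contra hcon
    have : X ∈ frontier Ω := by
      rw [hΩ.frontier_eq]; exact ⟨hXc, hcon⟩
    rw [hb X this] at hpos
    exact lt_irrefl _ hpos
  refine ⟨hXΩ, ?_⟩
  have h1 : ContinuousAt φ X := (hφc.mono subset_closure).continuousAt (hΩ.mem_nhds hXΩ)
  filter_upwards [hΩ.mem_nhds hXΩ, h1.eventually (lt_mem_nhds hpos),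
    Metric.isOpen_ball.mem_nhds (show X ∈ Metric.ball P ρ by
      rw [Metric.mem_ball, dist_eq_norm]; exact hXρ)] with Y h2 h3 h4
  exact ⟨subset_closure ⟨h2, h3⟩, Metric.ball_subset_closedBall h4⟩

theorem frame {m ν : E n} (hm : ‖m‖ = 1) (hν : ‖ν‖ = 1) {α : ℝ}
    (hα : InnerProductGeometry.angle m ν = α) (h0 : 0 < α) (hπ : α < Real.pi) :
    ∃ a b : E n, ‖a‖ = 1 ∧ ‖b‖ = 1 ∧ inner ℝ a b = (0:ℝ) ∧
      m = Real.sin (α / 2) • a + Real.cos (α / 2) • b ∧
      ν = (-Real.sin (α / 2)) • a + Real.cos (α / 2) • b := by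
  have hs : 0 < Real.sin (α / 2) := Real.sin_pos_of_pos_of_lt_pi (by linarith) (by linarith)
  have hc : 0 < Real.cos (α / 2) := Real.cos_pos_of_mem_Ioo ⟨by linarith, by linarith⟩
  set s := Real.sin (α / 2) with hsdef
  set c := Real.cos (α / 2) with hcdef
  have hsc : s ^ 2 + c ^ 2 = 1 := Real.sin_sq_add_cos_sq _
  have hcos : Real.cos α = c ^ 2 - s ^ 2 := by
    have : α = 2 * (α / 2) := by ring
    rw [this, Real.cos_two_mul]
    rw [← hcdef]; linarith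
  have hmν : inner ℝ m ν = c ^ 2 - s ^ 2 := by
    have h1 := InnerProductGeometry.cos_angle m ν
    rw [hα, hm, hν, hcos] at h1
    simpa using h1.symm
  have hνm : inner ℝ ν m = c ^ 2 - s ^ 2 := by rw [real_inner_comm]; exact hmν
  have hmm : inner ℝ m m = (1:ℝ) := by rw [real_inner_self_eq_norm_sq, hm]; norm_num
  have hνν : inner ℝ ν ν = (1:ℝ) := by rw [real_inner_self_eq_norm_sq, hν]; norm_num
  refine ⟨(1 / (2 * s)) • (m - ν), (1 / (2 * c)) • (m + ν), ?_, ?_, ?_, ?_, ?_⟩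
  · have : ‖(1 / (2 * s)) • (m - ν)‖ ^ 2 = 1 := by
      rw [← real_inner_self_eq_norm_sq]
      simp only [inner_sub_left, inner_sub_right, real_inner_smul_left, real_inner_smul_right,
        hmν, hνm, hmm, hνν]
      field_simp
      linear_combination -2 * hsc
    exact (pow_eq_one_iff_of_nonneg (norm_nonneg _) two_ne_zero).1 this
  · have : ‖(1 / (2 * c)) • (m + ν)‖ ^ 2 = 1 := by
      rw [← real_inner_self_eq_norm_sq]
      simp only [inner_add_left, inner_add_right, real_inner_smul_left, real_inner_smul_right,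
        hmν, hνm, hmm, hνν]
      field_simp
      linear_combination -2 * hsc
    exact (pow_eq_one_iff_of_nonneg (norm_nonneg _) two_ne_zero).1 this
  · simp only [inner_add_right, inner_sub_left, real_inner_smul_left, real_inner_smul_right,
        hmν, hνm, hmm, hνν]
    ring
  · rw [smul_smul, smul_smul]
    have e1 : s * (1 / (2 * s)) = 1 / 2 := by field_simp
    have e2 : c * (1 / (2 * c)) = 1 / 2 := by field_simp
    rw [e1, e2]
    module
  · rw [smul_smul, smul_smul]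
    have e1 : (-s) * (1 / (2 * s)) = -(1 / 2) := by field_simp
    have e2 : c * (1 / (2 * c)) = 1 / 2 := by field_simp
    rw [e1, e2]
    module

/-- The direction of the gradient points upstream. -/
theorem transport {a b e : E n} {α H νe : ℝ} (h0 : 0 < α) (hαH : α / 2 < H)
    (hH : H ≤ Real.pi / 2)
    (h1 : Real.sin (α / 2) * inner ℝ e a + Real.cos (α / 2) * inner ℝ e b = 0)
    (h2 : -Real.sin (α / 2) * inner ℝ e a + Real.cos (α / 2) * inner ℝ e b = νe)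
    (hν : 0 < νe) :
    ∃ μ : ℝ, 0 < μ ∧ ∀ w : ℝ, |w| ≤ Real.pi / 2 - H →
      Real.cos w * inner ℝ e a + Real.sin w * inner ℝ e b ≤ -μ := by
  have hπ := Real.pi_pos
  have hs : 0 < Real.sin (α / 2) := Real.sin_pos_of_pos_of_lt_pi (by linarith) (by linarith)
  have hc : 0 < Real.cos (α / 2) := Real.cos_pos_of_mem_Ioo ⟨by linarith, by linarith⟩
  have hsH : 0 < Real.sin (H - α / 2) :=
    Real.sin_pos_of_pos_of_lt_pi (by linarith) (by linarith)
  set s := Real.sin (α / 2) with hsdef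
  set c := Real.cos (α / 2) with hcdef
  refine ⟨νe * Real.sin (H - α / 2) / (2 * s * c), by positivity, fun w hω => ?_⟩
  have e1 : inner ℝ e a = -νe / (2 * s) := by
    rw [eq_div_iff (by positivity)]; linarith
  have e2 : inner ℝ e b = νe / (2 * c) := by
    rw [eq_div_iff (by positivity)]; linarith
  have e3 : Real.cos w * inner ℝ e a + Real.sin w * inner ℝ e b =
      -(νe * Real.cos (w + α / 2) / (2 * s * c)) := by
    rw [e1, e2, Real.cos_add, ← hsdef, ← hcdef]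
    field_simp
    ring
  rw [e3]
  have h3 : Real.sin (H - α / 2) ≤ Real.cos (w + α / 2) := by
    rw [← Real.cos_pi_div_two_sub, ← Real.cos_abs (w + α / 2)]
    apply Real.cos_le_cos_of_nonneg_of_le_pi (abs_nonneg _) (by linarith)
    have := abs_add_le w (α / 2)
    rw [abs_of_pos (by linarith : (0:ℝ) < α / 2)] at this
    linarith
  rw [neg_le_neg_iff]
  gcongr

/-- The radial perturbation. -/
noncomputable def f1 (a P : E n) (ε δ : ℝ) (X : E n) : ℝ :=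
  inner ℝ a (X - P) + ε * Real.sqrt (‖X - P‖ ^ 2 + δ ^ 2)

noncomputable def f2 (b P : E n) (X : E n) : ℝ := inner ℝ b (X - P)

theorem jet_f2 (b P X₀ : E n) : Jet (f2 b P) X₀ (fun v => inner ℝ b v) (fun _ => 0) :=
  (jet_inner b (X₀ - P)).sub_const

theorem jet_f1 (a P X₀ : E n) (ε : ℝ) {δ : ℝ} (hδ : 0 < δ) :
    Jet (f1 a P ε δ) X₀
      (fun v => inner ℝ (a + (ε / Real.sqrt (‖X₀ - P‖ ^ 2 + δ ^ 2)) • (X₀ - P)) v)
      (fun v => ε * (‖v‖ ^ 2 / Real.sqrt (‖X₀ - P‖ ^ 2 + δ ^ 2) -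
        inner ℝ (X₀ - P) v ^ 2 / Real.sqrt (‖X₀ - P‖ ^ 2 + δ ^ 2) ^ 3)) := by
  have hpos : 0 < ‖X₀ - P‖ ^ 2 + δ ^ 2 := by positivity
  have h1 := ((jet_norm_sq (X₀ - P)).add (jet_const (δ ^ 2) (X₀ - P))).comp (jet1_sqrt hpos)
  have h2 := ((jet_inner a (X₀ - P)).add (h1.const_mul ε)).sub_const
  set ρ := Real.sqrt (‖X₀ - P‖ ^ 2 + δ ^ 2) with hρ
  have hρ0 : 0 < ρ := Real.sqrt_pos.2 hpos
  have h3 : Jet (f1 a P ε δ) X₀ _ _ := h2
  refine h3.congr ?_ ?_
  · intro v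
    rw [inner_add_left, real_inner_smul_left]
    field_simp
    ring
  · intro v
    field_simp
    ring

theorem isQ_q1 (x : E n) (ε ρ : ℝ) :
    IsQ (fun v => ε * (‖v‖ ^ 2 / ρ - inner ℝ x v ^ 2 / ρ ^ 3)) := by
  refine ((isQ_norm_sq.const_mul (ε / ρ)).add ((isQ_mul x x).const_mul (-ε / ρ ^ 3))).congr
    fun v => ?_
  ring

/-- The cone condition. -/
theorem cone {a b P X m ν : E n} {α ε ε' δ : ℝ} (h0 : 0 < α) (hπ : α < Real.pi)
    (hm : m = Real.sin (α / 2) • a + Real.cos (α / 2) • b)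
    (hν : ν = (-Real.sin (α / 2)) • a + Real.cos (α / 2) • b)
    (hε : 0 < ε) (hε' : ε' ≤ Real.sin (α / 2) * ε / 2) (hε'0 : 0 ≤ ε') (hδ : 0 < δ)
    (h1 : -ε' * ‖X - P‖ ≤ inner ℝ (X - P) m) (h2 : inner ℝ (X - P) ν ≤ ε' * ‖X - P‖) :
    ε / 2 * Real.sqrt (‖X - P‖ ^ 2 + δ ^ 2) ≤ f1 a P ε δ X ∧
      |Real.arctan (f2 b P X / f1 a P ε δ X)| ≤ α / 2 := by
  have hs : 0 < Real.sin (α / 2) := Real.sin_pos_of_pos_of_lt_pi (by linarith) (by linarith)
  have hc : 0 < Real.cos (α / 2) := Real.cos_pos_of_mem_Ioo ⟨by linarith, by linarith⟩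
  set s := Real.sin (α / 2) with hsdef
  set c := Real.cos (α / 2) with hcdef
  set ρ := Real.sqrt (‖X - P‖ ^ 2 + δ ^ 2) with hρ
  have hρ0 : 0 < ρ := Real.sqrt_pos.2 (by positivity)
  have hxρ : ‖X - P‖ ≤ ρ := Real.le_sqrt_of_sq_le (by nlinarith [sq_nonneg δ])
  have e1 : inner ℝ (X - P) m = s * inner ℝ a (X - P) + c * f2 b P X := by
    rw [hm, inner_add_right, real_inner_smul_right, real_inner_smul_right,
      real_inner_comm a (X - P), real_inner_comm b (X - P)]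
    rfl
  have e2 : inner ℝ (X - P) ν = -s * inner ℝ a (X - P) + c * f2 b P X := by
    rw [hν, inner_add_right, real_inner_smul_right, real_inner_smul_right,
      real_inner_comm a (X - P), real_inner_comm b (X - P)]
    rfl
  have e3 : inner ℝ a (X - P) = f1 a P ε δ X - ε * ρ := by
    unfold f1; rw [← hρ]; ring
  rw [e1, e3] at h1
  rw [e2, e3] at h2
  have h3 : ε' * ‖X - P‖ ≤ s * ε / 2 * ρ := by
    calc ε' * ‖X - P‖ ≤ ε' * ρ := mul_le_mul_of_nonneg_left hxρ hε'0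
      _ ≤ _ := mul_le_mul_of_nonneg_right hε' hρ0.le
  have hf1 : ε / 2 * ρ ≤ f1 a P ε δ X := by
    have : s * (ε / 2 * ρ) ≤ s * f1 a P ε δ X := by nlinarith
    exact le_of_mul_le_mul_left this hs
  refine ⟨hf1, ?_⟩
  have hf10 : 0 < f1 a P ε δ X := lt_of_lt_of_le (by positivity) hf1
  have hρε : 0 < s * ε / 2 * ρ := by positivity
  have h4 : |f2 b P X / f1 a P ε δ X| ≤ Real.tan (α / 2) := by
    rw [Real.tan_eq_sin_div_cos, abs_div, abs_of_pos hf10, div_le_div_iff₀ hf10 hc]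
    have : |c * f2 b P X| ≤ s * f1 a P ε δ X := by
      rw [abs_le]
      constructor <;> nlinarith
    rw [abs_mul, abs_of_pos hc] at this
    linarith
  rw [abs_le] at h4 ⊢
  have h5 : Real.arctan (Real.tan (α / 2)) = α / 2 :=
    Real.arctan_tan (by linarith) (by linarith)
  constructor
  · have := Real.arctan_strictMono.monotone h4.1
    rw [Real.arctan_neg, h5] at this
    exact this
  · have := Real.arctan_strictMono.monotone h4.2
    rw [h5] at this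
    exact this

theorem f_bounds {a b P X : E n} {ε δ : ℝ} (ha : ‖a‖ = 1) (hb : ‖b‖ = 1)
    (hε1 : ε ≤ 1) (hf : 0 ≤ f1 a P ε δ X) :
    Real.sqrt (f1 a P ε δ X ^ 2 + f2 b P X ^ 2) ≤ 3 * Real.sqrt (‖X - P‖ ^ 2 + δ ^ 2) := by
  set ρ := Real.sqrt (‖X - P‖ ^ 2 + δ ^ 2) with hρ
  have hρ0 : 0 ≤ ρ := Real.sqrt_nonneg _
  have hxρ : ‖X - P‖ ≤ ρ := Real.le_sqrt_of_sq_le (by nlinarith [sq_nonneg δ])
  have h1 : f1 a P ε δ X ≤ 2 * ρ := by
    unfold f1
    rw [← hρ]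
    have h2 := abs_real_inner_le_norm a (X - P)
    rw [ha, one_mul] at h2
    have h3 := (abs_le.1 h2).2
    nlinarith
  have h2 : |f2 b P X| ≤ ρ := by
    unfold f2
    have h2 := abs_real_inner_le_norm b (X - P)
    rw [hb, one_mul] at h2
    linarith
  have h3 : f2 b P X ^ 2 ≤ ρ ^ 2 := by
    rw [← sq_abs (f2 b P X)]
    exact pow_le_pow_left₀ (abs_nonneg _) h2 2
  apply Real.sqrt_le_iff.2
  constructor
  · positivity
  · nlinarith

theorem FF_pos (hp : 2 < p) (hκ : 1 < κ) {θ : ℝ} (h : |θ| < half p κ) : 0 < FF p κ θ := by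
  have h1 := abs_lt.1 (abs_Xf_lt hp hκ h)
  unfold FF
  have h2 : 0 < Real.cos (Xf p κ θ) := Real.cos_pos_of_mem_Ioo ⟨by linarith [h1.1], h1.2⟩
  have h3 := gg_pos hp hκ (Xf p κ θ)
  have h4 : 0 < κ := by linarith
  positivity

theorem continuous_FF (hp : 2 < p) (hκ : 1 < κ) : Continuous (FF p κ) :=
  continuous_iff_continuousAt.2 fun θ => (hasDerivAt_FF hp hκ θ).continuousAt

theorem FF_bounds (hp : 2 < p) (hκ : 1 < κ) {β : ℝ} (h0 : 0 < β) (h : β < half p κ) :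
    ∃ F₀ F₁ : ℝ, 0 < F₀ ∧ 0 < F₁ ∧ ∀ θ : ℝ, |θ| ≤ β → F₀ ≤ FF p κ θ ∧ FF p κ θ ≤ F₁ := by
  have hK : IsCompact (Icc (-β) β) := isCompact_Icc
  have hne : (Icc (-β) β).Nonempty := ⟨0, by constructor <;> linarith⟩
  obtain ⟨θ₀, hθ₀, hmin⟩ := hK.exists_isMinOn hne (continuous_FF hp hκ).continuousOn
  obtain ⟨θ₁, hθ₁, hmax⟩ := hK.exists_isMaxOn hne (continuous_FF hp hκ).continuousOn
  refine ⟨FF p κ θ₀, FF p κ θ₁, FF_pos hp hκ ((abs_le.2 hθ₀).trans_lt h),
    FF_pos hp hκ ((abs_le.2 hθ₁).trans_lt h), fun θ hθ => ⟨hmin (abs_le.1 hθ), hmax (abs_le.1 hθ)⟩⟩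

end Run7.h845
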