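import Pool.Agent.Run7.h845.Growth

/-!
# The growth estimate at the vertex of the wedge
-/

set_option autoImplicit false

open MeasureTheory Set Filter Topology Asymptotics
open scoped ENNReal NNReal ContDiff

namespace Run7.h845

open Pool.Agent.R525.MS

variable {n : ℕ} {p κ γ : ℝ}

theorem half_le (hp : 2 < p) (hκ : 1 < κ) : half p κ ≤ Real.pi / 2 := by
  have := mono_diff (κ := κ) hp hκ (by positivity : (0:ℝ) ≤ Real.pi / 2)
  simp only [Th_zero, sub_zero] at this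
  unfold half
  linarith

/-- No touching at interior points. -/
theorem wedge_interior (hp : 2 < p) (hκ : 1 < κ) (hγ0 : 0 < γ) (hγ1 : γ < 1)
    {Ω : Set (E n)} (hΩ : IsOpen Ω) {c : ℝ} (hc : 0 < c) {e : E n} (he : ‖e‖ ≤ 1) {φ : E n → ℝ}
    (hφc : ContinuousOn φ Ω) (hw : IsWeakSol Ω p (c • e) φ) {X P a b : E n} (hX : X ∈ Ω)
    {ε δ μ ρ₀ : ℝ} (ha : ‖a‖ = 1) (hb : ‖b‖ = 1) (hε0 : 0 < ε) (hε1 : ε ≤ 1) (hεμ : ε ≤ μ / 2)
    (hδ : 0 < δ) (hδρ : δ ≤ ρ₀) (hXρ : ‖X - P‖ ≤ ρ₀)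
    (hρ₀ : ρ₀ ≤ c * μ * κ * γ * (p - 2) / 12)
    (htr : ∀ w : ℝ, |w| ≤ Real.pi / 2 - half p κ →
      Real.cos w * inner ℝ e a + Real.sin w * inner ℝ e b ≤ -μ)
    (heps : ∀ a' : E n, ‖a' - a‖ ≤ ε →
      ∀ θ ∈ Icc (-(Real.pi / 2)) (Real.pi / 2), ∀ t ∈ Icc (-(Real.pi / 2)) (Real.pi / 2),
      (κ - 1) * Lq p (wW a' b θ t) (MM p a' b θ t) +
        ε * (3 * (n + (p - 2))) * ‖wW a' b θ t‖ ^ 2 <
        (p - 1) * (1 - γ) * κ * ‖wW a' b θ t‖ ^ 4)
    (hf1 : 0 < f1 a P ε δ X)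
    (hθ : |Real.arctan (f2 b P X / f1 a P ε δ X)| < half p κ) {lam : ℝ} (hlam : 0 < lam)
    (hle : ∀ᶠ Y in 𝓝 X, φ Y ≤ lam * UU p κ (f1 a P ε δ) (f2 b P) Y ^ γ)
    (heq : φ X = lam * UU p κ (f1 a P ε δ) (f2 b P) X ^ γ) : False := by
  have hπ := Real.pi_pos
  set ρ := Real.sqrt (‖X - P‖ ^ 2 + δ ^ 2) with hρ
  have hρ0 : 0 < ρ := Real.sqrt_pos.2 (by positivity)
  have hxρ : ‖X - P‖ ≤ ρ := Real.le_sqrt_of_sq_le (by nlinarith [sq_nonneg δ])
  set θ := Real.arctan (f2 b P X / f1 a P ε δ X) with hθdef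
  set t := Xf p κ θ with htdef
  set r := Real.sqrt (f1 a P ε δ X ^ 2 + f2 b P X ^ 2) with hr
  have hr0 : 0 < r := Real.sqrt_pos.2 (by positivity)
  have hr3 : r ≤ 3 * ρ := f_bounds ha hb hε1 hf1.le
  set a' := a + (ε / ρ) • (X - P) with ha'
  set q1 : E n → ℝ := fun v => ε * (‖v‖ ^ 2 / ρ - inner ℝ (X - P) v ^ 2 / ρ ^ 3) with hq1
  have hj1 : Jet (f1 a P ε δ) X (fun v => inner ℝ a' v) q1 := jet_f1 a P X ε hδ
  have hq1Q : IsQ q1 := isQ_q1 _ _ _
  have ha'a : ‖a' - a‖ ≤ ε := by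
    rw [ha', add_sub_cancel_left, norm_smul, Real.norm_eq_abs, abs_of_pos (by positivity),
      div_mul_eq_mul_div, div_le_iff₀ hρ0]
    exact mul_le_mul_of_nonneg_left hxρ hε0.le
  have hhalf := half_le (κ := κ) hp hκ
  have homega := abs_omega_le hp hκ hθ
  rw [← htdef] at homega
  have hhalf0 : 0 < half p κ := (abs_nonneg θ).trans_lt hθ
  have hcos : 0 ≤ Real.cos (θ - t) := by
    apply Real.cos_nonneg_of_mem_Icc
    have := abs_le.1 homega
    constructor <;> linarith [this.1, this.2]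
  have hcos1 : Real.cos (θ - t) ≤ 1 := Real.cos_le_one _
  set w := wW a' b θ t with hwdef
  -- transport
  have hew : inner ℝ e w ≤ -μ / 2 := by
    have h1 : inner ℝ e w = (Real.cos (θ - t) * inner ℝ e a + Real.sin (θ - t) * inner ℝ e b) +
        Real.cos (θ - t) * inner ℝ e (a' - a) := by
      rw [hwdef]; unfold wW
      rw [inner_add_right, real_inner_smul_right, real_inner_smul_right, inner_sub_right]
      ring
    have h2 := htr (θ - t) homega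
    have h3 : Real.cos (θ - t) * inner ℝ e (a' - a) ≤ ε := by
      have h4 : inner ℝ e (a' - a) ≤ ε := by
        have h5 := (abs_le.1 (abs_real_inner_le_norm e (a' - a))).2
        have h6 : ‖e‖ * ‖a' - a‖ ≤ 1 * ε := mul_le_mul he ha'a (norm_nonneg _) zero_le_one
        linarith
      calc Real.cos (θ - t) * inner ℝ e (a' - a) ≤ Real.cos (θ - t) * ε :=
            mul_le_mul_of_nonneg_left h4 hcos
        _ ≤ 1 * ε := mul_le_mul_of_nonneg_right hcos1 hε0.le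
        _ = ε := one_mul _
    rw [h1]
    linarith
  have hμ0 : 0 < μ := by linarith
  have hw0 : w ≠ 0 := by
    intro h0
    rw [h0, inner_zero_right] at hew
    linarith
  have hp2 : 0 < p - 2 := by linarith
  have hκ0 : 0 < κ := by linarith
  have hρ2 : ρ ≤ 2 * ρ₀ := by
    rw [hρ]
    apply Real.sqrt_le_iff.2
    have hn := norm_nonneg (X - P)
    constructor
    · linarith
    · nlinarith
  -- the inequality of the second order part
  have hθI : θ ∈ Icc (-(Real.pi / 2)) (Real.pi / 2) := by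
    have := abs_lt.1 hθ
    constructor <;> linarith [this.1, this.2]
  have htI : t ∈ Icc (-(Real.pi / 2)) (Real.pi / 2) := by
    have := abs_lt.1 (abs_Xf_lt hp hκ hθ)
    exact ⟨this.1.le, this.2.le⟩
  have hE := heps a' ha'a θ hθI t htI
  have hLq1 : Lq p w q1 ≤ ε / ρ * ((n + (p - 2)) * ‖w‖ ^ 2) := by
    rw [← Lq_norm_sq, ← Lq_const_mul]
    apply Lq_mono hp
    intro v
    rw [hq1]
    have h1 : 0 ≤ inner ℝ (X - P) v ^ 2 / ρ ^ 3 := by positivity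
    have h2 : ε / ρ * ‖v‖ ^ 2 = ε * (‖v‖ ^ 2 / ρ) := by field_simp
    rw [h2]
    exact mul_le_mul_of_nonneg_left (by linarith) hε0.le
  have hA : (κ - 1) * Lq p (wW a' b θ t) (MM p a' b θ t) +
      r * Real.cos (θ - t) * Lq p (wW a' b θ t) q1 <
        (p - 1) * (1 - γ) * κ * ‖wW a' b θ t‖ ^ 4 := by
    refine lt_of_le_of_lt ?_ hE
    have hn0 : (0:ℝ) ≤ n + (p - 2) := by positivity
    have h1 : r * Real.cos (θ - t) * Lq p w q1 ≤ 3 * ρ * (ε / ρ * ((n + (p - 2)) * ‖w‖ ^ 2)) := by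
      calc r * Real.cos (θ - t) * Lq p w q1
          ≤ r * Real.cos (θ - t) * (ε / ρ * ((n + (p - 2)) * ‖w‖ ^ 2)) :=
            mul_le_mul_of_nonneg_left hLq1 (by positivity)
        _ ≤ 3 * ρ * (ε / ρ * ((n + (p - 2)) * ‖w‖ ^ 2)) := by
            apply mul_le_mul_of_nonneg_right _ (by positivity)
            calc r * Real.cos (θ - t) ≤ r * 1 := mul_le_mul_of_nonneg_left hcos1 hr0.le
              _ ≤ 3 * ρ := by linarith
    have h2 : 3 * ρ * (ε / ρ * ((n + (p - 2)) * ‖w‖ ^ 2)) =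
        ε * (3 * (n + (p - 2))) * ‖w‖ ^ 2 := by field_simp
    rw [h2] at h1
    linarith
  have hB : c * inner ℝ e (wW a' b θ t) + r / (κ * γ * (p - 2)) ≤ 0 := by
    have h1 : r / (κ * γ * (p - 2)) ≤ c * μ / 2 := by
      rw [div_le_iff₀ (by positivity)]
      have : r ≤ 6 * ρ₀ := by linarith
      calc r ≤ 6 * ρ₀ := this
        _ ≤ 6 * (c * μ * κ * γ * (p - 2) / 12) := by linarith
        _ = _ := by ring
    have h2 : c * inner ℝ e w ≤ c * (-μ / 2) := mul_le_mul_of_nonneg_left hew hc.le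
    linarith
  exact wedge_no_touch hp hκ hγ0 hγ1 hΩ hφc hw hX hj1 hq1Q (jet_f2 b P X) hf1 hθdef htdef hr hθ
    hw0 hA hB hlam hle heq

theorem growth (hp : 2 < p) {Ω : Set (E n)} (hΩ : IsOpen Ω) {c : ℝ} (hc : 0 < c) {e : E n}
    (he : ‖e‖ ≤ 1) {φ : E n → ℝ} (hφc : ContinuousOn φ (closure Ω))
    (hb : ∀ X ∈ frontier Ω, φ X = 0) (hw : IsWeakSol Ω p (c • e) φ)
    {P m ν : E n} (hP : P ∈ frontier Ω) (hm : ‖m‖ = 1) (hν : ‖ν‖ = 1)
    (hme : inner ℝ e m = (0:ℝ)) (hνe : 0 < inner ℝ e ν)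
    (hα : InnerProductGeometry.angle m ν < Real.pi * (1 - 1 / Real.sqrt (2 * p - 3)))
    (h1 : ∀ ε : ℝ, 0 < ε → ∀ᶠ X in 𝓝 P, X ∈ Ω → -ε * ‖X - P‖ ≤ inner ℝ (X - P) m)
    (h2 : ∀ ε : ℝ, 0 < ε → ∀ᶠ X in 𝓝 P, X ∈ Ω → 0 < φ X →
      inner ℝ (X - P) ν ≤ ε * ‖X - P‖) :
    ∃ B k' ρ : ℝ, (p - 1) / (p - 2) < k' ∧ 0 < ρ ∧ 0 < B ∧
      ∀ X ∈ closure (posSet Ω φ), ‖X - P‖ ≤ ρ → φ X ≤ B * ‖X - P‖ ^ k' := by
  have hπ := Real.pi_pos
  set α := InnerProductGeometry.angle m ν with hαdef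
  have hsq : 0 < 1 / Real.sqrt (2 * p - 3) := by
    apply div_pos one_pos
    exact Real.sqrt_pos.2 (by linarith)
  have hαπ : α < Real.pi := by nlinarith
  have hα0 : 0 < α := by
    rcases (InnerProductGeometry.angle_nonneg m ν).lt_or_eq with h | h
    · exact h
    · exfalso
      have h3 := InnerProductGeometry.inner_eq_mul_norm_iff_angle_eq_zero
        (x := m) (y := ν) (by rw [← norm_pos_iff, hm]; norm_num)
        (by rw [← norm_pos_iff, hν]; norm_num)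
      have h4 := h3.2 h.symm
      have h5 := (inner_eq_one_iff_of_norm_eq_one (𝕜 := ℝ) hm hν).1 (by rw [h4, hm, hν]; norm_num)
      rw [← h5, hme] at hνe
      exact lt_irrefl _ hνe
  obtain ⟨κ, γ, -, hκ, hαhalf, hγ0, hγ1, hk⟩ := exists_exponent hp hα
  obtain ⟨a, b, ha, hbn, hab, hma, hνa⟩ := frame hm hν hαdef.symm hα0 hαπ
  have hs : 0 < Real.sin (α / 2) := Real.sin_pos_of_pos_of_lt_pi (by linarith) (by linarith)
  obtain ⟨μ, hμ, htr⟩ := transport (a := a) (b := b) (e := e) hα0 hαhalf (half_le hp hκ)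
    (by rw [← hme, hma, inner_add_right, real_inner_smul_right, real_inner_smul_right])
    (νe := inner ℝ e ν)
    (by
      conv_rhs => rw [hνa]
      rw [inner_add_right, real_inner_smul_right, real_inner_smul_right]) hνe
  obtain ⟨F₀, F₁, hF₀, hF₁, hF⟩ := FF_bounds hp hκ (by linarith : 0 < α / 2) hαhalf
  obtain ⟨ε, hε0, hεη, heps⟩ := exists_eps hp hκ hγ1 ha hbn hab
    (lt_min one_pos (by linarith : 0 < μ / 2)) (3 * (n + (p - 2)))
  have hε1 : ε ≤ 1 := hεη.trans (min_le_left _ _)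
  have hεμ : ε ≤ μ / 2 := hεη.trans (min_le_right _ _)
  set ε' := Real.sin (α / 2) * ε / 2 with hε'
  have hε'0 : 0 < ε' := by positivity
  obtain ⟨ρ₁, hρ₁, hball⟩ := Metric.eventually_nhds_iff_ball.1 ((h1 ε' hε'0).and (h2 ε' hε'0))
  have hp2 : 0 < p - 2 := by linarith
  have hκ0 : 0 < κ := by linarith
  set ρ₀ := min (ρ₁ / 2) (c * μ * κ * γ * (p - 2) / 12) with hρ₀
  have hρ₀0 : 0 < ρ₀ := lt_min (by linarith) (by positivity)
  have hρ₀1 : ρ₀ ≤ ρ₁ / 2 := min_le_left _ _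
  have hρ₀2 : ρ₀ ≤ c * μ * κ * γ * (p - 2) / 12 := min_le_right _ _
  set S := posSet Ω φ with hS
  set K := closure S ∩ Metric.closedBall P ρ₀ with hK
  have hKc : IsCompact K := (isCompact_closedBall P ρ₀).inter_left isClosed_closure
  have hKΩ : K ⊆ closure Ω := fun X hX => closure_mono (fun y hy => hy.1) hX.1
  have hcond : ∀ X ∈ K, -ε' * ‖X - P‖ ≤ inner ℝ (X - P) m ∧
      inner ℝ (X - P) ν ≤ ε' * ‖X - P‖ := by
    intro X hX
    have hC : IsClosed {X : E n | -ε' * ‖X - P‖ ≤ inner ℝ (X - P) m ∧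
        inner ℝ (X - P) ν ≤ ε' * ‖X - P‖} := by
      apply IsClosed.and
      · exact isClosed_le (by fun_prop) (by fun_prop)
      · exact isClosed_le (by fun_prop) (by fun_prop)
    refine closure_cond (P := P) (ρ := ρ₁) hC ?_ X hX.1 ?_
    · intro Y hY hYb
      have := hball Y hYb
      exact ⟨this.1 hY.1, this.2 hY.1 hY.2⟩
    · have := hX.2
      rw [Metric.mem_closedBall] at this
      rw [Metric.mem_ball]
      linarith
  have hcone : ∀ δ : ℝ, 0 < δ → ∀ X ∈ K,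
      ε / 2 * Real.sqrt (‖X - P‖ ^ 2 + δ ^ 2) ≤ f1 a P ε δ X ∧
      |Real.arctan (f2 b P X / f1 a P ε δ X)| ≤ α / 2 := by
    intro δ hδ X hX
    have := hcond X hX
    exact cone hα0 hαπ hma hνa hε0 le_rfl hε'0.le hδ this.1 this.2
  have hf1pos : ∀ δ : ℝ, 0 < δ → ∀ X ∈ K, 0 < f1 a P ε δ X := by
    intro δ hδ X hX
    refine lt_of_lt_of_le ?_ (hcone δ hδ X hX).1
    have : 0 < Real.sqrt (‖X - P‖ ^ 2 + δ ^ 2) := Real.sqrt_pos.2 (by positivity)
    positivity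
  obtain ⟨M, hM⟩ := hKc.exists_bound_of_continuousOn (hφc.mono hKΩ)
  set u₁ := (ε / 2 * ρ₀) ^ κ * F₀ with hu₁
  have hu₁0 : 0 < u₁ := mul_pos (Real.rpow_pos_of_pos (by positivity) _) hF₀
  have hu₁γ : 0 < u₁ ^ γ := Real.rpow_pos_of_pos hu₁0 _
  set Λ := |M| / u₁ ^ γ + 1 with hΛ
  have hΛ0 : 0 < Λ := by positivity
  -- positivity of the barrier
  have hUpos : ∀ δ : ℝ, 0 < δ → ∀ X ∈ K, 0 < UU p κ (f1 a P ε δ) (f2 b P) X := by
    intro δ hδ X hX
    have h3 := hf1pos δ hδ X hX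
    have h4 := (hF _ (hcone δ hδ X hX).2).1
    unfold UU
    apply mul_pos
    · exact Real.rpow_pos_of_pos (Real.sqrt_pos.2 (by positivity)) _
    · linarith
  -- the comparison
  have hcore : ∀ δ : ℝ, 0 < δ → δ ≤ ρ₀ → ∀ X ∈ K,
      φ X ≤ Λ * UU p κ (f1 a P ε δ) (f2 b P) X ^ γ := by
    intro δ hδ hδρ
    by_contra hcon
    push Not at hcon
    obtain ⟨X₁, hX₁, hlt⟩ := hcon
    have hf1c : Continuous (f1 a P ε δ) := by unfold f1; fun_prop
    have hf2c : Continuous (f2 b P) := by unfold f2; fun_prop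
    have hUc : ContinuousOn (UU p κ (f1 a P ε δ) (f2 b P)) K := by
      unfold UU
      apply ContinuousOn.mul
      · apply ContinuousOn.rpow_const
        · exact ((hf1c.pow 2).add (hf2c.pow 2)).sqrt.continuousOn
        · intro X hX
          exact Or.inr hκ0.le
      · apply (continuous_FF hp hκ).comp_continuousOn
        apply Real.continuous_arctan.comp_continuousOn
        exact hf2c.continuousOn.div hf1c.continuousOn fun X hX => (hf1pos δ hδ X hX).ne'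
    have hQc : ContinuousOn (fun X => φ X / UU p κ (f1 a P ε δ) (f2 b P) X ^ γ) K := by
      apply (hφc.mono hKΩ).div
      · exact hUc.rpow_const fun X hX => Or.inr hγ0.le
      · intro X hX
        exact (Real.rpow_pos_of_pos (hUpos δ hδ X hX) _).ne'
    obtain ⟨X₂, hX₂, hmax⟩ := hKc.exists_isMaxOn ⟨X₁, hX₁⟩ hQc
    set lam := φ X₂ / UU p κ (f1 a P ε δ) (f2 b P) X₂ ^ γ with hlam
    have hU2 := Real.rpow_pos_of_pos (hUpos δ hδ X₂ hX₂) γ
    have hlamΛ : Λ < lam := by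
      have h3 : φ X₁ / UU p κ (f1 a P ε δ) (f2 b P) X₁ ^ γ ≤ lam := hmax hX₁
      refine lt_of_lt_of_le ?_ h3
      rw [lt_div_iff₀ (Real.rpow_pos_of_pos (hUpos δ hδ X₁ hX₁) γ)]
      exact hlt
    have hlam0 : 0 < lam := hΛ0.trans hlamΛ
    have hφ2 : φ X₂ = lam * UU p κ (f1 a P ε δ) (f2 b P) X₂ ^ γ := by
      rw [hlam]; field_simp
    have hφ2pos : 0 < φ X₂ := by rw [hφ2]; positivity
    have hX₂ρ : ‖X₂ - P‖ < ρ₀ := by
      have h3 : ‖X₂ - P‖ ≤ ρ₀ := by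
        have := hX₂.2
        rwa [Metric.mem_closedBall, dist_eq_norm] at this
      rcases h3.lt_or_eq with h4 | h4
      · exact h4
      · exfalso
        have h5 : ρ₀ ≤ Real.sqrt (‖X₂ - P‖ ^ 2 + δ ^ 2) := by
          apply Real.le_sqrt_of_sq_le
          rw [h4]; nlinarith [sq_nonneg δ]
        have h6 : ε / 2 * ρ₀ ≤ f1 a P ε δ X₂ :=
          (mul_le_mul_of_nonneg_left h5 (by positivity)).trans (hcone δ hδ X₂ hX₂).1
        have h7 : ε / 2 * ρ₀ ≤ Real.sqrt (f1 a P ε δ X₂ ^ 2 + f2 b P X₂ ^ 2) := by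
          apply Real.le_sqrt_of_sq_le
          have : (ε / 2 * ρ₀) ^ 2 ≤ f1 a P ε δ X₂ ^ 2 := pow_le_pow_left₀ (by positivity) h6 2
          nlinarith [sq_nonneg (f2 b P X₂)]
        have h8 : u₁ ≤ UU p κ (f1 a P ε δ) (f2 b P) X₂ := by
          unfold UU
          rw [hu₁]
          exact mul_le_mul (Real.rpow_le_rpow (by positivity) h7 hκ0.le)
            (hF _ (hcone δ hδ X₂ hX₂).2).1 hF₀.le (by positivity)
        have h9 : u₁ ^ γ ≤ UU p κ (f1 a P ε δ) (f2 b P) X₂ ^ γ :=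
          Real.rpow_le_rpow hu₁0.le h8 hγ0.le
        have h10 : lam ≤ |M| / u₁ ^ γ := by
          rw [hlam]
          apply div_le_div₀ (abs_nonneg _) _ hu₁γ h9
          have := hM X₂ hX₂
          exact (le_abs_self _).trans (this.trans (le_abs_self _))
        linarith
    obtain ⟨hX₂Ω, hev⟩ := interior_touch hΩ hφc hb hX₂.1 hX₂ρ hφ2pos
    have h3 := hcone δ hδ X₂ hX₂
    refine wedge_interior hp hκ hγ0 hγ1 hΩ hc he (hφc.mono subset_closure) hw hX₂Ω ha hbn hε0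
      hε1 hεμ hδ hδρ hX₂ρ.le hρ₀2 htr heps (hf1pos δ hδ X₂ hX₂) (h3.2.trans_lt hαhalf) hlam0
      ?_ hφ2
    filter_upwards [hev] with Y hY
    have h4 : φ Y / UU p κ (f1 a P ε δ) (f2 b P) Y ^ γ ≤ lam := hmax hY
    rwa [div_le_iff₀ (Real.rpow_pos_of_pos (hUpos δ hδ Y hY) γ)] at h4
  -- conclusion
  refine ⟨Λ * (6 ^ κ * F₁) ^ γ, γ * κ, ρ₀, hk, hρ₀0, by positivity, fun X hX hXρ => ?_⟩
  rcases eq_or_ne X P with h3 | h3
  · rw [h3, hb P hP]
    positivity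
  have hx0 : 0 < ‖X - P‖ := norm_pos_iff.2 (sub_ne_zero.2 h3)
  have hXK : X ∈ K := ⟨hX, by rw [Metric.mem_closedBall, dist_eq_norm]; exact hXρ⟩
  have h4 := hcore ‖X - P‖ hx0 hXρ X hXK
  refine h4.trans ?_
  rw [mul_assoc]
  apply mul_le_mul_of_nonneg_left _ hΛ0.le
  have h5 : Real.sqrt (‖X - P‖ ^ 2 + ‖X - P‖ ^ 2) ≤ 2 * ‖X - P‖ := by
    apply Real.sqrt_le_iff.2
    constructor
    · positivity
    · nlinarith
  have h6 : Real.sqrt (f1 a P ε ‖X - P‖ X ^ 2 + f2 b P X ^ 2) ≤ 6 * ‖X - P‖ := by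
    have := f_bounds (b := b) (P := P) (X := X) (δ := ‖X - P‖) ha hbn hε1
      (hf1pos _ hx0 X hXK).le
    linarith
  have h7 : UU p κ (f1 a P ε ‖X - P‖) (f2 b P) X ≤ (6 * ‖X - P‖) ^ κ * F₁ := by
    unfold UU
    exact mul_le_mul (Real.rpow_le_rpow (Real.sqrt_nonneg _) h6 hκ0.le)
      (hF _ (hcone _ hx0 X hXK).2).2
      (hF₀.le.trans (hF _ (hcone _ hx0 X hXK).2).1) (by positivity)
  calc UU p κ (f1 a P ε ‖X - P‖) (f2 b P) X ^ γ ≤ ((6 * ‖X - P‖) ^ κ * F₁) ^ γ :=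
        Real.rpow_le_rpow (hUpos _ hx0 X hXK).le h7 hγ0.le
    _ = (6 ^ κ * F₁) ^ γ * ‖X - P‖ ^ (γ * κ) := by
        rw [Real.mul_rpow (by norm_num) hx0.le, mul_right_comm, Real.mul_rpow (by positivity)
          (by positivity), ← Real.rpow_mul hx0.le, mul_comm κ γ]

end Run7.h845
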