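import Mathlib

/-!
# The angular functions of the homogeneous p-harmonic functions in plane sectors
-/

set_option autoImplicit false

open Set Filter Topology MeasureTheory

namespace Run7.h845

variable {p κ : ℝ}

/-- Numerator. -/
noncomputable def num (p t : ℝ) : ℝ := (p - 1) - (p - 2) * Real.cos t ^ 2

/-- Denominator. -/
noncomputable def den (p κ t : ℝ) : ℝ := κ * (p - 1) - (p - 2) * Real.cos t ^ 2

/-- The polar angle as a function of the angle of the gradient. -/
noncomputable def Th (p κ t : ℝ) : ℝ := ∫ s in (0:ℝ)..t, num p s / den p κ s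

theorem cos_sq_le (t : ℝ) : Real.cos t ^ 2 ≤ 1 := Real.cos_sq_le_one t

theorem num_ge (hp : 2 < p) (t : ℝ) : 1 ≤ num p t := by
  unfold num
  nlinarith [cos_sq_le t]

theorem num_le (hp : 2 < p) (t : ℝ) : num p t ≤ p - 1 := by
  unfold num
  nlinarith [sq_nonneg (Real.cos t)]

theorem den_gt (hp : 2 < p) (hκ : 1 < κ) (t : ℝ) : num p t < den p κ t := by
  unfold num den
  nlinarith

theorem den_pos (hp : 2 < p) (hκ : 1 < κ) (t : ℝ) : 0 < den p κ t := by
  linarith [num_ge hp t, den_gt hp hκ t]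

theorem den_le (hp : 2 < p) (t : ℝ) : den p κ t ≤ κ * (p - 1) := by
  unfold den
  nlinarith [sq_nonneg (Real.cos t)]

theorem continuous_num : Continuous (num p) := by unfold num; fun_prop

theorem continuous_den : Continuous (den p κ) := by unfold den; fun_prop

theorem continuous_quot (hp : 2 < p) (hκ : 1 < κ) : Continuous fun t => num p t / den p κ t :=
  continuous_num.div continuous_den fun t => (den_pos hp hκ t).ne'

theorem hasDerivAt_Th (hp : 2 < p) (hκ : 1 < κ) (t : ℝ) :
    HasDerivAt (Th p κ) (num p t / den p κ t) t := by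
  unfold Th
  have h := continuous_quot hp hκ
  exact intervalIntegral.integral_hasDerivAt_right (h.intervalIntegrable _ _)
    (h.stronglyMeasurableAtFilter _ _) h.continuousAt

theorem quot_pos (hp : 2 < p) (hκ : 1 < κ) (t : ℝ) : 0 < num p t / den p κ t :=
  div_pos (by linarith [num_ge hp t]) (den_pos hp hκ t)

theorem quot_ge (hp : 2 < p) (hκ : 1 < κ) (t : ℝ) :
    1 / (κ * (p - 1)) ≤ num p t / den p κ t := by
  apply div_le_div₀ (by linarith [num_ge hp t]) (num_ge hp t) (den_pos hp hκ t) (den_le hp t)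

theorem quot_lt (hp : 2 < p) (hκ : 1 < κ) (t : ℝ) : num p t / den p κ t < 1 := by
  rw [div_lt_one (den_pos hp hκ t)]
  exact den_gt hp hκ t

theorem Th_zero : Th p κ 0 = 0 := by simp [Th]

theorem Th_neg (t : ℝ) : Th p κ (-t) = - Th p κ t := by
  unfold Th
  have h : ∀ s, num p (-s) / den p κ (-s) = num p s / den p κ s := by
    intro s; simp [num, den]
  have h1 := intervalIntegral.integral_comp_neg (a := 0) (b := t)
    (fun s => num p s / den p κ s)
  simp only [h, neg_zero] at h1
  rw [intervalIntegral.integral_symm, ← h1]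

theorem strictMono_Th (hp : 2 < p) (hκ : 1 < κ) : StrictMono (Th p κ) := by
  apply strictMono_of_deriv_pos
  intro t
  rw [(hasDerivAt_Th hp hκ t).deriv]
  exact quot_pos hp hκ t

theorem differentiable_Th (hp : 2 < p) (hκ : 1 < κ) : Differentiable ℝ (Th p κ) :=
  fun t => (hasDerivAt_Th hp hκ t).differentiableAt

theorem Th_ge (hp : 2 < p) (hκ : 1 < κ) {t : ℝ} (ht : 0 ≤ t) :
    1 / (κ * (p - 1)) * t ≤ Th p κ t := by
  have hm : Monotone fun t => Th p κ t - 1 / (κ * (p - 1)) * t := by
    apply monotone_of_deriv_nonneg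
    · exact (differentiable_Th hp hκ).sub (differentiable_id.const_mul _)
    · intro t
      have h1 : HasDerivAt (fun t => Th p κ t - 1 / (κ * (p - 1)) * t)
          (num p t / den p κ t - 1 / (κ * (p - 1))) t := by
        have := (hasDerivAt_Th hp hκ t).sub ((hasDerivAt_id t).const_mul (1 / (κ * (p - 1))))
        exact this.congr_deriv (by rw [mul_one])
      rw [h1.deriv]
      linarith [quot_ge hp hκ t]
  have := hm ht
  simp only [Th_zero, mul_zero, sub_zero] at this
  linarith

theorem surjective_Th (hp : 2 < p) (hκ : 1 < κ) : Function.Surjective (Th p κ) := by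
  have hc : 0 < 1 / (κ * (p - 1)) := by
    apply div_pos one_pos
    nlinarith
  have h1 : Tendsto (Th p κ) atTop atTop := by
    apply tendsto_atTop_mono' atTop _ ((tendsto_id).const_mul_atTop hc)
    filter_upwards [eventually_ge_atTop (0:ℝ)] with t ht
    exact Th_ge hp hκ ht
  have h2 : Tendsto (Th p κ) atBot atBot := by
    apply tendsto_atBot_mono' atBot _ ((tendsto_id).const_mul_atBot hc)
    filter_upwards [eventually_le_atBot (0:ℝ)] with t ht
    have := Th_ge hp hκ (neg_nonneg.2 ht)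
    rw [Th_neg] at this
    simp only [id]
    linarith
  exact (differentiable_Th hp hκ).continuous.surjective h1 h2

/-- The inverse function. -/
noncomputable def Xf (p κ θ : ℝ) : ℝ := Function.invFun (Th p κ) θ

theorem Th_Xf (hp : 2 < p) (hκ : 1 < κ) (θ : ℝ) : Th p κ (Xf p κ θ) = θ :=
  Function.invFun_eq (surjective_Th hp hκ θ)

theorem Xf_Th (hp : 2 < p) (hκ : 1 < κ) (t : ℝ) : Xf p κ (Th p κ t) = t :=
  Function.leftInverse_invFun (strictMono_Th hp hκ).injective t

theorem continuous_Xf (hp : 2 < p) (hκ : 1 < κ) : Continuous (Xf p κ) := by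
  have h := ((strictMono_Th hp hκ).orderIsoOfSurjective _ (surjective_Th hp hκ)).symm.continuous
  have : ⇑((strictMono_Th hp hκ).orderIsoOfSurjective _ (surjective_Th hp hκ)).symm = Xf p κ := by
    ext θ
    apply (strictMono_Th hp hκ).injective
    rw [Th_Xf hp hκ]
    exact ((strictMono_Th hp hκ).orderIsoOfSurjective _ (surjective_Th hp hκ)).apply_symm_apply θ
  rwa [this] at h

theorem strictMono_Xf (hp : 2 < p) (hκ : 1 < κ) : StrictMono (Xf p κ) := by
  intro a b hab
  by_contra h
  push Not at h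
  have := (strictMono_Th hp hκ).monotone h
  rw [Th_Xf hp hκ, Th_Xf hp hκ] at this
  linarith

theorem hasDerivAt_Xf (hp : 2 < p) (hκ : 1 < κ) (θ : ℝ) :
    HasDerivAt (Xf p κ) (den p κ (Xf p κ θ) / num p (Xf p κ θ)) θ := by
  have h := HasDerivAt.of_local_left_inverse (continuous_Xf hp hκ).continuousAt
    (hasDerivAt_Th hp hκ (Xf p κ θ)) (quot_pos hp hκ _).ne'
    (Eventually.of_forall fun y => Th_Xf hp hκ y)
  rwa [inv_div] at h

/-- Half the opening of the sector. -/
noncomputable def half (p κ : ℝ) : ℝ := Th p κ (Real.pi / 2)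

theorem abs_Xf_lt (hp : 2 < p) (hκ : 1 < κ) {θ : ℝ} (h : |θ| < half p κ) :
    |Xf p κ θ| < Real.pi / 2 := by
  rw [abs_lt] at h ⊢
  unfold half at h
  constructor
  · have h1 := (strictMono_Xf hp hκ) h.1
    rw [← Th_neg, Xf_Th hp hκ] at h1
    exact h1
  · have h1 := (strictMono_Xf hp hκ) h.2
    rwa [Xf_Th hp hκ] at h1

theorem mono_diff (hp : 2 < p) (hκ : 1 < κ) : Monotone fun t => t - Th p κ t := by
  apply monotone_of_deriv_nonneg
  · exact differentiable_id.sub (differentiable_Th hp hκ)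
  · intro t
    have h1 : HasDerivAt (fun t => t - Th p κ t) (1 - num p t / den p κ t) t :=
      (hasDerivAt_id t).sub (hasDerivAt_Th hp hκ t)
    rw [h1.deriv]
    linarith [quot_lt hp hκ t]

/-- The direction of the gradient stays in a sector. -/
theorem abs_omega_le (hp : 2 < p) (hκ : 1 < κ) {θ : ℝ} (h : |θ| < half p κ) :
    |θ - Xf p κ θ| ≤ Real.pi / 2 - half p κ := by
  have h1 := abs_lt.1 (abs_Xf_lt hp hκ h)
  have h2 := mono_diff hp hκ h1.2.le
  have h3 := mono_diff hp hκ h1.1.le
  simp only [Th_Xf hp hκ, Th_neg] at h2 h3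
  unfold half
  rw [abs_le]
  constructor <;> linarith

/-- The constant in the formula for the opening. -/
noncomputable def cc (p κ : ℝ) : ℝ :=
  (κ - 1) * (p - 1) / Real.sqrt ((κ * (p - 1)) * (κ * (p - 1) - (p - 2)))

theorem Th_eq (hp : 2 < p) (hκ : 1 < κ) {t : ℝ} (ht0 : 0 ≤ t) (ht : t < Real.pi / 2) :
    Th p κ t = t - cc p κ * Real.arctan
      (Real.sqrt (κ * (p - 1) / (κ * (p - 1) - (p - 2))) * Real.tan t) := by
  set a := κ * (p - 1) with ha
  set d := a - (p - 2) with hd
  have hd0 : 0 < d := by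
    rw [hd, ha]; nlinarith
  have ha0 : 0 < a := by rw [ha]; nlinarith
  set m := Real.sqrt (a / d) with hm
  have hm0 : 0 < m := Real.sqrt_pos.2 (div_pos ha0 hd0)
  have hm2 : m ^ 2 = a / d := Real.sq_sqrt (div_pos ha0 hd0).le
  have hcc : cc p κ = (κ - 1) * (p - 1) / (d * m) := by
    unfold cc
    congr 1
    rw [← ha, ← hd]
    have : a * d = (d * m) ^ 2 := by
      rw [mul_pow, hm2]; field_simp
    rw [this, Real.sqrt_sq (by positivity)]
  have hder : ∀ s ∈ Icc (0:ℝ) t, HasDerivAt (fun s => Th p κ s - (s - cc p κ * Real.arctan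
      (m * Real.tan s))) 0 s := by
    intro s hs
    have hcos : 0 < Real.cos s := Real.cos_pos_of_mem_Ioo
      ⟨by linarith [hs.1, Real.pi_pos], by linarith [hs.2]⟩
    have h1 : HasDerivAt (fun s => m * Real.tan s) (m * (1 / Real.cos s ^ 2)) s :=
      (Real.hasDerivAt_tan hcos.ne').const_mul m
    have h2 := (h1.arctan.const_mul (cc p κ))
    have h3 := (hasDerivAt_Th hp hκ s).sub ((hasDerivAt_id s).sub h2)
    refine h3.congr_deriv ?_
    rw [Real.tan_eq_sin_div_cos, hcc]
    have hs2 : Real.sin s ^ 2 = 1 - Real.cos s ^ 2 := by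
      have := Real.sin_sq_add_cos_sq s; linarith
    have e1 : (1 + (m * (Real.sin s / Real.cos s)) ^ 2) = den p κ s / (d * Real.cos s ^ 2) := by
      rw [mul_pow, div_pow, hm2, hs2]
      unfold den
      rw [← ha]
      field_simp
      rw [hd]
      ring
    rw [e1]
    have hden := den_pos hp hκ s
    have e2 : num p s = den p κ s - (κ - 1) * (p - 1) := by
      unfold num den; ring
    rw [e2]
    field_simp
    ring
  have hconst : ∀ s ∈ Icc (0:ℝ) t, (fun s => Th p κ s - (s - cc p κ * Real.arctan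
      (m * Real.tan s))) s = (fun s => Th p κ s - (s - cc p κ * Real.arctan
      (m * Real.tan s))) 0 := by
    apply constant_of_has_deriv_right_zero
    · intro s hs
      exact (hder s hs).continuousAt.continuousWithinAt
    · intro s hs
      exact (hder s (Ico_subset_Icc_self hs)).hasDerivWithinAt
  have := hconst t ⟨ht0, le_rfl⟩
  simp only [Th_zero, Real.tan_zero, mul_zero, Real.arctan_zero, sub_self, sub_zero] at this
  linarith

theorem cc_nonneg (hp : 2 < p) (hκ : 1 < κ) : 0 ≤ cc p κ := by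
  unfold cc
  apply div_nonneg
  · nlinarith
  · exact Real.sqrt_nonneg _

/-- The opening of the sector. -/
theorem half_ge (hp : 2 < p) (hκ : 1 < κ) : Real.pi / 2 * (1 - cc p κ) ≤ half p κ := by
  have h1 : ∀ t ∈ Ico (0:ℝ) (Real.pi / 2), t - cc p κ * (Real.pi / 2) ≤ half p κ := by
    intro t ht
    have h2 := Th_eq hp hκ ht.1 ht.2
    have h3 := (strictMono_Th hp hκ).monotone ht.2.le
    have h4 := (Real.arctan_lt_pi_div_two
      (Real.sqrt (κ * (p - 1) / (κ * (p - 1) - (p - 2))) * Real.tan t)).le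
    have h5 := mul_le_mul_of_nonneg_left h4 (cc_nonneg hp hκ)
    unfold half
    linarith
  by_contra hcon
  push Not at hcon
  set s := Real.pi / 2 * (1 - cc p κ) - half p κ with hs
  have hs0 : 0 < s := by linarith
  have hpi := Real.pi_pos
  have h2 := h1 (max 0 (Real.pi / 2 - s / 2)) ⟨le_max_left _ _, by
    apply max_lt <;> linarith⟩
  have h3 : Real.pi / 2 - s / 2 ≤ max 0 (Real.pi / 2 - s / 2) := le_max_right _ _
  linarith

/-- The critical exponent gives the critical opening. -/
theorem cc_crit (hp : 2 < p) : cc p ((p - 1) / (p - 2)) = 1 / Real.sqrt (2 * p - 3) := by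
  unfold cc
  have h2 : 0 < p - 2 := by linarith
  have h3 : 0 < 2 * p - 3 := by linarith
  have e1 : ((p - 1) / (p - 2) - 1) * (p - 1) = (p - 1) / (p - 2) := by field_simp; ring
  have e2 : (p - 1) / (p - 2) * (p - 1) * ((p - 1) / (p - 2) * (p - 1) - (p - 2)) =
      ((p - 1) / (p - 2)) ^ 2 * (2 * p - 3) := by field_simp; ring
  have h1 : 0 < p - 1 := by linarith
  have h5 : 0 < (p - 1) / (p - 2) := by positivity
  rw [e1, e2, Real.sqrt_mul (by positivity), Real.sqrt_sq h5.le]
  have h4 : 0 < Real.sqrt (2 * p - 3) := Real.sqrt_pos.2 h3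
  field_simp

theorem continuousAt_cc (hp : 2 < p) (hκ : 1 < κ) : ContinuousAt (cc p) κ := by
  unfold cc
  have h1 : 0 < κ * (p - 1) * (κ * (p - 1) - (p - 2)) := by
    have : 0 < κ * (p - 1) := by nlinarith
    have : 0 < κ * (p - 1) - (p - 2) := by nlinarith
    positivity
  apply ContinuousAt.div
  · fun_prop
  · exact (by fun_prop : ContinuousAt (fun κ => κ * (p - 1) * (κ * (p - 1) - (p - 2))) κ).sqrt
  · exact (Real.sqrt_pos.2 h1).ne'

/-- Choice of the exponent. -/
theorem exists_exponent (hp : 2 < p) {α : ℝ} (hα : α < Real.pi * (1 - 1 / Real.sqrt (2 * p - 3))) :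
    ∃ κ γ : ℝ, (p - 1) / (p - 2) < κ ∧ 1 < κ ∧ α / 2 < half p κ ∧ 0 < γ ∧ γ < 1 ∧
      (p - 1) / (p - 2) < γ * κ := by
  set k := (p - 1) / (p - 2) with hk
  have h2 : 0 < p - 2 := by linarith
  have hk1 : 1 < k := by rw [hk, lt_div_iff₀ h2]; linarith
  have hc := continuousAt_cc hp hk1
  have h1 : α / 2 < Real.pi / 2 * (1 - cc p k) := by
    rw [hk, cc_crit hp]; linarith
  have hc2 : ContinuousAt (fun κ => Real.pi / 2 * (1 - cc p κ)) k :=
    continuousAt_const.mul (continuousAt_const.sub hc)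
  have h3 : ∀ᶠ κ in 𝓝[>] k, α / 2 < Real.pi / 2 * (1 - cc p κ) :=
    (hc2.eventually (lt_mem_nhds h1)).filter_mono nhdsWithin_le_nhds
  obtain ⟨κ, h4, h5⟩ := (h3.and self_mem_nhdsWithin).exists
  have h5' : k < κ := h5
  have hκ1 : 1 < κ := hk1.trans h5'
  refine ⟨κ, (k + κ) / (2 * κ), h5', hκ1, h4.trans_le (half_ge hp hκ1), by positivity, ?_, ?_⟩
  · rw [div_lt_one (by positivity)]; linarith
  · have : (k + κ) / (2 * κ) * κ = (k + κ) / 2 := by field_simp
    rw [this]; linarith

/-- The size of the gradient. -/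
noncomputable def gg (p κ t : ℝ) : ℝ := den p κ t ^ ((κ - 1) / 2)

/-- The angular part of the `p`-harmonic function. -/
noncomputable def FF (p κ θ : ℝ) : ℝ := gg p κ (Xf p κ θ) * Real.cos (Xf p κ θ) / κ

noncomputable def FF1 (p κ θ : ℝ) : ℝ := -(gg p κ (Xf p κ θ) * Real.sin (Xf p κ θ))

noncomputable def FF2 (p κ θ : ℝ) : ℝ :=
  -(gg p κ (Xf p κ θ) * Real.cos (Xf p κ θ) *
    ((κ - 1) * (p - 2) * Real.sin (Xf p κ θ) ^ 2 + den p κ (Xf p κ θ)) / num p (Xf p κ θ))

theorem gg_pos (hp : 2 < p) (hκ : 1 < κ) (t : ℝ) : 0 < gg p κ t :=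
  Real.rpow_pos_of_pos (den_pos hp hκ t) _

theorem hasDerivAt_gg (hp : 2 < p) (hκ : 1 < κ) (t : ℝ) :
    HasDerivAt (gg p κ)
      (gg p κ t * ((κ - 1) * (p - 2) * Real.sin t * Real.cos t) / den p κ t) t := by
  have h0 := den_pos hp hκ t
  have h1 : HasDerivAt (den p κ) (2 * (p - 2) * Real.sin t * Real.cos t) t := by
    unfold den
    have := (((Real.hasDerivAt_cos t).pow 2).const_mul (p - 2)).const_sub (κ * (p - 1))
    refine this.congr_deriv ?_
    norm_num
    ring
  have h2 := h1.rpow_const (p := (κ - 1) / 2) (Or.inl h0.ne')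
  refine h2.congr_deriv ?_
  unfold gg
  rw [Real.rpow_sub_one h0.ne']
  field_simp

theorem hasDerivAt_FF (hp : 2 < p) (hκ : 1 < κ) (θ : ℝ) :
    HasDerivAt (FF p κ) (FF1 p κ θ) θ := by
  have hX := hasDerivAt_Xf hp hκ θ
  set t := Xf p κ θ with ht
  have h1 : HasDerivAt (fun s => gg p κ s * Real.cos s / κ) ((gg p κ t * ((κ - 1) * (p - 2) *
      Real.sin t * Real.cos t) / den p κ t * Real.cos t + gg p κ t * (-Real.sin t)) / κ) t :=
    ((hasDerivAt_gg hp hκ t).mul (Real.hasDerivAt_cos t)).div_const κ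
  have h2 := h1.comp θ hX
  have h3 : HasDerivAt (FF p κ) _ θ := h2
  refine h3.congr_deriv ?_
  unfold FF1
  rw [← ht]
  have h0 := den_pos hp hκ t
  have h4 : 0 < num p t := by linarith [num_ge hp t]
  have h5 : 0 < κ := by linarith
  have e1 : den p κ t = num p t + (κ - 1) * (p - 1) := by unfold num den; ring
  have e2 : (p - 2) * Real.cos t ^ 2 = p - 1 - num p t := by unfold num; ring
  field_simp
  have : Real.sin t * ((κ - 1) * ((p - 2) * Real.cos t ^ 2) - den p κ t) =
      - (κ * Real.sin t * num p t) := by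
    rw [e1, e2]; ring
  linear_combination gg p κ t * this

theorem hasDerivAt_FF1 (hp : 2 < p) (hκ : 1 < κ) (θ : ℝ) :
    HasDerivAt (FF1 p κ) (FF2 p κ θ) θ := by
  have hX := hasDerivAt_Xf hp hκ θ
  set t := Xf p κ θ with ht
  have h1 : HasDerivAt (fun s => -(gg p κ s * Real.sin s)) (-(gg p κ t * ((κ - 1) * (p - 2) *
      Real.sin t * Real.cos t) / den p κ t * Real.sin t + gg p κ t * Real.cos t)) t :=
    ((hasDerivAt_gg hp hκ t).mul (Real.hasDerivAt_sin t)).neg
  have h2 := h1.comp θ hX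
  have h3 : HasDerivAt (FF1 p κ) _ θ := h2
  refine h3.congr_deriv ?_
  unfold FF2
  rw [← ht]
  have h0 := den_pos hp hκ t
  have h4 : 0 < num p t := by linarith [num_ge hp t]
  field_simp

theorem num_eq (t : ℝ) : num p t = 1 + (p - 2) * Real.sin t ^ 2 := by
  unfold num
  have := Real.sin_sq_add_cos_sq t
  have h : Real.cos t ^ 2 = 1 - Real.sin t ^ 2 := by linarith
  rw [h]; ring

/-- The angular second derivative in the form used below. -/
theorem FF2_eq (hp : 2 < p) (hκ : 1 < κ) (θ : ℝ) :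
    FF2 p κ θ + κ * FF p κ θ = -((κ - 1) * gg p κ (Xf p κ θ) * (Real.cos (Xf p κ θ) *
      (p - 1 + (p - 2) * Real.sin (Xf p κ θ) ^ 2) / num p (Xf p κ θ))) := by
  unfold FF2 FF
  set t := Xf p κ θ with ht
  have h4 : 0 < num p t := by linarith [num_ge hp t]
  have h5 : 0 < κ := by linarith
  have e1 : den p κ t = num p t + (κ - 1) * (p - 1) := by unfold num den; ring
  rw [e1]
  field_simp
  ring

end Run7.h845
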