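import Pool.Agent.Run7.h845.Visc

/-!
# Second order jets
-/

set_option autoImplicit false

open MeasureTheory Set Filter Topology Asymptotics
open scoped ENNReal NNReal ContDiff

namespace Run7.h845

open Pool.Agent.R525.MS

variable {n : ℕ}

/-- Second order expansion in one variable. -/
def Jet1 (G : ℝ → ℝ) (t₀ G1 G2 : ℝ) : Prop :=
  (fun t => G (t₀ + t) - G t₀ - G1 * t - G2 * t ^ 2 / 2) =o[𝓝 0] fun t => t ^ 2

/-- Second order expansion in `n` variables, with linear part `l` and quadratic part `q`. -/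
def Jet (f : E n → ℝ) (x₀ : E n) (l q : E n → ℝ) : Prop :=
  (∃ g : E n, ∀ v, l v = inner ℝ g v) ∧ (∃ C : ℝ, ∀ v, |q v| ≤ C * ‖v‖ ^ 2) ∧
    (fun v => f (x₀ + v) - f x₀ - l v - q v / 2) =o[𝓝 0] fun v => ‖v‖ ^ 2

theorem jet1_of_deriv {G G' : ℝ → ℝ} {t₀ G2 : ℝ} (h1 : ∀ᶠ t in 𝓝 t₀, HasDerivAt G (G' t) t)
    (h2 : HasDerivAt G' G2 t₀) : Jet1 G t₀ (G' t₀) G2 := by
  unfold Jet1
  rw [isLittleO_iff]
  intro c hc
  have h3 : (fun t => G' (t₀ + t) - G' t₀ - t * G2) =o[𝓝 0] fun t => t := by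
    have := hasDerivAt_iff_isLittleO_nhds_zero.1 h2
    simpa using this
  have h4 := isLittleO_iff.1 h3 hc
  have h1' : ∀ᶠ t in 𝓝 (0:ℝ), HasDerivAt G (G' (t₀ + t)) (t₀ + t) := by
    have : Tendsto (fun t : ℝ => t₀ + t) (𝓝 0) (𝓝 t₀) := by
      have h := (continuous_const_add t₀).tendsto (0:ℝ)
      rwa [add_zero] at h
    exact this.eventually h1
  obtain ⟨δ, hδ, hball⟩ := Metric.eventually_nhds_iff_ball.1 (h4.and h1')
  rw [Metric.eventually_nhds_iff_ball]
  refine ⟨δ, hδ, fun t ht => ?_⟩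
  -- mean value inequality on the segment
  set K : ℝ → ℝ := fun s => G (t₀ + s) - G' t₀ * s - G2 * s ^ 2 / 2 with hK
  have hKd : ∀ s ∈ Metric.ball (0:ℝ) δ, HasDerivAt K (G' (t₀ + s) - G' t₀ - s * G2) s := by
    intro s hs
    have h5 := (hball s hs).2
    have h6 : HasDerivAt (fun s => G (t₀ + s)) (G' (t₀ + s)) s := by
      have := h5.comp_const_add t₀ s
      exact this
    have h7 : HasDerivAt (fun s : ℝ => G' t₀ * s) (G' t₀) s := by
      simpa using (hasDerivAt_id s).const_mul (G' t₀)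
    have h8 : HasDerivAt (fun s : ℝ => G2 * s ^ 2 / 2) (s * G2) s := by
      have := ((hasDerivAt_pow 2 s).const_mul G2).div_const 2
      refine this.congr_deriv ?_
      norm_num
      ring
    exact (h6.sub h7).sub h8
  have hconv : Convex ℝ (Metric.closedBall (0:ℝ) |t|) := convex_closedBall _ _
  have hsub : ∀ s ∈ Metric.closedBall (0:ℝ) |t|, s ∈ Metric.ball (0:ℝ) δ := by
    intro s hs
    rw [Metric.mem_closedBall, dist_zero_right] at hs
    rw [Metric.mem_ball, dist_zero_right] at ht ⊢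
    rw [Real.norm_eq_abs] at hs ht ⊢
    exact hs.trans_lt ht
  have hbound : ∀ s ∈ Metric.closedBall (0:ℝ) |t|, ‖G' (t₀ + s) - G' t₀ - s * G2‖ ≤ c * |t| := by
    intro s hs
    have h5 := (hball s (hsub s hs)).1
    refine h5.trans ?_
    rw [Metric.mem_closedBall, dist_zero_right] at hs
    exact mul_le_mul_of_nonneg_left hs hc.le
  have h9 := hconv.norm_image_sub_le_of_norm_hasDerivWithin_le (f := K)
    (f' := fun s => G' (t₀ + s) - G' t₀ - s * G2) (C := c * |t|) (x := 0) (y := t)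
    (fun s hs => (hKd s (hsub s hs)).hasDerivWithinAt) hbound
    (by simp) (by simp)
  have h10 : K t - K 0 = G (t₀ + t) - G t₀ - G' t₀ * t - G2 * t ^ 2 / 2 := by
    simp only [hK]; simp; ring
  rw [h10] at h9
  refine h9.trans (le_of_eq ?_)
  simp [mul_assoc, ← sq]

theorem Jet.lin {f : E n → ℝ} {x₀ : E n} {l q : E n → ℝ} (h : Jet f x₀ l q) :
    ∃ C : ℝ, 0 ≤ C ∧ ∀ v, |l v| ≤ C * ‖v‖ := by
  obtain ⟨⟨g, hg⟩, -, -⟩ := h
  exact ⟨‖g‖, norm_nonneg _, fun v => by rw [hg]; exact abs_real_inner_le_norm g v⟩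

/-- The increment is of first order. -/
theorem Jet.incr {f : E n → ℝ} {x₀ : E n} {l q : E n → ℝ} (h : Jet f x₀ l q) :
    (fun v => f (x₀ + v) - f x₀) =O[𝓝 0] fun v => ‖v‖ := by
  obtain ⟨C, hC0, hC⟩ := h.lin
  obtain ⟨-, ⟨D, hD⟩, h3⟩ := h
  have h0 : (fun v : E n => ‖v‖ ^ 2) =O[𝓝 0] fun v => ‖v‖ := by
    rw [isBigO_iff]
    refine ⟨1, ?_⟩
    filter_upwards [Metric.ball_mem_nhds (0 : E n) one_pos] with v hv
    rw [Metric.mem_ball, dist_zero_right] at hv
    simp only [norm_pow, norm_norm, one_mul]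
    nlinarith [norm_nonneg v]
  have h1 : l =O[𝓝 0] fun v => ‖v‖ :=
    IsBigO.of_bound C (Eventually.of_forall fun v => by simpa using hC v)
  have h2 : (fun v => q v / 2) =O[𝓝 0] fun v => ‖v‖ ^ 2 :=
    IsBigO.of_bound D (Eventually.of_forall fun v => by
      have := hD v
      rw [Real.norm_eq_abs, abs_div, norm_pow, norm_norm]
      have h4 := abs_nonneg (q v)
      norm_num
      linarith)
  have := (((h3.isBigO.add h2).trans h0).add h1)
  refine this.congr_left fun v => by ring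

theorem Jet.tendsto {f : E n → ℝ} {x₀ : E n} {l q : E n → ℝ} (h : Jet f x₀ l q) :
    Tendsto (fun v => f (x₀ + v) - f x₀) (𝓝 0) (𝓝 0) := by
  refine h.incr.trans_tendsto ?_
  have := (continuous_norm (E := E n)).tendsto 0
  rwa [norm_zero] at this

/-- Composition with a function of one variable. -/
theorem Jet.comp {f : E n → ℝ} {x₀ : E n} {l q : E n → ℝ} (h : Jet f x₀ l q) {G : ℝ → ℝ}
    {G1 G2 : ℝ} (hG : Jet1 G (f x₀) G1 G2) :
    Jet (fun x => G (f x)) x₀ (fun v => G1 * l v) (fun v => G1 * q v + G2 * (l v) ^ 2) := by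
  obtain ⟨C, hC0, hC⟩ := h.lin
  have hinc := h.incr
  have htend := h.tendsto
  obtain ⟨⟨g, hg⟩, ⟨D, hD⟩, h3⟩ := h
  refine ⟨⟨G1 • g, fun v => by simp only [hg, real_inner_smul_left]⟩,
    ⟨|G1| * D + |G2| * C ^ 2, fun v => ?_⟩, ?_⟩
  · have h1 := hD v
    have h2 := hC v
    calc |G1 * q v + G2 * l v ^ 2| ≤ |G1 * q v| + |G2 * l v ^ 2| := abs_add_le _ _
      _ = |G1| * |q v| + |G2| * |l v| ^ 2 := by rw [abs_mul, abs_mul, abs_pow]
      _ ≤ |G1| * (D * ‖v‖ ^ 2) + |G2| * (C * ‖v‖) ^ 2 := by gcongr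
      _ = _ := by ring
  · set T : E n → ℝ := fun v => f (x₀ + v) - f x₀ with hT
    -- expansion of G
    have h4 : (fun v => G (f x₀ + T v) - G (f x₀) - G1 * T v - G2 * T v ^ 2 / 2) =o[𝓝 0]
        fun v => T v ^ 2 := by
      have := hG.comp_tendsto htend
      exact this
    have h5 : (fun v => T v ^ 2) =O[𝓝 0] fun v => ‖v‖ ^ 2 := hinc.pow 2
    have h6 := h4.trans_isBigO h5
    have h7 : (fun v => G1 * (T v - l v - q v / 2)) =o[𝓝 0] fun v => ‖v‖ ^ 2 :=
      h3.const_mul_left G1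
    -- T² - l²
    have h8 : (fun v => T v - l v) =o[𝓝 0] fun v => ‖v‖ := by
      have a1 : (fun v => T v - l v - q v / 2) =o[𝓝 0] fun v => ‖v‖ := by
        refine h3.trans_isBigO ?_
        rw [isBigO_iff]
        refine ⟨1, ?_⟩
        filter_upwards [Metric.ball_mem_nhds (0 : E n) one_pos] with v hv
        rw [Metric.mem_ball, dist_zero_right] at hv
        simp only [norm_pow, norm_norm, one_mul]
        nlinarith [norm_nonneg v]
      have a2 : (fun v => q v / 2) =o[𝓝 0] fun v => ‖v‖ := by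
        have b1 : (fun v => q v / 2) =O[𝓝 0] fun v => ‖v‖ ^ 2 :=
          IsBigO.of_bound D (Eventually.of_forall fun v => by
            have := hD v
            rw [Real.norm_eq_abs, abs_div, norm_pow, norm_norm]
            have h4 := abs_nonneg (q v)
            norm_num
            linarith)
        refine b1.trans_isLittleO ?_
        have b2 : (fun v : E n => ‖v‖ ^ 2) = fun v => ‖v‖ * ‖v‖ := by ext v; ring
        rw [b2]
        have b3 : (fun v : E n => ‖v‖) =o[𝓝 0] fun _ => (1:ℝ) := by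
          rw [isLittleO_one_iff]
          have := (continuous_norm (E := E n)).tendsto 0
          rwa [norm_zero] at this
        have := b3.mul_isBigO (isBigO_refl (fun v : E n => ‖v‖) (𝓝 0))
        simpa using this
      refine (a1.add a2).congr_left fun v => by ring
    have h9 : (fun v => T v + l v) =O[𝓝 0] fun v => ‖v‖ :=
      hinc.add (IsBigO.of_bound C (Eventually.of_forall fun v => by simpa using hC v))
    have h10 : (fun v => (T v - l v) * (T v + l v)) =o[𝓝 0] fun v => ‖v‖ ^ 2 := by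
      have := h8.mul_isBigO h9
      refine this.congr_right fun v => by ring
    have h11 := (h6.add h7).add (h10.const_mul_left (G2 / 2))
    refine h11.congr_left fun v => ?_
    have : f x₀ + T v = f (x₀ + v) := by simp [hT]
    rw [this]
    ring

theorem Jet.add {f f' : E n → ℝ} {x₀ : E n} {l q l' q' : E n → ℝ} (h : Jet f x₀ l q)
    (h' : Jet f' x₀ l' q') :
    Jet (fun x => f x + f' x) x₀ (fun v => l v + l' v) (fun v => q v + q' v) := by
  obtain ⟨⟨g, hg⟩, ⟨D, hD⟩, h3⟩ := h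
  obtain ⟨⟨g', hg'⟩, ⟨D', hD'⟩, h3'⟩ := h'
  refine ⟨⟨g + g', fun v => by simp only [hg, hg', inner_add_left]⟩, ⟨D + D', fun v => ?_⟩, ?_⟩
  · calc |q v + q' v| ≤ |q v| + |q' v| := abs_add_le _ _
      _ ≤ D * ‖v‖ ^ 2 + D' * ‖v‖ ^ 2 := add_le_add (hD v) (hD' v)
      _ = _ := by ring
  · refine (h3.add h3').congr_left fun v => by ring

theorem Jet.const_mul {f : E n → ℝ} {x₀ : E n} {l q : E n → ℝ} (h : Jet f x₀ l q) (c : ℝ) :
    Jet (fun x => c * f x) x₀ (fun v => c * l v) (fun v => c * q v) := by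
  obtain ⟨⟨g, hg⟩, ⟨D, hD⟩, h3⟩ := h
  refine ⟨⟨c • g, fun v => by simp only [hg, real_inner_smul_left]⟩, ⟨|c| * D, fun v => ?_⟩, ?_⟩
  · rw [abs_mul, mul_assoc]
    exact mul_le_mul_of_nonneg_left (hD v) (abs_nonneg c)
  · refine (h3.const_mul_left c).congr_left fun v => by ring

theorem Jet.congr {f : E n → ℝ} {x₀ : E n} {l q l' q' : E n → ℝ} (h : Jet f x₀ l q)
    (hl : ∀ v, l v = l' v) (hq : ∀ v, q v = q' v) : Jet f x₀ l' q' := by
  have e1 : l = l' := funext hl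
  have e2 : q = q' := funext hq
  rwa [e1, e2] at h

theorem Jet.congr_fun {f f' : E n → ℝ} {x₀ : E n} {l q : E n → ℝ} (h : Jet f x₀ l q)
    (hf : f =ᶠ[𝓝 x₀] f') : Jet f' x₀ l q := by
  obtain ⟨h1, h2, h3⟩ := h
  refine ⟨h1, h2, h3.congr' ?_ EventuallyEq.rfl⟩
  have h0 : Tendsto (fun v : E n => x₀ + v) (𝓝 0) (𝓝 x₀) := by
    have h := (continuous_const_add x₀).tendsto (0 : E n)
    rwa [add_zero] at h
  filter_upwards [h0.eventually hf] with v hv
  rw [hv, hf.eq_of_nhds]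

theorem jet_const (c : ℝ) (x₀ : E n) : Jet (fun _ => c) x₀ (fun _ => 0) (fun _ => 0) := by
  refine ⟨⟨0, fun v => by simp⟩, ⟨0, fun v => by simp⟩, ?_⟩
  simp only [sub_self, zero_div]
  exact isLittleO_zero _ _

theorem jet_inner (a x₀ : E n) : Jet (fun x => inner ℝ a x) x₀ (fun v => inner ℝ a v)
    (fun _ => 0) := by
  refine ⟨⟨a, fun v => rfl⟩, ⟨0, fun v => by simp⟩, ?_⟩
  have : (fun v => inner ℝ a (x₀ + v) - inner ℝ a x₀ - inner ℝ a v - (0:ℝ) / 2) =
      fun _ => (0:ℝ) := by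
    ext v; rw [inner_add_right]; ring
  rw [this]
  exact isLittleO_zero _ _

theorem jet_norm_sq (x₀ : E n) : Jet (fun x => ‖x‖ ^ 2) x₀ (fun v => 2 * inner ℝ x₀ v)
    (fun v => 2 * ‖v‖ ^ 2) := by
  refine ⟨⟨(2:ℝ) • x₀, fun v => by simp only [real_inner_smul_left]⟩, ⟨2, fun v => ?_⟩, ?_⟩
  · rw [abs_of_nonneg (by positivity)]
  · have : (fun v => ‖x₀ + v‖ ^ 2 - ‖x₀‖ ^ 2 - 2 * inner ℝ x₀ v - 2 * ‖v‖ ^ 2 / 2) =
        fun _ => (0:ℝ) := by
      ext v
      rw [norm_add_sq_real]; ring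
    rw [this]
    exact isLittleO_zero _ _

theorem Jet.sub_const {f : E n → ℝ} {x₀ a : E n} {l q : E n → ℝ} (h : Jet f (x₀ - a) l q) :
    Jet (fun x => f (x - a)) x₀ l q := by
  obtain ⟨h1, h2, h3⟩ := h
  refine ⟨h1, h2, ?_⟩
  refine h3.congr_left fun v => ?_
  have : x₀ + v - a = x₀ - a + v := by abel
  simp only [this]

theorem jet1_sq (t₀ : ℝ) : Jet1 (fun t => t ^ 2) t₀ (2 * t₀) 2 := by
  unfold Jet1
  have : (fun t : ℝ => (t₀ + t) ^ 2 - t₀ ^ 2 - 2 * t₀ * t - 2 * t ^ 2 / 2) = fun _ => (0:ℝ) := by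
    ext t; ring
  rw [this]
  exact isLittleO_zero _ _

/-- Products. -/
theorem Jet.mul {f f' : E n → ℝ} {x₀ : E n} {l q l' q' : E n → ℝ} (h : Jet f x₀ l q)
    (h' : Jet f' x₀ l' q') :
    Jet (fun x => f x * f' x) x₀ (fun v => f' x₀ * l v + f x₀ * l' v)
      (fun v => f' x₀ * q v + f x₀ * q' v + 2 * (l v * l' v)) := by
  have h1 := (h.add h').comp (jet1_sq (f x₀ + f' x₀))
  have h2 := (h.add (h'.const_mul (-1))).comp (jet1_sq (f x₀ + -1 * f' x₀))
  have h3 := (h1.const_mul (1/4)).add (h2.const_mul (-1/4))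
  refine (h3.congr_fun ?_).congr ?_ ?_
  · exact Eventually.of_forall fun x => by simp only; ring
  · intro v; ring
  · intro v; ring

/-- A jet of a function touching from above is a superjet. -/
theorem Jet.superJet {f u : E n → ℝ} {x₀ g : E n} {B : E n →L[ℝ] E n} {l q : E n → ℝ}
    (h : Jet f x₀ l q) (hl : ∀ v, l v = inner ℝ g v) (hq : ∀ v, q v = inner ℝ (B v) v)
    (hle : ∀ᶠ x in 𝓝 x₀, u x ≤ f x) (heq : u x₀ = f x₀) : SuperJet u x₀ g B := by
  intro ε hε
  obtain ⟨-, -, h3⟩ := h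
  have h4 := isLittleO_iff.1 h3 hε
  have h0 : Tendsto (fun x : E n => x - x₀) (𝓝 x₀) (𝓝 0) := by
    have h := (continuous_sub_right x₀).tendsto x₀
    rwa [sub_self] at h
  filter_upwards [h0.eventually h4, hle] with x hx hx2
  rw [add_sub_cancel] at hx
  rw [Real.norm_eq_abs, norm_pow, norm_norm] at hx
  have h5 := (abs_le.1 hx).2
  rw [hl, hq] at h5
  rw [heq]
  linarith

end Run7.h845
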