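import Pool.Agent.R525.MS.Comp
import Pool.Agent.Run7.h845.Defs

/-!
# Localised truncations of Sobolev functions
-/

set_option autoImplicit false

open MeasureTheory Set Filter Topology
open scoped ENNReal NNReal ContDiff

namespace Run7.h845

open Pool.Agent.R525.MS

variable {N : ℕ}

/-- A smooth nondecreasing function with derivative at most two, zero on the negative axis. -/
structure SmoothCut (Φ dΦ : ℝ → ℝ) : Prop where
  smooth : ContDiff ℝ ∞ Φ
  der : ∀ t, HasDerivAt Φ (dΦ t) t
  nonneg : ∀ t, 0 ≤ dΦ t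
  le : ∀ t, dΦ t ≤ 2
  zero : ∀ t, t ≤ 0 → Φ t = 0

theorem SmoothCut.cont_der {Φ dΦ : ℝ → ℝ} (h : SmoothCut Φ dΦ) : Continuous dΦ := by
  have h2 : Continuous (deriv Φ) := h.smooth.continuous_deriv (by simp)
  have h3 : deriv Φ = dΦ := funext fun x => (h.der x).deriv
  rwa [h3] at h2

theorem SmoothCut.dist {Φ dΦ : ℝ → ℝ} (h : SmoothCut Φ dΦ) (a b : ℝ) :
    ‖Φ a - Φ b‖ ≤ 2 * ‖a - b‖ := by
  have h1 : LipschitzWith 2 Φ := by
    apply lipschitzWith_of_nnnorm_deriv_le (fun x => (h.der x).differentiableAt)
    intro x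
    rw [(h.der x).deriv, ← NNReal.coe_le_coe, coe_nnnorm, Real.norm_eq_abs,
      abs_of_nonneg (h.nonneg x)]
    exact h.le x
  have := h1.norm_sub_le a b
  simpa using this

theorem SmoothCut.bound {Φ dΦ : ℝ → ℝ} (h : SmoothCut Φ dΦ) (a : ℝ) : ‖Φ a‖ ≤ 2 * ‖a‖ := by
  have := h.dist a 0
  rwa [h.zero 0 le_rfl, sub_zero, sub_zero] at this

theorem cut_eta : SmoothCut eta deta where
  smooth := expNegInvGlue.contDiff
  der := hasDerivAt_eta
  nonneg := deta_nonneg
  le := deta_le
  zero := fun _ ht => expNegInvGlue.zero_of_nonpos ht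

/-- The primitive of the cut-off function. -/
noncomputable def Heta (t : ℝ) : ℝ := ∫ s in (0:ℝ)..t, eta s

theorem continuous_eta : Continuous eta := expNegInvGlue.contDiff (n := 0) |>.continuous

theorem hasDerivAt_Heta (t : ℝ) : HasDerivAt Heta (eta t) t := by
  unfold Heta
  exact intervalIntegral.integral_hasDerivAt_right (continuous_eta.intervalIntegrable _ _)
    (continuous_eta.stronglyMeasurableAtFilter _ _) continuous_eta.continuousAt

theorem eta_le_two (t : ℝ) : eta t ≤ 2 := by
  rcases le_or_gt t 0 with h | h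
  · rw [show eta t = 0 from expNegInvGlue.zero_of_nonpos h]; norm_num
  · have h1 : eta t = Real.exp (-t⁻¹) := by simp [expNegInvGlue, not_le.2 h]
    rw [h1]
    have : Real.exp (-t⁻¹) ≤ 1 := by
      rw [Real.exp_le_one_iff]
      have : 0 < t⁻¹ := by positivity
      linarith
    linarith

theorem cut_Heta : SmoothCut Heta eta where
  smooth := by
    rw [contDiff_infty_iff_deriv]
    refine ⟨fun t => (hasDerivAt_Heta t).differentiableAt, ?_⟩
    have : deriv Heta = eta := funext fun t => (hasDerivAt_Heta t).deriv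
    rw [this]
    exact expNegInvGlue.contDiff
  der := hasDerivAt_Heta
  nonneg := fun t => expNegInvGlue.nonneg t
  le := eta_le_two
  zero := fun t ht => by
    unfold Heta
    rw [intervalIntegral.integral_symm, neg_eq_zero]
    apply intervalIntegral.integral_zero_ae
    refine Eventually.of_forall fun s hs => ?_
    rw [uIoc_of_le ht] at hs
    exact expNegInvGlue.zero_of_nonpos hs.2

theorem gradient_congr_smooth {f : E N → ℝ} {x : E N} {g : E N}
    (h : HasFDerivAt f (innerSL ℝ g) x) : gradient f x = g := by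
  unfold gradient
  rw [h.fderiv]
  exact (InnerProductSpace.toDual ℝ (E N)).symm_apply_apply g

theorem hasFDerivAt_gradient {f : E N → ℝ} {x : E N} (h : DifferentiableAt ℝ f x) :
    HasFDerivAt f (innerSL ℝ (gradient f x)) x := by
  refine h.hasGradientAt.hasFDerivAt.congr_fderiv ?_
  ext v
  simp

/-- The gradient of a localised truncation. -/
theorem gradient_cut {χ f q : E N → ℝ} {Φ dΦ : ℝ → ℝ} (hΦ : SmoothCut Φ dΦ) {x : E N}
    (hχ : DifferentiableAt ℝ χ x) (hf : DifferentiableAt ℝ f x) (hq : DifferentiableAt ℝ q x) :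
    gradient (fun y => χ y * Φ (f y - q y)) x =
      (χ x * dΦ (f x - q x)) • (gradient f x - gradient q x) +
        Φ (f x - q x) • gradient χ x := by
  apply gradient_congr_smooth
  have h1 : HasFDerivAt (fun y => f y - q y) (innerSL ℝ (gradient f x) - innerSL ℝ (gradient q x))
      x := (hasFDerivAt_gradient hf).sub (hasFDerivAt_gradient hq)
  have h2 : HasFDerivAt (fun y => Φ (f y - q y)) (dΦ (f x - q x) •
      (innerSL ℝ (gradient f x) - innerSL ℝ (gradient q x))) x :=
    (hΦ.der (f x - q x)).comp_hasFDerivAt x h1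
  have h3 := (hasFDerivAt_gradient hχ).mul h2
  refine h3.congr_fderiv ?_
  ext v
  rw [innerSL_apply_apply, inner_add_left, real_inner_smul_left, real_inner_smul_left,
    inner_sub_left]
  simp
  ring

variable {p : ℝ}

/-- Localised truncations belong to `W_0^{1,p}` of the ball. -/
theorem W0_cut (hp : 1 < p) {B : Set (E N)} {u : E N → ℝ} {G : E N → E N}
    (hu : MemLp u (ENNReal.ofReal p) (volume.restrict B))
    (hG : MemLp G (ENNReal.ofReal p) (volume.restrict B))
    {f : ℕ → E N → ℝ} (hf : ∀ k, ContDiff ℝ ∞ (f k))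
    (h1 : Tendsto (fun k => eLpNorm (fun y => f k y - u y) (ENNReal.ofReal p)
      (volume.restrict B)) atTop (𝓝 0))
    (h2 : Tendsto (fun k => eLpNorm (fun y => gradient (f k) y - G y) (ENNReal.ofReal p)
      (volume.restrict B)) atTop (𝓝 0))
    {q : E N → ℝ} (hq : ContDiff ℝ ∞ q) {χ : E N → ℝ} (hχ : IsTest B χ)
    {Φ dΦ : ℝ → ℝ} (hΦ : SmoothCut Φ dΦ) :
    W0 B p (fun x => χ x * Φ (u x - q x))
      (fun x => (χ x * dΦ (u x - q x)) • (G x - gradient q x) +
        Φ (u x - q x) • gradient χ x) := by
  have hp0 : 0 < p := by linarith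
  have hq0 : ENNReal.ofReal p ≠ 0 := by simp [hp0]
  have hq1 : 1 ≤ ENNReal.ofReal p := by rw [ENNReal.one_le_ofReal]; exact hp.le
  set μ := (volume.restrict B : Measure (E N)) with hμ
  -- bounds for the cut-off
  obtain ⟨C, hC⟩ := hχ.2.1.exists_bound_of_continuous hχ.continuous
  obtain ⟨C', hC'⟩ := hχ.support_gradient.exists_bound_of_continuous hχ.continuous_gradient
  have hCn : 0 ≤ C := (norm_nonneg _).trans (hC 0)
  have hCn' : 0 ≤ C' := (norm_nonneg _).trans (hC' 0)
  have hqc : Continuous q := hq.continuous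
  have hqd : Differentiable ℝ q := hq.differentiable (by simp)
  have hgq : Continuous (gradient q) := by
    unfold gradient
    exact (InnerProductSpace.toDual ℝ (E N)).symm.continuous.comp
      (hq.continuous_fderiv (by simp))
  have hΦc : Continuous Φ := hΦ.smooth.continuous
  have hdΦc : Continuous dΦ := hΦ.cont_der
  have humeas : AEStronglyMeasurable u μ := hu.1
  have hχm : AEStronglyMeasurable χ μ := hχ.continuous.aestronglyMeasurable
  have hqm : AEStronglyMeasurable q μ := hqc.aestronglyMeasurable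
  have hΦm : AEStronglyMeasurable (fun x => Φ (u x - q x)) μ :=
    hΦc.comp_aestronglyMeasurable (humeas.sub hqm)
  have hdΦm : AEStronglyMeasurable (fun x => dΦ (u x - q x)) μ :=
    hdΦc.comp_aestronglyMeasurable (humeas.sub hqm)
  have hχg : AEStronglyMeasurable (gradient χ) μ := hχ.continuous_gradient.aestronglyMeasurable
  -- basic integrability
  have mu : MemLp (fun x => C * ‖u x‖) (ENNReal.ofReal p) μ := hu.norm.const_mul C
  have mχu : MemLp (fun x => χ x * u x) (ENNReal.ofReal p) μ := by
    refine MemLp.of_le_mul (c := C) hu (hχm.mul humeas) (Eventually.of_forall fun x => ?_)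
    rw [norm_mul]
    exact mul_le_mul_of_nonneg_right (hC x) (norm_nonneg _)
  have mχq : MemLp (fun x => χ x * q x) (ENNReal.ofReal p) μ := by
    apply (hχ.continuous.mul hqc).memLp_of_hasCompactSupport
    exact hχ.2.1.mul_right
  have mχG : MemLp (fun x => χ x • G x) (ENNReal.ofReal p) μ := by
    refine MemLp.of_le_mul (c := C) hG (hχm.smul hG.1) (Eventually.of_forall fun x => ?_)
    rw [norm_smul]
    exact mul_le_mul_of_nonneg_right (hC x) (norm_nonneg _)
  have mχgq : MemLp (fun x => χ x • gradient q x) (ENNReal.ofReal p) μ := by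
    apply (hχ.continuous.smul hgq).memLp_of_hasCompactSupport
    exact hχ.2.1.smul_right
  have mD : MemLp (fun x => χ x • (G x - gradient q x)) (ENNReal.ofReal p) μ := by
    have := mχG.sub mχgq
    refine this.congr_norm (hχm.smul (hG.1.sub hgq.aestronglyMeasurable)) ?_
    refine Eventually.of_forall fun x => ?_
    simp [smul_sub]
  have mu' : MemLp (fun x => u x • gradient χ x) (ENNReal.ofReal p) μ := by
    refine MemLp.of_le_mul (c := C') hu (humeas.smul hχg) (Eventually.of_forall fun x => ?_)
    rw [norm_smul, mul_comm]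
    exact mul_le_mul_of_nonneg_right (hC' x) (norm_nonneg _)
  have mq' : MemLp (fun x => q x • gradient χ x) (ENNReal.ofReal p) μ := by
    apply (hqc.smul hχ.continuous_gradient).memLp_of_hasCompactSupport
    exact hχ.support_gradient.smul_left
  have m1 : MemLp (fun x => χ x * Φ (u x - q x)) (ENNReal.ofReal p) μ := by
    refine MemLp.of_le_mul (c := 2) (mχu.sub mχq) (hχm.mul hΦm) (Eventually.of_forall fun x => ?_)
    have h := hΦ.bound (u x - q x)
    calc ‖χ x * Φ (u x - q x)‖ = ‖χ x‖ * ‖Φ (u x - q x)‖ := norm_mul _ _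
      _ ≤ ‖χ x‖ * (2 * ‖u x - q x‖) := mul_le_mul_of_nonneg_left h (norm_nonneg _)
      _ = 2 * ‖χ x * (u x - q x)‖ := by rw [norm_mul]; ring
      _ = 2 * ‖(χ x * u x - χ x * q x : ℝ)‖ := by rw [mul_sub]
  have m2a : MemLp (fun x => (χ x * dΦ (u x - q x)) • (G x - gradient q x))
      (ENNReal.ofReal p) μ := by
    refine MemLp.of_le_mul (c := 2) mD
      ((hχm.mul hdΦm).smul (hG.1.sub hgq.aestronglyMeasurable))
      (Eventually.of_forall fun x => ?_)
    rw [norm_smul, norm_mul, norm_smul, Real.norm_of_nonneg (hΦ.nonneg _)]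
    have := hΦ.le (u x - q x)
    have h0 : 0 ≤ ‖χ x‖ * ‖G x - gradient q x‖ := by positivity
    nlinarith
  have m2b : MemLp (fun x => Φ (u x - q x) • gradient χ x) (ENNReal.ofReal p) μ := by
    refine MemLp.of_le_mul (c := 2) (mu'.sub mq') (hΦm.smul hχg)
      (Eventually.of_forall fun x => ?_)
    have h := hΦ.bound (u x - q x)
    calc ‖Φ (u x - q x) • gradient χ x‖ = ‖Φ (u x - q x)‖ * ‖gradient χ x‖ := norm_smul _ _
      _ ≤ (2 * ‖u x - q x‖) * ‖gradient χ x‖ := mul_le_mul_of_nonneg_right h (norm_nonneg _)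
      _ = 2 * ‖(u x - q x) • gradient χ x‖ := by rw [norm_smul]; ring
      _ = 2 * ‖u x • gradient χ x - q x • gradient χ x‖ := by rw [sub_smul]
  -- a subsequence converging almost everywhere
  have hTM : TendstoInMeasure μ f atTop u :=
    tendstoInMeasure_of_tendsto_eLpNorm hq0
      (fun n => (hf n).continuous.aestronglyMeasurable) hu.1 h1
  obtain ⟨ns, hns, hae⟩ := hTM.exists_seq_tendsto_ae
  have hfd : ∀ k, Differentiable ℝ (f k) := fun k => (hf k).differentiable (by simp)
  have htest : ∀ k, IsTest B (fun x => χ x * Φ (f k x - q x)) := by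
    intro k
    refine ⟨hχ.1.mul (hΦ.smooth.comp ((hf k).sub hq)), hχ.2.1.mul_right, ?_⟩
    refine subset_trans ?_ hχ.2.2
    apply closure_mono
    intro x hx hx0
    apply hx
    simp only [hx0, zero_mul]
  refine ⟨m1, m2a.add m2b, fun i x => χ x * Φ (f (ns i) x - q x), fun i => htest _, ?_, ?_⟩
  · have h3 : Tendsto (fun i => ENNReal.ofReal (2 * C) *
        eLpNorm (fun x => f (ns i) x - u x) (ENNReal.ofReal p) μ) atTop (𝓝 0) := by
      have := ENNReal.Tendsto.const_mul (a := ENNReal.ofReal (2 * C)) (h1.comp hns.tendsto_atTop)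
        (Or.inr ENNReal.ofReal_ne_top)
      rwa [mul_zero] at this
    refine tendsto_of_tendsto_of_tendsto_of_le_of_le tendsto_const_nhds h3
      (fun i => zero_le) (fun i => ?_)
    refine eLpNorm_le_mul_eLpNorm_of_ae_le_mul (Eventually.of_forall fun x => ?_) _
    have h := hΦ.dist (f (ns i) x - q x) (u x - q x)
    calc ‖χ x * Φ (f (ns i) x - q x) - χ x * Φ (u x - q x)‖
        = ‖χ x‖ * ‖Φ (f (ns i) x - q x) - Φ (u x - q x)‖ := by rw [← mul_sub, norm_mul]
      _ ≤ C * (2 * ‖f (ns i) x - q x - (u x - q x)‖) := by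
          apply mul_le_mul (hC x) h (norm_nonneg _) hCn
      _ = 2 * C * ‖f (ns i) x - u x‖ := by
          rw [sub_sub_sub_cancel_right]; ring
  · have h3 : Tendsto (fun i => ENNReal.ofReal (2 * C) *
        eLpNorm (fun x => gradient (f (ns i)) x - G x) (ENNReal.ofReal p) μ +
        eLpNorm (fun x => (dΦ (f (ns i) x - q x) - dΦ (u x - q x)) •
          (χ x • (G x - gradient q x))) (ENNReal.ofReal p) μ +
        ENNReal.ofReal (2 * C') *
        eLpNorm (fun x => f (ns i) x - u x) (ENNReal.ofReal p) μ)
        atTop (𝓝 0) := by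
      have h4 := ENNReal.Tendsto.const_mul (a := ENNReal.ofReal (2 * C))
        (h2.comp hns.tendsto_atTop) (Or.inr ENNReal.ofReal_ne_top)
      rw [mul_zero] at h4
      have h6 := ENNReal.Tendsto.const_mul (a := ENNReal.ofReal (2 * C'))
        (h1.comp hns.tendsto_atTop) (Or.inr ENNReal.ofReal_ne_top)
      rw [mul_zero] at h6
      have h5 : Tendsto (fun i => eLpNorm (fun x => (dΦ (f (ns i) x - q x) - dΦ (u x - q x)) •
          (χ x • (G x - gradient q x))) (ENNReal.ofReal p) μ) atTop (𝓝 0) := by
        apply tendsto_aux hp _ mD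
        · intro i x
          rw [norm_smul]
          apply mul_le_mul_of_nonneg_right _ (norm_nonneg _)
          rw [Real.norm_eq_abs, abs_le]
          constructor
          · linarith [hΦ.nonneg (f (ns i) x - q x), hΦ.le (u x - q x)]
          · linarith [hΦ.nonneg (u x - q x), hΦ.le (f (ns i) x - q x)]
        · filter_upwards [hae] with x hx
          have h6 : Tendsto (fun i => dΦ (f (ns i) x - q x) - dΦ (u x - q x)) atTop (𝓝 0) := by
            have := ((hdΦc.tendsto (u x - q x)).comp (hx.sub_const (q x))).sub_const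
              (dΦ (u x - q x))
            rwa [sub_self] at this
          have h7 := h6.smul_const (χ x • (G x - gradient q x))
          rwa [zero_smul] at h7
        · intro i
          exact ((hdΦc.comp_aestronglyMeasurable
            ((hf (ns i)).continuous.aestronglyMeasurable.sub hqm)).sub hdΦm).smul mD.1
      have := (h4.add h5).add h6
      rwa [add_zero, add_zero] at this
    refine tendsto_of_tendsto_of_tendsto_of_le_of_le tendsto_const_nhds h3
      (fun i => zero_le) (fun i => ?_)
    have hgrc : Continuous (gradient (f (ns i))) := by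
      unfold gradient
      exact (InnerProductSpace.toDual ℝ (E N)).symm.continuous.comp
        ((hf (ns i)).continuous_fderiv (by simp))
    have hgr : AEStronglyMeasurable (fun x => gradient (f (ns i)) x - G x) μ :=
      hgrc.aestronglyMeasurable.sub hG.1
    have hfm : AEStronglyMeasurable (f (ns i)) μ := (hf (ns i)).continuous.aestronglyMeasurable
    have hdφ : AEStronglyMeasurable (fun x => dΦ (f (ns i) x - q x)) μ :=
      hdΦc.comp_aestronglyMeasurable (hfm.sub hqm)
    have hφm : AEStronglyMeasurable (fun x => Φ (f (ns i) x - q x)) μ :=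
      hΦc.comp_aestronglyMeasurable (hfm.sub hqm)
    have e1 : (fun x => gradient (fun x => χ x * Φ (f (ns i) x - q x)) x -
        ((χ x * dΦ (u x - q x)) • (G x - gradient q x) + Φ (u x - q x) • gradient χ x)) =
        (fun x => (χ x * dΦ (f (ns i) x - q x)) • (gradient (f (ns i)) x - G x)) +
        (fun x => (dΦ (f (ns i) x - q x) - dΦ (u x - q x)) • (χ x • (G x - gradient q x))) +
        (fun x => (Φ (f (ns i) x - q x) - Φ (u x - q x)) • gradient χ x) := by
      ext1 x
      rw [gradient_cut hΦ (hχ.differentiable x) (hfd _ x) (hqd x), Pi.add_apply, Pi.add_apply]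
      module
    have a1 : AEStronglyMeasurable
        (fun x => (χ x * dΦ (f (ns i) x - q x)) • (gradient (f (ns i)) x - G x)) μ :=
      (hχm.mul hdφ).smul hgr
    have a2 : AEStronglyMeasurable
        (fun x => (dΦ (f (ns i) x - q x) - dΦ (u x - q x)) • (χ x • (G x - gradient q x))) μ :=
      (hdφ.sub hdΦm).smul mD.1
    have a3 : AEStronglyMeasurable
        (fun x => (Φ (f (ns i) x - q x) - Φ (u x - q x)) • gradient χ x) μ :=
      (hφm.sub hΦm).smul hχg
    have b1 : eLpNorm (fun x => (χ x * dΦ (f (ns i) x - q x)) • (gradient (f (ns i)) x - G x))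
        (ENNReal.ofReal p) μ ≤ ENNReal.ofReal (2 * C) *
        eLpNorm (fun x => gradient (f (ns i)) x - G x) (ENNReal.ofReal p) μ := by
      refine eLpNorm_le_mul_eLpNorm_of_ae_le_mul (Eventually.of_forall fun x => ?_) _
      rw [norm_smul, norm_mul, Real.norm_of_nonneg (hΦ.nonneg _)]
      apply mul_le_mul_of_nonneg_right _ (norm_nonneg _)
      have := hC x
      have := hΦ.le (f (ns i) x - q x)
      have := hΦ.nonneg (f (ns i) x - q x)
      have := norm_nonneg (χ x)
      nlinarith
    have b3 : eLpNorm (fun x => (Φ (f (ns i) x - q x) - Φ (u x - q x)) • gradient χ x)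
        (ENNReal.ofReal p) μ ≤ ENNReal.ofReal (2 * C') *
        eLpNorm (fun x => f (ns i) x - u x) (ENNReal.ofReal p) μ := by
      refine eLpNorm_le_mul_eLpNorm_of_ae_le_mul (Eventually.of_forall fun x => ?_) _
      rw [norm_smul]
      have h := hΦ.dist (f (ns i) x - q x) (u x - q x)
      rw [sub_sub_sub_cancel_right] at h
      calc ‖Φ (f (ns i) x - q x) - Φ (u x - q x)‖ * ‖gradient χ x‖
          ≤ (2 * ‖f (ns i) x - u x‖) * C' := mul_le_mul h (hC' x) (norm_nonneg _) (by positivity)
        _ = 2 * C' * ‖f (ns i) x - u x‖ := by ring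
    calc eLpNorm (fun x => gradient (fun x => χ x * Φ (f (ns i) x - q x)) x -
          ((χ x * dΦ (u x - q x)) • (G x - gradient q x) + Φ (u x - q x) • gradient χ x))
          (ENNReal.ofReal p) μ
        ≤ eLpNorm (fun x => (χ x * dΦ (f (ns i) x - q x)) • (gradient (f (ns i)) x - G x))
            (ENNReal.ofReal p) μ +
          eLpNorm (fun x => (dΦ (f (ns i) x - q x) - dΦ (u x - q x)) •
            (χ x • (G x - gradient q x))) (ENNReal.ofReal p) μ +
          eLpNorm (fun x => (Φ (f (ns i) x - q x) - Φ (u x - q x)) • gradient χ x)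
            (ENNReal.ofReal p) μ := by
          rw [e1]
          exact (eLpNorm_add_le (a1.add a2) a3 hq1).trans
            (add_le_add_left (eLpNorm_add_le a1 a2 hq1) _)
      _ ≤ _ := by gcongr

end Run7.h845
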