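import Pool.Agent.Run7.h845.Growth2
import Pool.Agent.Run7.h845.Down

/-!
# The contact angle of finite travelling waves
-/

set_option autoImplicit false

open MeasureTheory Set Filter Topology Asymptotics
open scoped ENNReal NNReal ContDiff

namespace Run7.h845

open Pool.Agent.R525.MS

variable {N : ℕ}

theorem inner_pt (z : E N) (s : ℝ) (X : E (N + 1)) :
    inner ℝ (pt z s) X = inner ℝ z (sec X) + s * ax X := by
  simp only [PiLp.inner_apply, pt, sec, ax, Fin.sum_univ_castSucc, Fin.snoc_castSucc,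
    Fin.snoc_last, RCLike.inner_apply, conj_trivial]
  congr 1
  ring

theorem continuous_sec : Continuous (sec : E (N + 1) → E N) := by
  unfold sec
  fun_prop

theorem sec_sub (X Y : E (N + 1)) : sec (X - Y) = sec X - sec Y := by
  ext i; simp [sec]

theorem sec_sub_smul (X : E (N + 1)) (t : ℝ) : sec (X - t • pt 0 1) = sec X := by
  ext i; simp [sec, pt]

theorem norm_sec_le (X : E (N + 1)) : ‖sec X‖ ≤ ‖X‖ := by
  rw [EuclideanSpace.norm_eq, EuclideanSpace.norm_eq, Fin.sum_univ_castSucc]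
  apply Real.sqrt_le_sqrt
  simp only [sec]
  have := sq_nonneg ‖X (Fin.last N)‖
  linarith

theorem sec_pt (z : E N) (s : ℝ) : sec (pt z s) = z := by
  ext i; simp [sec, pt]

theorem ax_pt (z : E N) (s : ℝ) : ax (pt z s) = s := by
  simp [ax, pt]

theorem norm_pt_zero_right (z : E N) : ‖pt z 0‖ = ‖z‖ := by
  have h : ‖pt z 0‖ ^ 2 = ‖z‖ ^ 2 := by
    rw [← real_inner_self_eq_norm_sq, inner_pt, sec_pt, ax_pt, real_inner_self_eq_norm_sq]
    ring
  exact (pow_left_inj₀ (norm_nonneg _) (norm_nonneg _) two_ne_zero).1 h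

theorem norm_pt_axis : ‖(pt 0 1 : E (N + 1))‖ = 1 := by
  have h : ‖(pt 0 1 : E (N + 1))‖ ^ 2 = 1 := by
    rw [← real_inner_self_eq_norm_sq, inner_pt, sec_pt, ax_pt, inner_zero_left]
    ring
  exact (pow_eq_one_iff_of_nonneg (norm_nonneg _) two_ne_zero).1 h

theorem isOpen_tube {D : Set (E N)} (hD : IsOpen D) : IsOpen (tube D) :=
  hD.preimage continuous_sec

/-- Near a boundary point the tube lies above the tangent hyperplane up to first order. -/
theorem tube_above {D : Set (E N)} {P : E (N + 1)} {n : E N} (hn : IsInnerNormal D (sec P) n)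
    {ε : ℝ} (hε : 0 < ε) :
    ∀ᶠ X in 𝓝 P, X ∈ tube D → -ε * ‖X - P‖ ≤ inner ℝ (X - P) (pt n 0) := by
  obtain ⟨hn1, ρ, hρ, hρ0, ⟨t, ht, hgr⟩, hloc⟩ := hn
  have hd : HasFDerivAt ρ (fderiv ℝ ρ (sec P)) (sec P) :=
    (hρ.differentiable (by simp)).differentiableAt.hasFDerivAt
  have hfd : ∀ v, fderiv ℝ ρ (sec P) v = t * inner ℝ n v := by
    intro v
    have h1 : inner ℝ (gradient ρ (sec P)) v = fderiv ℝ ρ (sec P) v := by
      unfold gradient
      rw [InnerProductSpace.toDual_symm_apply]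
    rw [← h1, hgr, real_inner_smul_left]
  have h1 := hd.isLittleO
  have h2 := isLittleO_iff.1 h1 (by positivity : 0 < t * ε)
  have hc : Tendsto (sec : E (N + 1) → E N) (𝓝 P) (𝓝 (sec P)) := continuous_sec.tendsto P
  filter_upwards [hc.eventually h2, hc.eventually hloc] with X h3 h4 hX
  have h5 : 0 < ρ (sec X) := h4.1 hX
  rw [hρ0, hfd, sub_zero, Real.norm_eq_abs] at h3
  have h6 := (abs_le.1 h3).2
  have h7 : inner ℝ (X - P) (pt n 0) = inner ℝ n (sec X - sec P) := by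
    rw [real_inner_comm, inner_pt, sec_sub]; ring
  have h8 : ‖sec X - sec P‖ ≤ ‖X - P‖ := by
    rw [← sec_sub]; exact norm_sec_le _
  rw [h7]
  have h9 : t * (-ε * ‖sec X - sec P‖) ≤ t * inner ℝ n (sec X - sec P) := by linarith
  have h10 : -ε * ‖sec X - sec P‖ ≤ inner ℝ n (sec X - sec P) := le_of_mul_le_mul_left h9 ht
  have h11 : ε * ‖sec X - sec P‖ ≤ ε * ‖X - P‖ := mul_le_mul_of_nonneg_left h8 hε.le
  linarith

/-- The positivity set of a finite travelling wave is closed under downward translations. -/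
theorem wave_down {D : Set (E N)} (hD : IsSmoothDomain D) {p c : ℝ} (hp : 2 < p) (hc : 0 < c)
    {φ : E (N + 1) → ℝ} (hφ : IsFiniteWave D p c φ) {X : E (N + 1)} (hX : X ∈ tube D)
    (hpos : 0 < φ X) {t : ℝ} (ht : 0 ≤ t) : 0 < φ (X - t • pt 0 1) := by
  obtain ⟨hcont, hnn, hbd, hw, -, -⟩ := hφ
  refine down_closed (T := t) hp (isOpen_tube hD.1) hc norm_pt_axis
    (hcont.mono subset_closure) hnn hw ?_ hpos ⟨ht, le_rfl⟩
  intro s hs
  show sec (X - s • pt 0 1) ∈ D
  rw [sec_sub_smul]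
  exact hX

/-- Near a contact point there are points of the positivity set. -/
theorem contact_pos {D : Set (E N)} {φ : E (N + 1) → ℝ} {P : E (N + 1)}
    (hP : IsContact D φ P) {ρ : ℝ} (hρ : 0 < ρ) :
    ∃ X ∈ tube D, ‖X - P‖ < ρ ∧ 0 < φ X := by
  obtain ⟨-, hP2⟩ := hP
  obtain ⟨Y, hY, hYP⟩ := Metric.mem_closure_iff.1 hP2 (ρ / 2) (by linarith)
  have hYc : Y ∈ closure {X | X ∈ tube D ∧ 0 < φ X} := frontier_subset_closure hY.2
  obtain ⟨X, hX, hXY⟩ := Metric.mem_closure_iff.1 hYc (ρ / 2) (by linarith)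
  refine ⟨X, hX.1, ?_, hX.2⟩
  rw [← dist_eq_norm]
  have := dist_triangle X Y P
  rw [dist_comm] at hXY hYP
  linarith

/-- The contact angle estimate. -/
theorem contact_angle {D : Set (E N)} (hD : IsSmoothDomain D) {p c : ℝ} (hp : 2 < p)
    (hc : 0 < c) {φ : E (N + 1) → ℝ} (hφ : IsFiniteWave D p c φ) {P : E (N + 1)}
    (hP : IsContact D φ P) {n : E N} (hn : IsInnerNormal D (sec P) n) {ν : E (N + 1)}
    (hν : ‖ν‖ = 1) (hν0 : ax ν ≠ 0)
    (h2 : ∀ ε : ℝ, 0 < ε → ∀ᶠ X in 𝓝 P, X ∈ tube D → 0 < φ X →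
      inner ℝ (X - P) ν ≤ ε * ‖X - P‖) :
    0 < ax ν ∧ InnerProductGeometry.angle (-pt n 0) ν ≤ Real.pi / Real.sqrt (2 * p - 3) := by
  have hpos : 0 < ax ν := by
    by_contra hneg
    have hneg' : ax ν < 0 := lt_of_le_of_ne (not_lt.1 hneg) hν0
    obtain ⟨ρ, hρ, hball⟩ := Metric.eventually_nhds_iff_ball.1 (h2 (-ax ν / 4) (by linarith))
    -- a point of the positivity set very close to `P`
    have hnax : 0 < -ax ν := neg_pos.2 hneg'
    obtain ⟨X, hX, hXP, hXpos⟩ := contact_pos hP (by positivity : 0 < (-ax ν) * ρ / 16)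
    have hax1 : -ax ν ≤ 1 := by
      have h1 : ax ν = inner ℝ (pt 0 1) ν := by rw [inner_pt, inner_zero_left]; ring
      have h3 := (abs_le.1 (abs_real_inner_le_norm (pt 0 1) ν)).1
      rw [norm_pt_axis, hν, mul_one, ← h1] at h3
      linarith
    have h4 := wave_down hD hp hc hφ hX hXpos (by positivity : 0 ≤ ρ / 2)
    have hXt : X - (ρ / 2) • pt 0 1 ∈ tube D := by
      show sec (X - (ρ / 2) • pt 0 1) ∈ D
      rw [sec_sub_smul]; exact hX
    have hn1 : ‖X - (ρ / 2) • pt 0 1 - P‖ ≤ ‖X - P‖ + ρ / 2 := by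
      have e1 : X - (ρ / 2) • pt 0 1 - P = (X - P) - (ρ / 2) • (pt 0 1 : E (N + 1)) := by abel
      rw [e1]
      refine (norm_sub_le _ _).trans ?_
      rw [norm_smul, norm_pt_axis, Real.norm_eq_abs, abs_of_pos (by positivity), mul_one]
    have hXP' : ‖X - P‖ < ρ / 16 := by nlinarith
    have h5 := hball (X - (ρ / 2) • pt 0 1) (by
      rw [Metric.mem_ball, dist_eq_norm]; linarith) hXt h4
    have h6 : inner ℝ (X - (ρ / 2) • pt 0 1 - P) ν = inner ℝ (X - P) ν - ρ / 2 * ax ν := by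
      have e1 : X - (ρ / 2) • pt 0 1 - P = (X - P) - (ρ / 2) • (pt 0 1 : E (N + 1)) := by abel
      rw [e1, inner_sub_left, real_inner_smul_left, inner_pt, inner_zero_left]
      ring
    have h7 := (abs_le.1 (abs_real_inner_le_norm (X - P) ν)).1
    rw [hν, mul_one] at h7
    rw [h6] at h5
    have h8 : -ax ν / 4 * ‖X - (ρ / 2) • pt 0 1 - P‖ ≤ -ax ν / 4 * (ρ / 16 + ρ / 2) :=
      mul_le_mul_of_nonneg_left (by linarith) (by linarith)
    nlinarith [mul_pos (neg_pos.2 hneg') hρ]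
  refine ⟨hpos, ?_⟩
  by_contra hcon
  push Not at hcon
  obtain ⟨hcont, hnn, hbd, hw, -, -⟩ := hφ
  have hα : InnerProductGeometry.angle (pt n 0) ν <
      Real.pi * (1 - 1 / Real.sqrt (2 * p - 3)) := by
    rw [InnerProductGeometry.angle_neg_left] at hcon
    have : Real.pi * (1 - 1 / Real.sqrt (2 * p - 3)) =
        Real.pi - Real.pi / Real.sqrt (2 * p - 3) := by ring
    rw [this]; linarith
  have hee : ax ν = inner ℝ (pt 0 1) ν := by rw [inner_pt, inner_zero_left]; ring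
  have hme : inner ℝ (pt 0 1) (pt n 0) = (0:ℝ) := by
    rw [inner_pt, inner_zero_left, ax_pt]; ring
  have hmn : ‖(pt n 0 : E (N + 1))‖ = 1 := by rw [norm_pt_zero_right]; exact hn.1
  have hg := growth hp (isOpen_tube hD.1) hc norm_pt_axis.le hcont hbd hw hP.1 hmn hν hme
    (by rw [← hee]; exact hpos) hα (fun ε hε => tube_above hn hε) h2
  obtain ⟨ρ, hρ, hv⟩ := vanish hp (isOpen_tube hD.1) hc norm_pt_axis.le hcont hbd hw hν
    (by rw [← hee]; exact hpos) h2 hg
  obtain ⟨X, hX, hXP, hXpos⟩ := contact_pos hP hρ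
  exact absurd (hv X hX hXP) (not_le.2 hXpos)

end Run7.h845
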