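import Pool.Agent.Run7.h845.Loc

/-!
# The divergence theorem for compactly supported fields
-/

set_option autoImplicit false

open MeasureTheory Set Filter Topology
open scoped ENNReal NNReal ContDiff

namespace Run7.h845

open Pool.Agent.R525.MS

variable {n : ℕ}

/-- The standard unit vectors. -/
noncomputable abbrev bs (n : ℕ) : OrthonormalBasis (Fin n) ℝ (E n) := EuclideanSpace.basisFun (Fin n) ℝ

/-- The trace of an operator. -/
noncomputable def tr (B : E n →L[ℝ] E n) : ℝ := ∑ i, inner ℝ (B (bs n i)) (bs n i)

theorem int_fderiv_zero {f : E n → ℝ} (hd : ContDiff ℝ 1 f) (hs : HasCompactSupport f) (v : E n) :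
    ∫ x, fderiv ℝ f x v = 0 := by
  have hc : Continuous fun x => fderiv ℝ f x v := (hd.continuous_fderiv one_ne_zero).clm_apply
    continuous_const
  have hs' : HasCompactSupport fun x => fderiv ℝ f x v := by
    have h1 := hs.fderiv ℝ
    exact h1.comp_left (g := fun L : E n →L[ℝ] ℝ => L v) (by simp)
  have i1 : Integrable (fun x => fderiv ℝ f x v) := hc.integrable_of_hasCompactSupport hs'
  have i2 : Integrable f := hd.continuous.integrable_of_hasCompactSupport hs
  have h := integral_mul_fderiv_eq_neg_fderiv_mul_of_integrable (μ := (volume : Measure (E n)))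
    (f := f) (g := fun _ => (1 : ℝ)) (v := v) (by simpa using i1) (by simp) (by simpa using i2)
    (fun x _ => (hd.differentiable one_ne_zero) x) (fun x _ => differentiableAt_const _)
  simp at h
  linarith

/-- Integration by parts against a test function. -/
theorem int_div {O : Set (E n)} (hO : IsOpen O) {ζ : E n → ℝ} (hζ : IsTest O ζ)
    {W : E n → E n} (hW : ∀ x ∈ O, ContDiffAt ℝ 1 W x) :
    ∫ x in O, inner ℝ (W x) (gradient ζ x) = - ∫ x in O, tr (fderiv ℝ W x) * ζ x := by
  have hz : ∀ x, x ∉ tsupport ζ → ζ =ᶠ[𝓝 x] 0 := fun x hx =>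
    notMem_tsupport_iff_eventuallyEq.1 hx
  -- the products
  have hC : ∀ i, ContDiff ℝ 1 (fun x => inner ℝ (W x) (bs n i) * ζ x) := by
    intro i
    rw [contDiff_iff_contDiffAt]
    intro x
    by_cases hx : x ∈ tsupport ζ
    · exact ((hW x (hζ.2.2 hx)).inner ℝ contDiffAt_const).mul
        ((hζ.1.contDiffAt).of_le (by simp))
    · have : (fun x => inner ℝ (W x) (bs n i) * ζ x) =ᶠ[𝓝 x] fun _ => 0 := by
        filter_upwards [hz x hx] with y hy
        rw [hy]; simp
      exact contDiffAt_const.congr_of_eventuallyEq this
  have hS : ∀ i, HasCompactSupport (fun x => inner ℝ (W x) (bs n i) * ζ x) := fun i =>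
    hζ.2.1.mul_left
  have h0 := fun i => int_fderiv_zero (hC i) (hS i) (bs n i)
  have hder : ∀ i x, x ∈ O → fderiv ℝ (fun x => inner ℝ (W x) (bs n i) * ζ x) x (bs n i) =
      inner ℝ (fderiv ℝ W x (bs n i)) (bs n i) * ζ x +
        inner ℝ (W x) (bs n i) * inner ℝ (gradient ζ x) (bs n i) := by
    intro i x hx
    have h1 : HasFDerivAt W (fderiv ℝ W x) x :=
      ((hW x hx).differentiableAt (by norm_num)).hasFDerivAt
    have h2 := h1.inner ℝ (hasFDerivAt_const (bs n i) x)
    have h3 : HasFDerivAt (fun x => inner ℝ (W x) (bs n i) * ζ x) _ x :=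
      h2.mul (hζ.differentiable x).hasFDerivAt
    rw [h3.fderiv]
    rw [inner_gradient]
    simp
    ring
  have hoff : ∀ i x, x ∉ O → fderiv ℝ (fun x => inner ℝ (W x) (bs n i) * ζ x) x (bs n i) = 0 := by
    intro i x hx
    have hx' : x ∉ tsupport ζ := fun h => hx (hζ.2.2 h)
    have : (fun x => inner ℝ (W x) (bs n i) * ζ x) =ᶠ[𝓝 x] fun _ => 0 := by
      filter_upwards [hz x hx'] with y hy
      rw [hy]; simp
    rw [this.fderiv_eq]
    simp
  have h1 : ∫ x in O, ∑ i, fderiv ℝ (fun x => inner ℝ (W x) (bs n i) * ζ x) x (bs n i) = 0 := by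
    rw [setIntegral_eq_integral_of_forall_compl_eq_zero
      (fun x hx => Finset.sum_eq_zero fun i _ => hoff i x hx)]
    rw [integral_finsetSum]
    · exact Finset.sum_eq_zero fun i _ => h0 i
    · intro i _
      have hc : Continuous fun x => fderiv ℝ (fun x => inner ℝ (W x) (bs n i) * ζ x) x (bs n i) :=
        ((hC i).continuous_fderiv one_ne_zero).clm_apply continuous_const
      have hs' : HasCompactSupport
          fun x => fderiv ℝ (fun x => inner ℝ (W x) (bs n i) * ζ x) x (bs n i) :=
        ((hS i).fderiv ℝ).comp_left (g := fun L : E n →L[ℝ] ℝ => L (bs n i)) (by simp)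
      exact hc.integrable_of_hasCompactSupport hs'
  have h2 : ∫ x in O, ∑ i, fderiv ℝ (fun x => inner ℝ (W x) (bs n i) * ζ x) x (bs n i) =
      ∫ x in O, (tr (fderiv ℝ W x) * ζ x + inner ℝ (W x) (gradient ζ x)) := by
    apply setIntegral_congr_fun hO.measurableSet
    intro x hx
    simp only
    rw [Finset.sum_congr rfl fun i _ => hder i x hx, Finset.sum_add_distrib]
    congr 1
    · rw [tr, Finset.sum_mul]
    · have := (bs n).sum_inner_mul_inner (W x) (gradient ζ x)
      rw [← this]
      apply Finset.sum_congr rfl
      intro i _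
      rw [real_inner_comm (bs n i) (gradient ζ x)]
  rw [h1] at h2
  -- integrability of the two pieces
  have ic : Integrable (fun x => inner ℝ (W x) (gradient ζ x)) (volume.restrict O) := by
    have hcont : Continuous (fun x => inner ℝ (W x) (gradient ζ x)) := by
      rw [continuous_iff_continuousAt]
      intro x
      by_cases hx : x ∈ tsupport ζ
      · exact (hW x (hζ.2.2 hx)).continuousAt.inner hζ.continuous_gradient.continuousAt
      · have : (fun x => inner ℝ (W x) (gradient ζ x)) =ᶠ[𝓝 x] fun _ => 0 := by
          have h3 : tsupport ζ ∈ 𝓝ˢ (∅ : Set (E n)) := by simp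
          have hop : IsOpen (tsupport ζ)ᶜ := (isClosed_tsupport ζ).isOpen_compl
          filter_upwards [hop.mem_nhds hx] with y hy
          have : gradient ζ y = 0 := by
            have h2 : fderiv ℝ ζ y = 0 := by
              by_contra hne
              exact hy (support_fderiv_subset ℝ hne)
            simp [gradient, h2]
          rw [this, inner_zero_right]
        exact continuousAt_const.congr this.symm
    have hsup : HasCompactSupport (fun x => inner ℝ (W x) (gradient ζ x)) := by
      refine hζ.support_gradient.mono ?_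
      intro x hx h0
      apply hx
      simp only [h0, inner_zero_right]
    exact (hcont.integrable_of_hasCompactSupport hsup).integrableOn
  have is : Integrable (fun x => tr (fderiv ℝ W x) * ζ x) (volume.restrict O) := by
    have hcont : Continuous (fun x => tr (fderiv ℝ W x) * ζ x) := by
      rw [continuous_iff_continuousAt]
      intro x
      by_cases hx : x ∈ tsupport ζ
      · have h3 : ContinuousAt (fderiv ℝ W) x := ((hW x (hζ.2.2 hx)).fderiv_right (m := 0)
          (by simp)).continuousAt
        apply ContinuousAt.mul _ hζ.continuous.continuousAt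
        unfold tr
        apply tendsto_finsetSum
        intro i _
        exact (h3.clm_apply continuousAt_const).inner continuousAt_const
      · have : (fun x => tr (fderiv ℝ W x) * ζ x) =ᶠ[𝓝 x] fun _ => 0 := by
          filter_upwards [hz x hx] with y hy
          rw [hy]; simp
        exact continuousAt_const.congr this.symm
    exact (hcont.integrable_of_hasCompactSupport hζ.2.1.mul_left).integrableOn
  rw [integral_add is ic] at h2
  linarith

end Run7.h845
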