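import Pool.Agent.Run7.h845.Jet
import Pool.Agent.Run7.h845.Harm

/-!
# Jets of the polar coordinates and of the homogeneous p-harmonic function
-/

set_option autoImplicit false

open MeasureTheory Set Filter Topology Asymptotics
open scoped ENNReal NNReal ContDiff

namespace Run7.h845

open Pool.Agent.R525.MS

variable {n : ℕ} {p κ : ℝ}

theorem jet1_sqrt {t : ℝ} (ht : 0 < t) :
    Jet1 Real.sqrt t (1 / (2 * Real.sqrt t)) (-(1 / (4 * Real.sqrt t ^ 3))) := by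
  have h1 : ∀ᶠ s in 𝓝 t, HasDerivAt Real.sqrt (1 / (2 * Real.sqrt s)) s := by
    filter_upwards [lt_mem_nhds ht] with s hs
    exact Real.hasDerivAt_sqrt hs.ne'
  refine jet1_of_deriv (G' := fun s => 1 / (2 * Real.sqrt s)) h1 ?_
  have hs0 : 0 < Real.sqrt t := Real.sqrt_pos.2 ht
  have h2 : HasDerivAt (fun s => 2 * Real.sqrt s) (2 * (1 / (2 * Real.sqrt t))) t :=
    (Real.hasDerivAt_sqrt ht.ne').const_mul 2
  have h3 := h2.inv (by positivity)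
  have h4 : (fun s => 1 / (2 * Real.sqrt s)) = (fun s => 2 * Real.sqrt s)⁻¹ := by
    ext s; simp
  rw [h4]
  refine h3.congr_deriv ?_
  field_simp
  ring

theorem jet1_inv {t : ℝ} (ht : 0 < t) : Jet1 (fun s => s⁻¹) t (-(t ^ 2)⁻¹) (2 / t ^ 3) := by
  have h1 : ∀ᶠ s in 𝓝 t, HasDerivAt (fun s : ℝ => s⁻¹) (-(s ^ 2)⁻¹) s := by
    filter_upwards [lt_mem_nhds ht] with s hs
    exact hasDerivAt_inv hs.ne'
  refine jet1_of_deriv (G' := fun s => -(s ^ 2)⁻¹) h1 ?_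
  have h2 : HasDerivAt (fun s : ℝ => s ^ 2) (2 * t) t := by
    simpa using hasDerivAt_pow 2 t
  have h3 := (h2.inv (by positivity)).neg
  have h4 : (fun s : ℝ => -(s ^ 2)⁻¹) = -(fun s : ℝ => s ^ 2)⁻¹ := by
    ext s; simp
  rw [h4]
  refine h3.congr_deriv ?_
  field_simp

theorem jet1_rpow (a : ℝ) {t : ℝ} (ht : 0 < t) :
    Jet1 (fun s => s ^ a) t (a * (t ^ a / t)) (a * (a - 1) * (t ^ a / t ^ 2)) := by
  have h1 : ∀ᶠ s in 𝓝 t, HasDerivAt (fun s : ℝ => s ^ a) (a * s ^ (a - 1)) s := by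
    filter_upwards [lt_mem_nhds ht] with s hs
    exact Real.hasDerivAt_rpow_const (Or.inl hs.ne')
  have h2 : HasDerivAt (fun s : ℝ => a * s ^ (a - 1)) (a * ((a - 1) * t ^ (a - 1 - 1))) t :=
    (Real.hasDerivAt_rpow_const (Or.inl ht.ne')).const_mul a
  have h3 := jet1_of_deriv h1 h2
  have e1 : a * t ^ (a - 1) = a * (t ^ a / t) := by rw [Real.rpow_sub_one ht.ne']
  have e2 : a * ((a - 1) * t ^ (a - 1 - 1)) = a * (a - 1) * (t ^ a / t ^ 2) := by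
    rw [Real.rpow_sub_one ht.ne', Real.rpow_sub_one ht.ne']
    field_simp
  simp only [e1, e2] at h3
  exact h3

theorem jet1_arctan (t : ℝ) :
    Jet1 Real.arctan t (1 / (1 + t ^ 2)) (-(2 * t) / (1 + t ^ 2) ^ 2) := by
  have h1 : ∀ᶠ s in 𝓝 t, HasDerivAt Real.arctan (1 / (1 + s ^ 2)) s :=
    Eventually.of_forall fun s => Real.hasDerivAt_arctan s
  refine jet1_of_deriv (G' := fun s => 1 / (1 + s ^ 2)) h1 ?_
  have h2 : HasDerivAt (fun s : ℝ => 1 + s ^ 2) (2 * t) t := by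
    have := (hasDerivAt_pow 2 t).const_add 1
    simpa using this
  have h3 := h2.inv (by positivity)
  have h4 : (fun s : ℝ => 1 / (1 + s ^ 2)) = (fun s : ℝ => 1 + s ^ 2)⁻¹ := by
    ext s; simp
  rw [h4]
  exact h3

theorem jet1_FF (hp : 2 < p) (hκ : 1 < κ) (θ : ℝ) :
    Jet1 (FF p κ) θ (FF1 p κ θ) (FF2 p κ θ) :=
  jet1_of_deriv (G' := FF1 p κ) (Eventually.of_forall fun s => hasDerivAt_FF hp hκ s)
    (hasDerivAt_FF1 hp hκ θ)

section polar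

variable {f1 f2 : E n → ℝ} {x₀ : E n} {l1 q1 l2 : E n → ℝ}

theorem jet_rad (h1 : Jet f1 x₀ l1 q1) (h2 : Jet f2 x₀ l2 (fun _ => 0)) (hpos : 0 < f1 x₀) :
    Jet (fun x => Real.sqrt (f1 x ^ 2 + f2 x ^ 2)) x₀
      (fun v => Real.cos (Real.arctan (f2 x₀ / f1 x₀)) * l1 v +
        Real.sin (Real.arctan (f2 x₀ / f1 x₀)) * l2 v)
      (fun v => (-Real.sin (Real.arctan (f2 x₀ / f1 x₀)) * l1 v +
        Real.cos (Real.arctan (f2 x₀ / f1 x₀)) * l2 v) ^ 2 / Real.sqrt (f1 x₀ ^ 2 + f2 x₀ ^ 2) +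
        Real.cos (Real.arctan (f2 x₀ / f1 x₀)) * q1 v) := by
  have hr2 : 0 < f1 x₀ ^ 2 + f2 x₀ ^ 2 := by positivity
  have hj := ((h1.comp (jet1_sq (f1 x₀))).add (h2.comp (jet1_sq (f2 x₀)))).comp (jet1_sqrt hr2)
  set r := Real.sqrt (f1 x₀ ^ 2 + f2 x₀ ^ 2) with hr
  have hr0 : 0 < r := Real.sqrt_pos.2 hr2
  have hrr : r ^ 2 = f1 x₀ ^ 2 + f2 x₀ ^ 2 := Real.sq_sqrt hr2.le
  have e0 : Real.sqrt (1 + (f2 x₀ / f1 x₀) ^ 2) = r / f1 x₀ := by
    have : 1 + (f2 x₀ / f1 x₀) ^ 2 = (r / f1 x₀) ^ 2 := by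
      rw [div_pow, div_pow, hrr]; field_simp
    rw [this, Real.sqrt_sq (by positivity)]
  have ec : Real.cos (Real.arctan (f2 x₀ / f1 x₀)) = f1 x₀ / r := by
    rw [Real.cos_arctan, e0]; field_simp
  have es : Real.sin (Real.arctan (f2 x₀ / f1 x₀)) = f2 x₀ / r := by
    rw [Real.sin_arctan, e0]; field_simp
  rw [ec, es]
  refine hj.congr ?_ ?_
  · intro v
    field_simp
  · intro v
    have h3 : r ^ 2 * (l1 v ^ 2 + l2 v ^ 2) = (f1 x₀ * l1 v + f2 x₀ * l2 v) ^ 2 +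
        (-f2 x₀ * l1 v + f1 x₀ * l2 v) ^ 2 := by rw [hrr]; ring
    field_simp
    linear_combination 4 * h3

theorem jet_ang (h1 : Jet f1 x₀ l1 q1) (h2 : Jet f2 x₀ l2 (fun _ => 0)) (hpos : 0 < f1 x₀) :
    Jet (fun x => Real.arctan (f2 x / f1 x)) x₀
      (fun v => (-Real.sin (Real.arctan (f2 x₀ / f1 x₀)) * l1 v +
        Real.cos (Real.arctan (f2 x₀ / f1 x₀)) * l2 v) / Real.sqrt (f1 x₀ ^ 2 + f2 x₀ ^ 2))
      (fun v => -2 * (Real.cos (Real.arctan (f2 x₀ / f1 x₀)) * l1 v +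
        Real.sin (Real.arctan (f2 x₀ / f1 x₀)) * l2 v) *
        (-Real.sin (Real.arctan (f2 x₀ / f1 x₀)) * l1 v +
        Real.cos (Real.arctan (f2 x₀ / f1 x₀)) * l2 v) / Real.sqrt (f1 x₀ ^ 2 + f2 x₀ ^ 2) ^ 2 -
        Real.sin (Real.arctan (f2 x₀ / f1 x₀)) / Real.sqrt (f1 x₀ ^ 2 + f2 x₀ ^ 2) * q1 v) := by
  have hr2 : 0 < f1 x₀ ^ 2 + f2 x₀ ^ 2 := by positivity
  have hj0 := h2.mul (h1.comp (jet1_inv hpos))
  have hj := hj0.comp (jet1_arctan (f2 x₀ * (f1 x₀)⁻¹))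
  set r := Real.sqrt (f1 x₀ ^ 2 + f2 x₀ ^ 2) with hr
  have hr0 : 0 < r := Real.sqrt_pos.2 hr2
  have hrr : r ^ 2 = f1 x₀ ^ 2 + f2 x₀ ^ 2 := Real.sq_sqrt hr2.le
  have e0 : Real.sqrt (1 + (f2 x₀ / f1 x₀) ^ 2) = r / f1 x₀ := by
    have : 1 + (f2 x₀ / f1 x₀) ^ 2 = (r / f1 x₀) ^ 2 := by
      rw [div_pow, div_pow, hrr]; field_simp
    rw [this, Real.sqrt_sq (by positivity)]
  have ec : Real.cos (Real.arctan (f2 x₀ / f1 x₀)) = f1 x₀ / r := by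
    rw [Real.cos_arctan, e0]; field_simp
  have es : Real.sin (Real.arctan (f2 x₀ / f1 x₀)) = f2 x₀ / r := by
    rw [Real.sin_arctan, e0]; field_simp
  rw [ec, es]
  have e1 : 1 + (f2 x₀ * (f1 x₀)⁻¹) ^ 2 = r ^ 2 / f1 x₀ ^ 2 := by
    rw [hrr]; field_simp
  rw [e1] at hj
  have hj' : Jet (fun x => Real.arctan (f2 x / f1 x)) x₀ _ _ := hj
  refine hj'.congr ?_ ?_
  · intro v
    field_simp
    ring
  · intro v
    have e2 : f2 x₀ ^ 2 = r ^ 2 - f1 x₀ ^ 2 := by rw [hrr]; ring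
    field_simp
    ring_nf
    have e3 : f2 x₀ ^ 3 = f2 x₀ * (r ^ 2 - f1 x₀ ^ 2) := by rw [← e2]; ring
    simp only [e2, e3]
    ring

/-- The coefficient of the second angular term. -/
noncomputable def KK (p t : ℝ) : ℝ :=
  Real.cos t * (p - 1 + (p - 2) * Real.sin t ^ 2) / num p t

/-- The homogeneous `p`-harmonic function in terms of two coordinates. -/
noncomputable def UU (p κ : ℝ) (f1 f2 : E n → ℝ) (x : E n) : ℝ :=
  Real.sqrt (f1 x ^ 2 + f2 x ^ 2) ^ κ * FF p κ (Real.arctan (f2 x / f1 x))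

theorem jet_UU (hp : 2 < p) (hκ : 1 < κ) (h1 : Jet f1 x₀ l1 q1)
    (h2 : Jet f2 x₀ l2 (fun _ => 0)) (hpos : 0 < f1 x₀) {θ t r R : ℝ}
    (hθ : θ = Real.arctan (f2 x₀ / f1 x₀)) (ht : t = Xf p κ θ)
    (hr : r = Real.sqrt (f1 x₀ ^ 2 + f2 x₀ ^ 2)) (hR : R = r ^ κ / r * gg p κ t) :
    Jet (UU p κ f1 f2) x₀
      (fun v => R * (Real.cos t * (Real.cos θ * l1 v + Real.sin θ * l2 v) -
        Real.sin t * (-Real.sin θ * l1 v + Real.cos θ * l2 v)))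
      (fun v => (κ - 1) * (R / r) * (Real.cos t * (Real.cos θ * l1 v + Real.sin θ * l2 v) ^ 2 -
        2 * Real.sin t * ((Real.cos θ * l1 v + Real.sin θ * l2 v) *
          (-Real.sin θ * l1 v + Real.cos θ * l2 v)) -
        KK p t * (-Real.sin θ * l1 v + Real.cos θ * l2 v) ^ 2) +
        R * (Real.cos t * Real.cos θ + Real.sin t * Real.sin θ) * q1 v) := by
  have hr2 : 0 < f1 x₀ ^ 2 + f2 x₀ ^ 2 := by positivity
  have hr0 : 0 < r := by rw [hr]; exact Real.sqrt_pos.2 hr2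
  have ha := jet_rad h1 h2 hpos
  have hb := jet_ang h1 h2 hpos
  rw [← hθ, ← hr] at ha hb
  have ha' := ha.comp (G := fun s => s ^ κ) (G1 := κ * (r ^ κ / r))
    (G2 := κ * (κ - 1) * (r ^ κ / r ^ 2)) (by rw [← hr]; exact jet1_rpow κ hr0)
  have hb' := hb.comp (G := FF p κ) (G1 := FF1 p κ θ) (G2 := FF2 p κ θ)
    (by rw [← hθ]; exact jet1_FF hp hκ θ)
  have hj := ha'.mul hb'
  rw [← hθ, ← hr] at hj
  have hj' : Jet (UU p κ f1 f2) x₀ _ _ := hj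
  have hκ0 : 0 < κ := by linarith
  have e1 : κ * FF p κ θ = gg p κ t * Real.cos t := by
    unfold FF; rw [← ht]; field_simp
  have e2 : FF1 p κ θ = -(gg p κ t * Real.sin t) := by
    unfold FF1; rw [← ht]
  have e3 : FF2 p κ θ = -((κ - 1) * gg p κ t * KK p t) - gg p κ t * Real.cos t := by
    have := FF2_eq hp hκ θ
    rw [← ht, e1] at this
    unfold KK
    linarith
  refine hj'.congr ?_ ?_
  · intro v
    rw [hR, e2]
    field_simp
    linear_combination (Real.cos θ * l1 v + Real.sin θ * l2 v) * e1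
  · intro v
    rw [hR, e2, e3]
    field_simp
    linear_combination ((-Real.sin θ * l1 v + Real.cos θ * l2 v) ^ 2 + r * Real.cos θ * q1 v +
      (κ - 1) * (Real.cos θ * l1 v + Real.sin θ * l2 v) ^ 2) * e1

end polar

end Run7.h845
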