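import Pool.Agent.Run7.h845.Jet

/-!
# Quadratic forms and the operator of the equation
-/

set_option autoImplicit false

open MeasureTheory Set Filter Topology Asymptotics
open scoped ENNReal NNReal ContDiff

namespace Run7.h845

open Pool.Agent.R525.MS

variable {n : ℕ} {p : ℝ}

/-- `q` is a quadratic form. -/
def IsQ (q : E n → ℝ) : Prop :=
  ∃ B : E n →L[ℝ] E n, (∀ x y, inner ℝ (B x) y = inner ℝ x (B y)) ∧
    ∀ v, q v = inner ℝ (B v) v

theorem IsQ.add {q q' : E n → ℝ} (h : IsQ q) (h' : IsQ q') : IsQ (fun v => q v + q' v) := by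
  obtain ⟨B, h1, h2⟩ := h
  obtain ⟨B', h1', h2'⟩ := h'
  refine ⟨B + B', fun x y => ?_, fun v => ?_⟩
  · simp only [_root_.add_apply, inner_add_left, inner_add_right, h1, h1']
  · simp only [_root_.add_apply, inner_add_left, h2, h2']

theorem IsQ.const_mul {q : E n → ℝ} (h : IsQ q) (c : ℝ) : IsQ (fun v => c * q v) := by
  obtain ⟨B, h1, h2⟩ := h
  refine ⟨c • B, fun x y => ?_, fun v => ?_⟩
  · simp only [_root_.smul_apply, real_inner_smul_left, real_inner_smul_right, h1]
  · simp only [_root_.smul_apply, real_inner_smul_left, h2]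

theorem isQ_mul (a b : E n) : IsQ (fun v => inner ℝ a v * inner ℝ b v) := by
  refine ⟨(1 / 2 : ℝ) • ((innerSL ℝ a).smulRight b + (innerSL ℝ b).smulRight a),
    fun x y => ?_, fun v => ?_⟩
  · simp only [_root_.smul_apply, _root_.add_apply,
      ContinuousLinearMap.smulRight_apply, innerSL_apply_apply, real_inner_smul_left,
      real_inner_smul_right, inner_add_left, inner_add_right]
    rw [real_inner_comm x b, real_inner_comm x a]
    ring
  · simp only [_root_.smul_apply, _root_.add_apply,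
      ContinuousLinearMap.smulRight_apply, innerSL_apply_apply, real_inner_smul_left,
      inner_add_left]
    ring

theorem isQ_norm_sq : IsQ (fun v : E n => ‖v‖ ^ 2) :=
  ⟨ContinuousLinearMap.id ℝ (E n), fun x y => rfl, fun v => by
    simp only [ContinuousLinearMap.id_apply, real_inner_self_eq_norm_sq]⟩

theorem isQ_zero : IsQ (fun _ : E n => (0 : ℝ)) :=
  ⟨0, fun x y => by simp, fun v => by simp⟩

theorem IsQ.congr {q q' : E n → ℝ} (h : IsQ q) (hq : ∀ v, q v = q' v) : IsQ q' := by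
  have : q = q' := funext hq
  rwa [this] at h

/-- The trace of a quadratic form. -/
noncomputable def trq (q : E n → ℝ) : ℝ := ∑ i, q (bs n i)

theorem trq_add (q q' : E n → ℝ) : trq (fun v => q v + q' v) = trq q + trq q' := by
  unfold trq; rw [Finset.sum_add_distrib]

theorem trq_const_mul (c : ℝ) (q : E n → ℝ) : trq (fun v => c * q v) = c * trq q := by
  unfold trq; rw [Finset.mul_sum]

theorem trq_mul (a b : E n) : trq (fun v => inner ℝ a v * inner ℝ b v) = inner ℝ a b := by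
  unfold trq
  rw [← (bs n).sum_inner_mul_inner a b]
  refine Finset.sum_congr rfl fun i _ => ?_
  show inner ℝ a (bs n i) * inner ℝ b (bs n i) = _
  rw [real_inner_comm (bs n i) b]

theorem trq_norm_sq : trq (fun v : E n => ‖v‖ ^ 2) = n := by
  unfold trq
  simp

theorem trq_mono {q q' : E n → ℝ} (h : ∀ v, q v ≤ q' v) : trq q ≤ trq q' :=
  Finset.sum_le_sum fun _ _ => h _

/-- The (normalised) second order part of the equation. -/
noncomputable def Lq (p : ℝ) (g : E n) (q : E n → ℝ) : ℝ := ‖g‖ ^ 2 * trq q + (p - 2) * q g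

theorem Lq_add (g : E n) (q q' : E n → ℝ) :
    Lq p g (fun v => q v + q' v) = Lq p g q + Lq p g q' := by
  unfold Lq; rw [trq_add]; ring

theorem Lq_const_mul (g : E n) (c : ℝ) (q : E n → ℝ) :
    Lq p g (fun v => c * q v) = c * Lq p g q := by
  unfold Lq; rw [trq_const_mul]; ring

theorem IsQ.smul_arg {q : E n → ℝ} (h : IsQ q) (c : ℝ) (v : E n) : q (c • v) = c ^ 2 * q v := by
  obtain ⟨B, h1, h2⟩ := h
  rw [h2, h2, map_smul, real_inner_smul_left, real_inner_smul_right]
  ring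

theorem Lq_smul {q : E n → ℝ} (h : IsQ q) (c : ℝ) (g : E n) :
    Lq p (c • g) q = c ^ 2 * Lq p g q := by
  unfold Lq
  rw [h.smul_arg, norm_smul, Real.norm_eq_abs, mul_pow, sq_abs]
  ring

theorem Lq_sq (a g : E n) : Lq p g (fun v => inner ℝ a v ^ 2) =
    ‖g‖ ^ 2 * ‖a‖ ^ 2 + (p - 2) * inner ℝ a g ^ 2 := by
  have h := trq_mul a a
  rw [real_inner_self_eq_norm_sq] at h
  unfold Lq
  have : (fun v => inner ℝ a v ^ 2) = fun v => inner ℝ a v * inner ℝ a v := by
    ext v; ring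
  rw [this, h]
  ring

theorem Lq_mul (a b g : E n) : Lq p g (fun v => inner ℝ a v * inner ℝ b v) =
    ‖g‖ ^ 2 * inner ℝ a b + (p - 2) * (inner ℝ a g * inner ℝ b g) := by
  unfold Lq
  rw [trq_mul]

theorem Lq_norm_sq (g : E n) : Lq p g (fun v => ‖v‖ ^ 2) = (n + (p - 2)) * ‖g‖ ^ 2 := by
  unfold Lq
  rw [trq_norm_sq]; ring

theorem Lq_mono (hp : 2 < p) (g : E n) {q q' : E n → ℝ} (h : ∀ v, q v ≤ q' v) :
    Lq p g q ≤ Lq p g q' := by
  unfold Lq
  have h1 := mul_le_mul_of_nonneg_left (trq_mono h) (sq_nonneg ‖g‖)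
  have h2 := mul_le_mul_of_nonneg_left (h g) (by linarith : 0 ≤ p - 2)
  linarith

/-- The viscosity inequality, for a function with a second order jet touching from above. -/
theorem visc_jet {U : Set (E n)} (hU : IsOpen U) (hp : 2 < p) {d : E n} {u : E n → ℝ}
    (hc : ContinuousOn u U) (hu : IsWeakSol U p d u) {x₀ : E n} (hx₀ : x₀ ∈ U) {g : E n}
    (hg : g ≠ 0) {f : E n → ℝ} {l q : E n → ℝ} (h : Jet f x₀ l q)
    (hl : ∀ v, l v = inner ℝ g v) (hq : IsQ q)
    (hle : ∀ᶠ x in 𝓝 x₀, u x ≤ f x) (heq : u x₀ = f x₀) :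
    0 ≤ ‖g‖ ^ (p - 4) * Lq p g q + inner ℝ d g + f x₀ / (p - 2) := by
  obtain ⟨B, hB, hqB⟩ := hq
  have h1 := visc hU hp hc hu hx₀ hg hB (h.superJet hl hqB hle heq)
  have h2 : pLap p g B = ‖g‖ ^ (p - 4) * Lq p g q := by
    have hn : 0 < ‖g‖ := norm_pos_iff.2 hg
    have h3 : ‖g‖ ^ (p - 2) = ‖g‖ ^ (p - 4) * ‖g‖ ^ 2 := by
      rw [← Real.rpow_natCast ‖g‖ 2, ← Real.rpow_add hn]
      congr 1; push_cast; ring
    have h4 : tr B = trq q := by
      unfold tr trq
      exact Finset.sum_congr rfl fun i _ => (hqB _).symm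
    unfold pLap Lq
    rw [h3, h4, hqB g]
    ring
  rw [h2, heq] at h1
  exact h1

/-- Composition with a function of one variable, in terms of the operator. -/
theorem Lq_comp {q : E n → ℝ} (hq : IsQ q) (g : E n) (G1 G2 : ℝ) :
    Lq p (G1 • g) (fun v => G1 * q v + G2 * inner ℝ g v ^ 2) =
      G1 ^ 3 * Lq p g q + (p - 1) * G1 ^ 2 * G2 * ‖g‖ ^ 4 := by
  rw [Lq_add, Lq_const_mul, Lq_const_mul, Lq_smul hq, Lq_sq, norm_smul, Real.norm_eq_abs,
    mul_pow, sq_abs, real_inner_smul_right, real_inner_self_eq_norm_sq]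
  ring

theorem isQ_comp {q : E n → ℝ} (hq : IsQ q) (g : E n) (G1 G2 : ℝ) :
    IsQ (fun v => G1 * q v + G2 * inner ℝ g v ^ 2) := by
  refine ((hq.const_mul G1).add ((isQ_mul g g).const_mul G2)).congr fun v => ?_
  ring

end Run7.h845
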