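import Pool.Agent.Run7.h845.Growth

/-!
# The receding barrier
-/

set_option autoImplicit false

open MeasureTheory Set Filter Topology Asymptotics
open scoped ENNReal NNReal ContDiff

namespace Run7.h845

open Pool.Agent.R525.MS

variable {n : ℕ} {p : ℝ}

/-- A sliding argument. -/
theorem sweep {Z : Type*} [TopologicalSpace Z] [T2Space Z] {K : Set Z} (hK : IsCompact K)
    {φ : Z → ℝ} (hφ : ContinuousOn φ K) {Ψ : ℝ → Z → ℝ} {b : ℝ} (hb : 0 ≤ b)
    (hΨ : ContinuousOn (fun q : ℝ × Z => Ψ q.1 q.2) (Icc 0 b ×ˢ K))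
    (htop : ∀ x ∈ K, φ x < Ψ b x)
    (hno : ∀ t ∈ Icc 0 b, (∀ x ∈ K, φ x ≤ Ψ t x) → ∀ x ∈ K, φ x ≠ Ψ t x) :
    ∀ x ∈ K, φ x < Ψ 0 x := by
  by_contra hcon
  push Not at hcon
  obtain ⟨x0, hx0, hle0⟩ := hcon
  have hS : IsCompact (Icc 0 b ×ˢ K) := isCompact_Icc.prod hK
  have hd : ContinuousOn (fun q : ℝ × Z => φ q.2 - Ψ q.1 q.2) (Icc 0 b ×ˢ K) :=
    (hφ.comp continuousOn_snd fun q hq => hq.2).sub hΨ
  set T := (Icc 0 b ×ˢ K) ∩ (fun q : ℝ × Z => φ q.2 - Ψ q.1 q.2) ⁻¹' Ici 0 with hT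
  have hTc : IsCompact T := by
    refine hS.of_isClosed_subset ?_ inter_subset_left
    exact hd.preimage_isClosed_of_isClosed hS.isClosed isClosed_Ici
  have hTn : T.Nonempty := ⟨(0, x0), ⟨⟨le_rfl, hb⟩, hx0⟩, by
    show 0 ≤ φ x0 - Ψ 0 x0
    linarith⟩
  obtain ⟨q, hq, hmax⟩ := hTc.exists_isMaxOn hTn continuous_fst.continuousOn
  obtain ⟨⟨hq1, hq2⟩, hq3⟩ := hq
  have hq3' : Ψ q.1 q.2 ≤ φ q.2 := by
    have : 0 ≤ φ q.2 - Ψ q.1 q.2 := hq3
    linarith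
  have hqb : q.1 < b := by
    rcases hq1.2.lt_or_eq with h | h
    · exact h
    · exfalso
      rw [h] at hq3'
      exact absurd (htop q.2 hq2) (not_lt.2 hq3')
  have hall : ∀ x ∈ K, φ x ≤ Ψ q.1 x := by
    intro x hx
    have h1 : ContinuousOn (fun t => Ψ t x) (Icc 0 b) :=
      hΨ.comp (f := fun t : ℝ => (t, x)) (by fun_prop) fun t ht => ⟨ht, hx⟩
    have h2 : Tendsto (fun t => Ψ t x) (𝓝[Ioc q.1 b] q.1) (𝓝 (Ψ q.1 x)) :=
      (h1 q.1 hq1).mono_left (nhdsWithin_mono _ fun t ht => ⟨hq1.1.trans ht.1.le, ht.2⟩)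
    have : (𝓝[Ioc q.1 b] q.1).NeBot := left_nhdsWithin_Ioc_neBot hqb
    refine ge_of_tendsto h2 ?_
    filter_upwards [self_mem_nhdsWithin] with t ht
    by_contra hlt
    push Not at hlt
    have h3 : (t, x) ∈ T := ⟨⟨⟨hq1.1.trans ht.1.le, ht.2⟩, hx⟩, by
      show 0 ≤ φ x - Ψ t x
      linarith⟩
    have h4 : t ≤ q.1 := hmax h3
    exact absurd ht.1 (not_lt.2 h4)
  exact hno q.1 hq1 hall q.2 hq2 (le_antisymm (hall q.2 hq2) hq3')

/-- The smoothed absolute value. -/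
noncomputable def WW (η t : ℝ) : ℝ := Real.sqrt (t ^ 2 + 4 * η ^ 2)

/-- The smoothed positive part. -/
noncomputable def wp (η t : ℝ) : ℝ := (t + WW η t) / 2

theorem WW_pos {η : ℝ} (hη : 0 < η) (t : ℝ) : 0 < WW η t := Real.sqrt_pos.2 (by positivity)

theorem abs_lt_WW {η : ℝ} (hη : 0 < η) (t : ℝ) : |t| < WW η t := by
  unfold WW
  rw [← Real.sqrt_sq_eq_abs]
  apply Real.sqrt_lt_sqrt (sq_nonneg _)
  have : 0 < η ^ 2 := by positivity
  linarith

theorem WW_le {η : ℝ} (hη : 0 < η) (t : ℝ) : WW η t ≤ |t| + 2 * η := by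
  unfold WW
  apply Real.sqrt_le_iff.2
  constructor
  · positivity
  · have : |t| ^ 2 = t ^ 2 := sq_abs t
    have h2 := abs_nonneg t
    nlinarith

theorem wp_pos {η : ℝ} (hη : 0 < η) (t : ℝ) : 0 < wp η t := by
  have := abs_lt_WW hη t
  have h2 := neg_abs_le t
  unfold wp
  linarith

theorem wp_le {η : ℝ} (hη : 0 < η) (t : ℝ) : wp η t ≤ WW η t := by
  have := abs_lt_WW hη t
  have h2 := le_abs_self t
  unfold wp
  linarith

theorem le_wp {η : ℝ} (hη : 0 < η) (t : ℝ) : t ≤ wp η t := by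
  have := abs_lt_WW hη t
  have h2 := le_abs_self t
  unfold wp
  linarith

theorem wp_le_of_nonpos {η : ℝ} (hη : 0 < η) {t : ℝ} (ht : t ≤ 0) : wp η t ≤ η := by
  have := WW_le hη t
  rw [abs_of_nonpos ht] at this
  unfold wp
  linarith

theorem hasDerivAt_WW {η : ℝ} (hη : 0 < η) (t : ℝ) : HasDerivAt (WW η) (t / WW η t) t := by
  have h0 : 0 < t ^ 2 + 4 * η ^ 2 := by positivity
  have h1 : HasDerivAt (fun t : ℝ => t ^ 2 + 4 * η ^ 2) (2 * t) t := by
    simpa using (hasDerivAt_pow 2 t).add_const (4 * η ^ 2)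
  have h2 := h1.sqrt h0.ne'
  refine h2.congr_deriv ?_
  unfold WW
  have := Real.sqrt_pos.2 h0
  field_simp

theorem hasDerivAt_wp {η : ℝ} (hη : 0 < η) (t : ℝ) :
    HasDerivAt (wp η) (wp η t / WW η t) t := by
  have h1 := ((hasDerivAt_id t).add (hasDerivAt_WW hη t)).div_const 2
  have h2 : HasDerivAt (wp η) _ t := h1
  refine h2.congr_deriv ?_
  have := WW_pos hη t
  unfold wp
  field_simp
  ring

theorem continuous_WW (η : ℝ) : Continuous (WW η) := by unfold WW; fun_prop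

theorem continuous_wp (η : ℝ) : Continuous (wp η) := by
  unfold wp
  exact (continuous_id.add (continuous_WW η)).div_const 2

/-- The profile of the receding barrier. -/
theorem jet1_profile {η : ℝ} (hη : 0 < η) (τ k t : ℝ) :
    Jet1 (fun s => τ * wp η s ^ k) t (k * (τ * wp η t ^ k) / WW η t)
      (k * (τ * wp η t ^ k) / WW η t ^ 2 * (k - t / WW η t)) := by
  have hd : ∀ s, HasDerivAt (fun s => τ * wp η s ^ k) (k * (τ * wp η s ^ k) / WW η s) s := by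
    intro s
    have h0 := wp_pos hη s
    have h1 := ((hasDerivAt_wp hη s).rpow_const (p := k) (Or.inl h0.ne')).const_mul τ
    refine h1.congr_deriv ?_
    rw [Real.rpow_sub_one h0.ne']
    have := WW_pos hη s
    field_simp
  refine jet1_of_deriv (G' := fun s => k * (τ * wp η s ^ k) / WW η s)
    (Eventually.of_forall hd) ?_
  have hW := WW_pos hη t
  have h2 := ((hd t).const_mul k).div (hasDerivAt_WW hη t) hW.ne'
  refine h2.congr_deriv ?_
  field_simp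

/-- The function describing the receding front. -/
noncomputable def sf (P ν : E n) (A t : ℝ) (X : E n) : ℝ :=
  -inner ℝ ν (X - P) + A * ‖X - P‖ ^ 2 + t

theorem jet_sf (P ν : E n) (A t : ℝ) (X₀ : E n) :
    Jet (sf P ν A t) X₀ (fun v => inner ℝ (-ν + (2 * A) • (X₀ - P)) v)
      (fun v => (2 * A) * ‖v‖ ^ 2) := by
  have h := ((((jet_inner ν (X₀ - P)).const_mul (-1)).add
    ((jet_norm_sq (X₀ - P)).const_mul A)).add (jet_const t (X₀ - P))).sub_const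
  refine (h.congr_fun ?_).congr ?_ ?_
  · refine Eventually.of_forall fun X => ?_
    unfold sf
    ring
  · intro v
    rw [inner_add_left, inner_neg_left, real_inner_smul_left]
    ring
  · intro v
    ring

/-- The computation at a touching point. -/
theorem recede_no_touch (hp : 2 < p) {Ω : Set (E n)} (hΩ : IsOpen Ω) {c : ℝ}
    {e : E n} {φ : E n → ℝ} (hφc : ContinuousOn φ Ω) (hw : IsWeakSol Ω p (c • e) φ)
    {X P ν : E n} (hX : X ∈ Ω) {η τ A t k C νe : ℝ} (hη : 0 < η) (hτ : 0 < τ) (hA : 0 ≤ A)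
    (hk : k = (p - 1) / (p - 2)) (hc : 0 < c) (hνe : 0 < νe)
    (hg2 : ‖-ν + (2 * A) • (X - P)‖ ≤ 2)
    (hge : inner ℝ e (-ν + (2 * A) • (X - P)) ≤ -νe / 2)
    (hAW : A * WW η (sf P ν A t X) ≤ 2)
    (hC : C = 4 * (n + (p - 2)) * 2 ^ (p - 2) + (p - 1) * (k + 1) * 2 ^ p)
    (hτ2 : (k * τ) ^ (p - 2) * C < c * νe / 4)
    (hW2 : WW η (sf P ν A t X) / (k * (p - 2)) ≤ c * νe / 4)
    (hle : ∀ᶠ Y in 𝓝 X, φ Y ≤ τ * wp η (sf P ν A t Y) ^ k)
    (heq : φ X = τ * wp η (sf P ν A t X) ^ k) : False := by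
  have hp2 : 0 < p - 2 := by linarith
  have hp1 : 0 < p - 1 := by linarith
  have hk0 : 0 < k := by rw [hk]; positivity
  set s := sf P ν A t X with hs
  set g := -ν + (2 * A) • (X - P) with hg
  set W := WW η s with hWdef
  set w := wp η s with hwdef
  have hW : 0 < W := WW_pos hη s
  have hw0 : 0 < w := wp_pos hη s
  have hwW : w ≤ W := wp_le hη s
  have hg0 : g ≠ 0 := by
    intro h0
    rw [h0, inner_zero_right] at hge
    linarith
  have hgn : 0 < ‖g‖ := norm_pos_iff.2 hg0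
  set G0 := τ * w ^ k with hG0
  have hG00 : 0 < G0 := mul_pos hτ (Real.rpow_pos_of_pos hw0 _)
  set G1 := k * G0 / W with hG1
  set G2 := k * G0 / W ^ 2 * (k - s / W) with hG2
  have hG10 : 0 < G1 := by positivity
  have hG2le : G2 ≤ G1 * ((k + 1) / W) := by
    have h1 : -1 ≤ s / W := by
      rw [le_div_iff₀ hW]
      have := abs_lt_WW hη s
      have h2 := neg_abs_le s
      linarith
    have h2 : G2 = G1 * ((k - s / W) / W) := by
      rw [hG2, hG1]; field_simp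
    rw [h2]
    apply mul_le_mul_of_nonneg_left _ hG10.le
    apply div_le_div_of_nonneg_right _ hW.le
    linarith
  have hj := jet_sf P ν A t X
  have hj2 := hj.comp (G := fun s => τ * wp η s ^ k) (jet1_profile hη τ k (sf P ν A t X))
  have hj3 : Jet (fun Y => τ * wp η (sf P ν A t Y) ^ k) X (fun v => inner ℝ (G1 • g) v)
      (fun v => G1 * ((2 * A) * ‖v‖ ^ 2) + G2 * inner ℝ g v ^ 2) := by
    refine hj2.congr ?_ ?_
    · intro v
      simp only [real_inner_smul_left, hG1, ← hs, ← hg, ← hwdef, ← hWdef, ← hG0]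
    · intro v
      simp only [hG1, hG2, ← hs, ← hg, ← hwdef, ← hWdef, ← hG0]
  have hQ : IsQ (fun v : E n => (2 * A) * ‖v‖ ^ 2) := isQ_norm_sq.const_mul _
  have hG1g : G1 • g ≠ 0 := smul_ne_zero hG10.ne' hg0
  have hvisc := visc_jet hΩ hp hφc hw hX hG1g hj3 (fun v => rfl) (isQ_comp hQ _ _ _) hle heq
  rw [Lq_comp hQ, Lq_const_mul, Lq_norm_sq] at hvisc
  -- the powers
  have hG1p : G1 ^ (p - 2) ≤ (k * τ) ^ (p - 2) * w := by
    have e1 : G1 = (k * τ) * (w ^ k / W) := by rw [hG1, hG0]; ring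
    have e2 : (w ^ k) ^ (p - 2) = w ^ (p - 2) * w := by
      rw [← Real.rpow_mul hw0.le, ← Real.rpow_add_one hw0.ne']
      congr 1
      rw [hk]; field_simp; ring
    rw [e1, Real.mul_rpow (by positivity) (by positivity),
      Real.div_rpow (by positivity) hW.le, e2]
    apply mul_le_mul_of_nonneg_left _ (by positivity)
    rw [mul_comm, mul_div_assoc]
    apply mul_le_of_le_one_right hw0.le
    rw [div_le_one (by positivity)]
    exact Real.rpow_le_rpow hw0.le hwW hp2.le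
  have hnorm : ‖G1 • g‖ ^ (p - 4) = G1 ^ (p - 4) * ‖g‖ ^ (p - 4) := by
    rw [norm_smul, Real.norm_eq_abs, abs_of_pos hG10, Real.mul_rpow hG10.le hgn.le]
  have e3 : G1 ^ (p - 2) = G1 ^ (p - 4) * G1 ^ 2 := by
    rw [← Real.rpow_natCast G1 2, ← Real.rpow_add hG10]
    congr 1; push_cast; ring
  have e4 : ‖g‖ ^ (p - 2) = ‖g‖ ^ (p - 4) * ‖g‖ ^ 2 := by
    rw [← Real.rpow_natCast ‖g‖ 2, ← Real.rpow_add hgn]
    congr 1; push_cast; ring
  have e5 : ‖g‖ ^ p = ‖g‖ ^ (p - 4) * ‖g‖ ^ 4 := by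
    rw [← Real.rpow_natCast ‖g‖ 4, ← Real.rpow_add hgn]
    congr 1; push_cast; ring
  have e6 : ‖G1 • g‖ ^ (p - 4) * (G1 ^ 3 * (2 * A * ((n + (p - 2)) * ‖g‖ ^ 2)) +
      (p - 1) * G1 ^ 2 * G2 * ‖g‖ ^ 4) =
      G1 * (G1 ^ (p - 2) * (2 * A * (n + (p - 2)) * ‖g‖ ^ (p - 2))) +
        G2 * (G1 ^ (p - 2) * ((p - 1) * ‖g‖ ^ p)) := by
    rw [hnorm, e3, e4, e5]; ring
  rw [e6] at hvisc
  have h2p2 : ‖g‖ ^ (p - 2) ≤ 2 ^ (p - 2) := Real.rpow_le_rpow hgn.le hg2 hp2.le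
  have h2p : ‖g‖ ^ p ≤ 2 ^ p := Real.rpow_le_rpow hgn.le hg2 (by linarith)
  have hkτ : 0 < (k * τ) ^ (p - 2) := Real.rpow_pos_of_pos (by positivity) _
  have hn0 : (0:ℝ) ≤ n + (p - 2) := by positivity
  have t1 : G1 ^ (p - 2) * (2 * A * (n + (p - 2)) * ‖g‖ ^ (p - 2)) ≤
      (k * τ) ^ (p - 2) * (4 * (n + (p - 2)) * 2 ^ (p - 2)) := by
    calc G1 ^ (p - 2) * (2 * A * (n + (p - 2)) * ‖g‖ ^ (p - 2))
        ≤ ((k * τ) ^ (p - 2) * w) * (2 * A * (n + (p - 2)) * 2 ^ (p - 2)) := by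
          apply mul_le_mul hG1p _ (by positivity) (by positivity)
          exact mul_le_mul_of_nonneg_left h2p2 (by positivity)
      _ = (k * τ) ^ (p - 2) * (2 * (A * w) * (n + (p - 2)) * 2 ^ (p - 2)) := by ring
      _ ≤ (k * τ) ^ (p - 2) * (2 * 2 * (n + (p - 2)) * 2 ^ (p - 2)) := by
          have : A * w ≤ 2 := (mul_le_mul_of_nonneg_left hwW hA).trans hAW
          gcongr
      _ = _ := by ring
  have t2 : G2 * (G1 ^ (p - 2) * ((p - 1) * ‖g‖ ^ p)) ≤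
      G1 * ((k * τ) ^ (p - 2) * ((p - 1) * (k + 1) * 2 ^ p)) := by
    calc G2 * (G1 ^ (p - 2) * ((p - 1) * ‖g‖ ^ p))
        ≤ (G1 * ((k + 1) / W)) * (G1 ^ (p - 2) * ((p - 1) * ‖g‖ ^ p)) :=
          mul_le_mul_of_nonneg_right hG2le (by positivity)
      _ ≤ (G1 * ((k + 1) / W)) * (((k * τ) ^ (p - 2) * w) * ((p - 1) * 2 ^ p)) := by
          gcongr
      _ = G1 * ((k * τ) ^ (p - 2) * ((p - 1) * (k + 1) * 2 ^ p)) * (w / W) := by
          field_simp
      _ ≤ _ := by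
          apply mul_le_of_le_one_right (by positivity)
          rw [div_le_one hW]
          exact hwW
  have t3 : inner ℝ (c • e) (G1 • g) ≤ G1 * (-(c * νe / 2)) := by
    rw [real_inner_smul_left, real_inner_smul_right]
    have : c * inner ℝ e g ≤ c * (-νe / 2) := mul_le_mul_of_nonneg_left hge hc.le
    have h2 := mul_le_mul_of_nonneg_left this hG10.le
    linarith
  have t4 : G0 / (p - 2) ≤ G1 * (c * νe / 4) := by
    have : G0 / (p - 2) = G1 * (W / (k * (p - 2))) := by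
      rw [hG1]; field_simp
    rw [this]
    exact mul_le_mul_of_nonneg_left hW2 hG10.le
  have t5 : G1 * (G1 ^ (p - 2) * (2 * A * (n + (p - 2)) * ‖g‖ ^ (p - 2))) ≤
      G1 * ((k * τ) ^ (p - 2) * (4 * (n + (p - 2)) * 2 ^ (p - 2))) :=
    mul_le_mul_of_nonneg_left t1 hG10.le
  have t6 : G1 * ((k * τ) ^ (p - 2) * C) < G1 * (c * νe / 4) :=
    mul_lt_mul_of_pos_left hτ2 hG10
  rw [hC] at t6
  have t7 : G1 * ((k * τ) ^ (p - 2) * (4 * (n + (p - 2)) * 2 ^ (p - 2) +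
      (p - 1) * (k + 1) * 2 ^ p)) =
      G1 * ((k * τ) ^ (p - 2) * (4 * (n + (p - 2)) * 2 ^ (p - 2))) +
      G1 * ((k * τ) ^ (p - 2) * ((p - 1) * (k + 1) * 2 ^ p)) := by ring
  rw [t7] at t6
  have hvisc' : 0 ≤ G1 * (G1 ^ (p - 2) * (2 * A * (n + (p - 2)) * ‖g‖ ^ (p - 2))) +
        G2 * (G1 ^ (p - 2) * ((p - 1) * ‖g‖ ^ p)) + inner ℝ (c • e) (G1 • g) +
        G0 / (p - 2) := hvisc
  linarith

end Run7.h845
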