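import Pool.Agent.Run7.h845.Recede

/-!
# Vanishing near a point of fast growth
-/

set_option autoImplicit false

open MeasureTheory Set Filter Topology Asymptotics
open scoped ENNReal NNReal ContDiff

namespace Run7.h845

open Pool.Agent.R525.MS

variable {n : ℕ} {p : ℝ}

theorem exists_tau {k C x : ℝ} (hp : 2 < p) (hk : 0 < k) (hC : 0 < C) (hx : 0 < x) :
    ∃ τ : ℝ, 0 < τ ∧ (k * τ) ^ (p - 2) * C < x := by
  have hp2 : 0 < p - 2 := by linarith
  refine ⟨(x / (2 * C)) ^ (1 / (p - 2)) / k, by positivity, ?_⟩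
  have e1 : k * ((x / (2 * C)) ^ (1 / (p - 2)) / k) = (x / (2 * C)) ^ (1 / (p - 2)) := by
    field_simp
  rw [e1, ← Real.rpow_mul (by positivity), one_div, inv_mul_cancel₀ hp2.ne', Real.rpow_one]
  have : x / (2 * C) * C = x / 2 := by field_simp
  rw [this]; linarith

theorem exists_small {q x : ℝ} (hq : 0 < q) (hx : 0 < x) (R : ℝ) (hR : 0 < R) :
    ∃ ρ : ℝ, 0 < ρ ∧ ρ ≤ R ∧ ρ ^ q < x := by
  refine ⟨min R ((x / 2) ^ (1 / q)), lt_min hR (by positivity), min_le_left _ _, ?_⟩
  have h1 : min R ((x / 2) ^ (1 / q)) ^ q ≤ ((x / 2) ^ (1 / q)) ^ q :=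
    Real.rpow_le_rpow (le_min hR.le (by positivity)) (min_le_right _ _) hq.le
  rw [← Real.rpow_mul (by positivity), one_div_mul_cancel hq.ne', Real.rpow_one] at h1
  linarith

theorem vanish (hp : 2 < p) {Ω : Set (E n)} (hΩ : IsOpen Ω) {c : ℝ} (hc : 0 < c) {e : E n}
    (he : ‖e‖ ≤ 1) {φ : E n → ℝ} (hφc : ContinuousOn φ (closure Ω))
    (hb : ∀ X ∈ frontier Ω, φ X = 0) (hw : IsWeakSol Ω p (c • e) φ)
    {P ν : E n} (hν : ‖ν‖ = 1) (hνe : 0 < inner ℝ e ν)
    (h2 : ∀ ε : ℝ, 0 < ε → ∀ᶠ X in 𝓝 P, X ∈ Ω → 0 < φ X →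
      inner ℝ (X - P) ν ≤ ε * ‖X - P‖)
    (hg : ∃ B k' ρ : ℝ, (p - 1) / (p - 2) < k' ∧ 0 < ρ ∧ 0 < B ∧
      ∀ X ∈ closure (posSet Ω φ), ‖X - P‖ ≤ ρ → φ X ≤ B * ‖X - P‖ ^ k') :
    ∃ ρ : ℝ, 0 < ρ ∧ ∀ X ∈ Ω, ‖X - P‖ < ρ → φ X ≤ 0 := by
  obtain ⟨B, k', ρg, hkk', hρg, hB, hgr⟩ := hg
  set νe := inner ℝ e ν with hνedef
  have hνe1 : νe ≤ 1 := by
    have h3 := (abs_le.1 (abs_real_inner_le_norm e ν)).2
    rw [hν, mul_one] at h3
    linarith
  have hp2 : 0 < p - 2 := by linarith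
  have hp1 : 0 < p - 1 := by linarith
  set k := (p - 1) / (p - 2) with hk
  have hk0 : 0 < k := by positivity
  set a := νe / 4 with ha
  have ha0 : 0 < a := by positivity
  have ha1 : a ≤ 1 / 4 := by linarith
  set C := 4 * (n + (p - 2)) * 2 ^ (p - 2) + (p - 1) * (k + 1) * 2 ^ p with hC
  have hC0 : 0 < C := by positivity
  obtain ⟨τ, hτ, hτ2⟩ := exists_tau (x := c * νe / 4) hp hk0 hC0 (by positivity)
  obtain ⟨ρ₁, hρ₁, hball⟩ := Metric.eventually_nhds_iff_ball.1 (h2 (a / 4) (by positivity))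
  -- the radius
  obtain ⟨ρ, hρ0, hρR, hρq⟩ := exists_small (q := k' - k) (x := τ * (a / 2) ^ k / B)
    (by linarith) (by positivity) (min (min (ρ₁ / 2) ρg) (c * νe * k * (p - 2) / 12))
    (lt_min (lt_min (by linarith) hρg) (by positivity))
  have hρ1 : ρ ≤ ρ₁ / 2 := hρR.trans ((min_le_left _ _).trans (min_le_left _ _))
  have hρg' : ρ ≤ ρg := hρR.trans ((min_le_left _ _).trans (min_le_right _ _))
  have hρ3 : ρ ≤ c * νe * k * (p - 2) / 12 := hρR.trans (min_le_right _ _)
  have hρB : B * ρ ^ k' < τ * (a / 2 * ρ) ^ k := by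
    have e1 : ρ ^ k' = ρ ^ (k' - k) * ρ ^ k := by
      rw [← Real.rpow_add hρ0]; congr 1; ring
    rw [e1, Real.mul_rpow (by positivity) hρ0.le]
    rw [lt_div_iff₀ hB] at hρq
    have : 0 < ρ ^ k := Real.rpow_pos_of_pos hρ0 _
    nlinarith
  set A := a / ρ with hA
  have hA0 : 0 < A := by positivity
  have hAρ : A * ρ = a := by rw [hA]; field_simp
  set S := posSet Ω φ with hS
  set K := closure S ∩ Metric.closedBall P ρ with hK
  have hKc : IsCompact K := (isCompact_closedBall P ρ).inter_left isClosed_closure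
  have hKΩ : K ⊆ closure Ω := fun X hX => closure_mono (fun y hy => hy.1) hX.1
  have hKn : ∀ X ∈ K, ‖X - P‖ ≤ ρ := by
    intro X hX
    have := hX.2
    rwa [Metric.mem_closedBall, dist_eq_norm] at this
  have hcond : ∀ X ∈ K, inner ℝ (X - P) ν ≤ a / 4 * ‖X - P‖ := by
    intro X hX
    have hCl : IsClosed {X : E n | inner ℝ (X - P) ν ≤ a / 4 * ‖X - P‖} :=
      isClosed_le (by fun_prop) (by fun_prop)
    refine closure_cond (P := P) (ρ := ρ₁) hCl ?_ X hX.1 ?_
    · intro Y hY hYb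
      exact hball Y hYb hY.1 hY.2
    · have := hX.2
      rw [Metric.mem_closedBall] at this
      rw [Metric.mem_ball]
      linarith
  have hφB : ∀ X ∈ K, φ X ≤ B * ρ ^ k' := by
    intro X hX
    refine (hgr X hX.1 ((hKn X hX).trans hρg')).trans ?_
    apply mul_le_mul_of_nonneg_left _ hB.le
    exact Real.rpow_le_rpow (norm_nonneg _) (hKn X hX) (hk0.trans hkk').le
  -- position of the front
  have hsf : ∀ X t, sf P ν A (t - a / 4 * ρ) X =
      -inner ℝ (X - P) ν + A * ‖X - P‖ ^ 2 + t - a / 4 * ρ := by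
    intro X t
    unfold sf
    rw [real_inner_comm ν (X - P)]
    ring
  have hbig : ∀ η : ℝ, 0 < η → ∀ X ∈ K, ∀ t : ℝ, a / 2 * ρ ≤ sf P ν A (t - a / 4 * ρ) X →
      φ X < τ * wp η (sf P ν A (t - a / 4 * ρ) X) ^ k := by
    intro η hη X hX t ht
    refine (hφB X hX).trans_lt (hρB.trans_le ?_)
    apply mul_le_mul_of_nonneg_left _ hτ.le
    exact Real.rpow_le_rpow (by positivity) (ht.trans (le_wp hη _)) hk0.le
  have hmain : ∀ η : ℝ, 0 < η → η ≤ ρ / 2 → ∀ X ∈ K,
      φ X < τ * wp η (sf P ν A (0 - a / 4 * ρ) X) ^ k := by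
    intro η hη hηρ
    refine sweep (Ψ := fun t X => τ * wp η (sf P ν A (t - a / 4 * ρ) X) ^ k) (b := 2 * a * ρ)
      hKc (hφc.mono hKΩ) (by positivity) ?_ ?_ ?_
    · have h3 : Continuous fun q : ℝ × E n => wp η (sf P ν A (q.1 - a / 4 * ρ) q.2) := by
        apply (continuous_wp η).comp
        unfold sf
        fun_prop
      exact (continuous_const.mul (h3.rpow_const fun q => Or.inr hk0.le)).continuousOn
    · intro X hX
      apply hbig η hη X hX
      rw [hsf]
      have h3 := hcond X hX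
      have h4 := hKn X hX
      have h5 := norm_nonneg (X - P)
      have h6 : 0 ≤ A * ‖X - P‖ ^ 2 := by positivity
      have h7 : a / 4 * ‖X - P‖ ≤ a / 4 * ρ := mul_le_mul_of_nonneg_left h4 (by positivity)
      nlinarith [mul_pos ha0 hρ0]
    · intro t ht hall X hX heq
      have h3 := hcond X hX
      have h4 := hKn X hX
      have h5 := norm_nonneg (X - P)
      have h7 : a / 4 * ‖X - P‖ ≤ a / 4 * ρ := mul_le_mul_of_nonneg_left h4 (by positivity)
      have haρ := mul_pos ha0 hρ0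
      rcases h4.lt_or_eq with h8 | h8
      · have hφpos : 0 < φ X := by
          rw [heq]
          exact mul_pos hτ (Real.rpow_pos_of_pos (wp_pos hη _) _)
        obtain ⟨hXΩ, hev⟩ := interior_touch hΩ hφc hb hX.1 h8 hφpos
        have hAx : A * ‖X - P‖ ≤ a := by
          rw [← hAρ]; exact mul_le_mul_of_nonneg_left h4 hA0.le
        have hAx2 : A * ‖X - P‖ ^ 2 ≤ a * ρ := by
          calc A * ‖X - P‖ ^ 2 = (A * ‖X - P‖) * ‖X - P‖ := by ring
            _ ≤ a * ρ := mul_le_mul hAx h4 h5 ha0.le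
        have hg2 : ‖-ν + (2 * A) • (X - P)‖ ≤ 2 := by
          refine (norm_add_le _ _).trans ?_
          rw [norm_neg, hν, norm_smul, Real.norm_eq_abs, abs_of_pos (by positivity)]
          linarith
        have hge : inner ℝ e (-ν + (2 * A) • (X - P)) ≤ -νe / 2 := by
          rw [inner_add_right, inner_neg_right, real_inner_smul_right, ← hνedef]
          have h9 := (abs_le.1 (abs_real_inner_le_norm e (X - P))).2
          have h10 : ‖e‖ * ‖X - P‖ ≤ 1 * ‖X - P‖ := mul_le_mul_of_nonneg_right he h5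
          have h11 : A * inner ℝ e (X - P) ≤ A * ‖X - P‖ :=
            mul_le_mul_of_nonneg_left (by linarith) hA0.le
          have h12 : νe = 4 * a := by rw [ha]; ring
          linarith
        have hWb : WW η (sf P ν A (t - a / 4 * ρ) X) ≤ 3 * ρ := by
          have h9 := WW_le hη (sf P ν A (t - a / 4 * ρ) X)
          have h10 : |sf P ν A (t - a / 4 * ρ) X| ≤ 2 * ρ := by
            rw [hsf, abs_le]
            have h11 := abs_le.1 (abs_real_inner_le_norm (X - P) ν)
            rw [hν, mul_one] at h11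
            have h12 : 0 ≤ A * ‖X - P‖ ^ 2 := by positivity
            have h13 : a * ρ ≤ 1 / 4 * ρ := mul_le_mul_of_nonneg_right ha1 hρ0.le
            constructor
            · linarith [h11.2, ht.1]
            · have h14 := ht.2
              linarith [h11.1]
          linarith
        refine recede_no_touch hp hΩ (hφc.mono subset_closure) hw hXΩ hη hτ hA0.le hk hc hνe hg2
          hge ?_ hC hτ2 ?_ ?_ heq
        · calc A * WW η (sf P ν A (t - a / 4 * ρ) X) ≤ A * (3 * ρ) :=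
                mul_le_mul_of_nonneg_left hWb hA0.le
            _ = 3 * a := by rw [← hAρ]; ring
            _ ≤ 2 := by linarith
        · rw [div_le_iff₀ (by positivity)]
          refine hWb.trans ?_
          have : c * νe / 4 * (k * (p - 2)) = 3 * (c * νe * k * (p - 2) / 12) := by ring
          rw [this]
          linarith
        · filter_upwards [hev] with Y hY
          exact hall Y hY
      · -- on the sphere
        have h9 : a / 2 * ρ ≤ sf P ν A (t - a / 4 * ρ) X := by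
          rw [hsf, h8]
          have h10 : A * ρ ^ 2 = a * ρ := by rw [← hAρ]; ring
          rw [h8] at h3
          have := ht.1
          linarith
        exact absurd heq (hbig η hη X hX t h9).ne
  -- conclusion
  refine ⟨a / 8 * ρ, by positivity, fun X hX hXρ => ?_⟩
  by_contra hcon
  push Not at hcon
  have ha8 : a / 8 * ρ ≤ ρ := by nlinarith
  have hXK : X ∈ K := ⟨subset_closure ⟨hX, hcon⟩, by
    rw [Metric.mem_closedBall, dist_eq_norm]; linarith⟩
  obtain ⟨η, hη0, hηρ, hηq⟩ := exists_small (q := k) (x := φ X / τ) hk0 (by positivity) (ρ / 2)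
    (by positivity)
  have h3 := hmain η hη0 hηρ X hXK
  have h4 : sf P ν A (0 - a / 4 * ρ) X ≤ 0 := by
    rw [hsf]
    have h5 := (abs_le.1 (abs_real_inner_le_norm (X - P) ν)).1
    rw [hν, mul_one] at h5
    have h6 : A * ‖X - P‖ ≤ a / 8 * a := by
      calc A * ‖X - P‖ ≤ A * (a / 8 * ρ) := mul_le_mul_of_nonneg_left hXρ.le hA0.le
        _ = a / 8 * (A * ρ) := by ring
        _ = a / 8 * a := by rw [hAρ]
    have h7 : A * ‖X - P‖ ^ 2 ≤ ‖X - P‖ := by
      have h8 : A * ‖X - P‖ ≤ 1 := by nlinarith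
      have h9 := norm_nonneg (X - P)
      calc A * ‖X - P‖ ^ 2 = (A * ‖X - P‖) * ‖X - P‖ := by ring
        _ ≤ 1 * ‖X - P‖ := mul_le_mul_of_nonneg_right h8 h9
        _ = _ := one_mul _
    linarith
  have h5 : wp η (sf P ν A (0 - a / 4 * ρ) X) ^ k ≤ η ^ k :=
    Real.rpow_le_rpow (wp_pos hη0 _).le (wp_le_of_nonpos hη0 h4) hk0.le
  rw [lt_div_iff₀ hτ] at hηq
  have h6 := mul_le_mul_of_nonneg_left h5 hτ.le
  linarith

end Run7.h845
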