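import Pool.Agent.Run7.h845.Parts

/-!
# Weak solutions cannot be touched from above by strict supersolutions
-/

set_option autoImplicit false

open MeasureTheory Set Filter Topology
open scoped ENNReal NNReal ContDiff

namespace Run7.h845

open Pool.Agent.R525.MS

variable {n : ℕ}

/-- The value of the `p`-Laplacian at a point where the gradient is `g` and the Hessian `B`. -/
noncomputable def pLap (p : ℝ) (g : E n) (B : E n →L[ℝ] E n) : ℝ :=
  ‖g‖ ^ (p - 2) * tr B + (p - 2) * ‖g‖ ^ (p - 4) * inner ℝ (B g) g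

/-- `(g, B)` is a second order superjet of `u` at `x₀`. -/
def SuperJet (u : E n → ℝ) (x₀ g : E n) (B : E n →L[ℝ] E n) : Prop :=
  ∀ ε : ℝ, 0 < ε → ∀ᶠ x in 𝓝 x₀, u x ≤ u x₀ + inner ℝ g (x - x₀) +
    (1 / 2) * inner ℝ (B (x - x₀)) (x - x₀) + ε * ‖x - x₀‖ ^ 2

theorem contDiffAt_flux {p : ℝ} {y : E n} (hy : y ≠ 0) : ContDiffAt ℝ 1 (flux p : E n → E n) y := by
  have h1 : ContDiffAt ℝ 1 (fun y : E n => ‖y‖ ^ (p - 2)) y :=
    (contDiffAt_norm ℝ hy).rpow_const_of_ne (norm_ne_zero_iff.2 hy)
  have h2 := h1.smul (contDiffAt_id (𝕜 := ℝ) (n := 1) (x := y))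
  exact h2

theorem fderiv_flux {p : ℝ} {y : E n} (hy : y ≠ 0) (v : E n) :
    fderiv ℝ (flux p : E n → E n) y v =
      ‖y‖ ^ (p - 2) • v + ((p - 2) * ‖y‖ ^ (p - 4) * inner ℝ y v) • y := by
  have hn : 0 < ‖y‖ := norm_pos_iff.2 hy
  have h0 : HasFDerivAt (fun y : E n => ‖y‖ ^ 2) (2 • innerSL ℝ y) y :=
    (hasStrictFDerivAt_norm_sq y).hasFDerivAt
  have h1 : HasFDerivAt (fun y : E n => (‖y‖ ^ 2) ^ ((p - 2) / 2))
      ((((p - 2) / 2) * (‖y‖ ^ 2) ^ ((p - 2) / 2 - 1)) • (2 • innerSL ℝ y)) y :=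
    h0.rpow_const (Or.inl (by positivity))
  have e1 : (fun y : E n => (‖y‖ ^ 2) ^ ((p - 2) / 2)) = fun y => ‖y‖ ^ (p - 2) := by
    ext z
    rw [← Real.rpow_natCast, ← Real.rpow_mul (norm_nonneg _)]
    congr 1; push_cast; ring
  have e2 : (‖y‖ ^ 2) ^ ((p - 2) / 2 - 1) = ‖y‖ ^ (p - 4) := by
    rw [← Real.rpow_natCast, ← Real.rpow_mul (norm_nonneg _)]
    congr 1; push_cast; ring
  rw [e1, e2] at h1
  have h2 := h1.smul (hasFDerivAt_id y)
  have h3 : HasFDerivAt (flux p : E n → E n) _ y := h2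
  rw [h3.fderiv]
  simp
  congr 1
  ring

theorem tr_comp {p : ℝ} {y : E n} (hy : y ≠ 0) (B : E n →L[ℝ] E n)
    (hB : ∀ x y, inner ℝ (B x) y = inner ℝ x (B y)) :
    tr ((fderiv ℝ (flux p : E n → E n) y).comp B) = pLap p y B := by
  unfold tr pLap
  have h : ∀ i, inner ℝ (((fderiv ℝ (flux p : E n → E n) y).comp B) (bs n i)) (bs n i) =
      ‖y‖ ^ (p - 2) * inner ℝ (B (bs n i)) (bs n i) +
        ((p - 2) * ‖y‖ ^ (p - 4)) * (inner ℝ (B y) (bs n i) * inner ℝ (bs n i) y) := by
    intro i
    rw [ContinuousLinearMap.comp_apply, fderiv_flux hy, inner_add_left, real_inner_smul_left,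
      real_inner_smul_left, ← hB y, real_inner_comm y (bs n i)]
    ring
  rw [Finset.sum_congr rfl fun i _ => h i, Finset.sum_add_distrib, ← Finset.mul_sum,
    ← Finset.mul_sum, (bs n).sum_inner_mul_inner]
  rfl

/-- The integral of the gradient of a `W_0^{1,p}` function vanishes. -/
theorem W0_int_zero {p : ℝ} (hp : 1 < p) {x₀ : E n} {δ : ℝ} {w : E n → ℝ} {k : E n → E n}
    (hw : W0 (Metric.ball x₀ δ) p w k) (v : E n) :
    ∫ x in Metric.ball x₀ δ, inner ℝ v (k x) = 0 := by
  rcases eq_or_ne v 0 with h0 | h0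
  · simp [h0]
  have hfin : IsFiniteMeasure (volume.restrict (Metric.ball x₀ δ) : Measure (E n)) :=
    ⟨by rw [Measure.restrict_apply_univ]; exact measure_ball_lt_top⟩
  have h1 := weak_ext (Ω := Metric.ball x₀ δ) hp (g := fun _ => v) (F := fun _ => 0)
    (memLp_const v) (memLp_const 0) (by
      intro φ hφ
      have h2 := int_div Metric.isOpen_ball hφ (W := fun _ => v) (fun x _ => contDiffAt_const)
      rw [integral_const_mul, h2]
      simp [tr]) hw
  simp only [zero_mul, integral_zero] at h1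
  have h3 : ∀ x, inner ℝ (flux p v) (k x) = ‖v‖ ^ (p - 2) * inner ℝ v (k x) := fun x =>
    flux_inner p v (k x)
  simp only [h3] at h1
  rw [integral_const_mul] at h1
  rcases mul_eq_zero.1 h1 with h | h
  · exact absurd h (Real.rpow_pos_of_pos (norm_pos_iff.2 h0) _).ne'
  · exact h

theorem continuous_memLp {x₀ : E n} {δ : ℝ} {F : Type*} [NormedAddCommGroup F]
    {f : E n → F} (hf : ContinuousOn f (Metric.closedBall x₀ δ)) (q : ℝ≥0∞) :
    MemLp f q (volume.restrict (Metric.ball x₀ δ)) := by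
  have hfin : IsFiniteMeasure (volume.restrict (Metric.ball x₀ δ) : Measure (E n)) :=
    ⟨by rw [Measure.restrict_apply_univ]; exact measure_ball_lt_top⟩
  obtain ⟨C, hC⟩ := (isCompact_closedBall x₀ δ).exists_bound_of_continuousOn hf
  refine MemLp.of_bound ?_ C ?_
  · exact (hf.mono Metric.ball_subset_closedBall).aestronglyMeasurable measurableSet_ball
  · filter_upwards [ae_restrict_mem measurableSet_ball] with x hx
    exact hC x (Metric.ball_subset_closedBall hx)

/-- **Weak solutions are viscosity subsolutions**, at points of nonzero gradient. -/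
theorem visc {U : Set (E n)} (hU : IsOpen U) {p : ℝ} (hp : 2 < p) {d : E n} {u : E n → ℝ}
    (hc : ContinuousOn u U) (hu : IsWeakSol U p d u) {x₀ : E n} (hx₀ : x₀ ∈ U) {g : E n}
    (hg : g ≠ 0) {B : E n →L[ℝ] E n} (hB : ∀ x y, inner ℝ (B x) y = inner ℝ x (B y))
    (hj : SuperJet u x₀ g B) :
    0 ≤ pLap p g B + inner ℝ d g + u x₀ / (p - 2) := by
  by_contra hneg
  push Not at hneg
  have hp1 : 1 < p := by linarith
  obtain ⟨G, hS, hweak⟩ := hu
  obtain ⟨r, hr, hrU, hur, hGr, f, hf, hf1, hf2⟩ := hS x₀ hx₀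
  -- choice of `ε`
  obtain ⟨ε, hε, hεneg⟩ : ∃ ε : ℝ, 0 < ε ∧
      pLap p g (B + (4 * ε) • ContinuousLinearMap.id ℝ (E n)) + inner ℝ d g + u x₀ / (p - 2) < 0
      := by
    have hcont : Continuous fun ε : ℝ =>
        pLap p g (B + (4 * ε) • ContinuousLinearMap.id ℝ (E n)) + inner ℝ d g + u x₀ / (p - 2) := by
      unfold pLap tr
      simp only [ContinuousLinearMap.add_apply, ContinuousLinearMap.smul_apply,
        ContinuousLinearMap.id_apply]
      fun_prop
    have h0 : pLap p g (B + (4 * (0:ℝ)) • ContinuousLinearMap.id ℝ (E n)) + inner ℝ d g +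
        u x₀ / (p - 2) < 0 := by
      have hz : B + (4 * (0:ℝ)) • ContinuousLinearMap.id ℝ (E n) = B := by
        apply ContinuousLinearMap.ext
        intro v
        simp
      rw [hz]; exact hneg
    have h1 := (hcont.tendsto 0).eventually (gt_mem_nhds h0)
    have h2 : ∀ᶠ ε in 𝓝[>] (0:ℝ), pLap p g (B + (4 * ε) • ContinuousLinearMap.id ℝ (E n)) +
        inner ℝ d g + u x₀ / (p - 2) < 0 := h1.filter_mono nhdsWithin_le_nhds
    obtain ⟨ε, h3, h4⟩ := (h2.and self_mem_nhdsWithin).exists
    exact ⟨ε, h4, h3⟩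
  set B' : E n →L[ℝ] E n := B + (4 * ε) • ContinuousLinearMap.id ℝ (E n) with hB'
  have hB's : ∀ x y, inner ℝ (B' x) y = inner ℝ x (B' y) := by
    intro x y
    simp only [hB', ContinuousLinearMap.add_apply, ContinuousLinearMap.smul_apply,
      ContinuousLinearMap.id_apply, inner_add_left, inner_add_right, real_inner_smul_left,
      real_inner_smul_right, hB]
  set dq : E n → E n := fun x => g + B' (x - x₀) with hdq
  have hdqc : Continuous dq := by rw [hdq]; fun_prop
  have hdq0 : dq x₀ = g := by simp [hdq]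
  -- continuity of the operator
  have hcu : ContinuousAt u x₀ := hc.continuousAt (hU.mem_nhds hx₀)
  have hRc : ContinuousAt (fun x => pLap p (dq x) B' + inner ℝ d (dq x) + u x / (p - 2)) x₀ := by
    have hn0 : ‖dq x₀‖ ≠ 0 := by rw [hdq0]; exact norm_ne_zero_iff.2 hg
    unfold pLap
    have h1 : ContinuousAt dq x₀ := hdqc.continuousAt
    have h2 : ContinuousAt (fun x => ‖dq x‖ ^ (p - 2)) x₀ := h1.norm.rpow_const (Or.inl hn0)
    have h3 : ContinuousAt (fun x => ‖dq x‖ ^ (p - 4)) x₀ := h1.norm.rpow_const (Or.inl hn0)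
    have h4 : ContinuousAt (fun x => inner ℝ (B' (dq x)) (dq x)) x₀ :=
      (B'.continuous.continuousAt.comp h1).inner h1
    have h5 : ContinuousAt (fun x => inner ℝ d (dq x)) x₀ := continuousAt_const.inner h1
    exact (((h2.mul continuousAt_const).add ((continuousAt_const.mul h3).mul h4)).add h5).add
      (hcu.div_const _)
  have hR0 : (fun x => pLap p (dq x) B' + inner ℝ d (dq x) + u x / (p - 2)) x₀ < 0 := by
    simp only [hdq0]; exact hεneg
  have ev1 := hRc.eventually (gt_mem_nhds hR0)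
  have ev2 : ∀ᶠ x in 𝓝 x₀, dq x ≠ 0 := hdqc.continuousAt.eventually_ne (by rw [hdq0]; exact hg)
  have ev3 := hj ε hε
  have ev4 : ∀ᶠ x in 𝓝 x₀, x ∈ Metric.ball x₀ r := Metric.ball_mem_nhds x₀ hr
  obtain ⟨δ, hδ, hδall⟩ : ∃ δ : ℝ, 0 < δ ∧ ∀ x ∈ Metric.closedBall x₀ δ,
      (pLap p (dq x) B' + inner ℝ d (dq x) + u x / (p - 2) < 0) ∧ dq x ≠ 0 ∧
      (u x ≤ u x₀ + inner ℝ g (x - x₀) + (1 / 2) * inner ℝ (B (x - x₀)) (x - x₀) +
        ε * ‖x - x₀‖ ^ 2) ∧ x ∈ Metric.ball x₀ r := by
    obtain ⟨δ, hδ, h⟩ := Metric.nhds_basis_closedBall.eventually_iff.1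
      (ev1.and (ev2.and (ev3.and ev4)))
    exact ⟨δ, hδ, fun x hx => h hx⟩
  set O : Set (E n) := Metric.ball x₀ δ with hO
  set μ := (volume.restrict O : Measure (E n)) with hμ
  have hOr : O ⊆ Metric.ball x₀ r := fun x hx => (hδall x (Metric.ball_subset_closedBall hx)).2.2.2
  have hOU : O ⊆ U := hOr.trans hrU
  have hfin : IsFiniteMeasure μ :=
    ⟨by rw [hμ, Measure.restrict_apply_univ]; exact measure_ball_lt_top⟩
  have hμle : μ ≤ volume.restrict (Metric.ball x₀ r) := Measure.restrict_mono hOr le_rfl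
  have huO : MemLp u (ENNReal.ofReal p) μ := hur.mono_measure hμle
  have hGO : MemLp G (ENNReal.ofReal p) μ := hGr.mono_measure hμle
  have hf1O : Tendsto (fun k => eLpNorm (fun y => f k y - u y) (ENNReal.ofReal p) μ) atTop
      (𝓝 0) :=
    tendsto_of_tendsto_of_tendsto_of_le_of_le tendsto_const_nhds hf1 (fun _ => zero_le)
      (fun k => eLpNorm_mono_measure _ hμle)
  have hf2O : Tendsto (fun k => eLpNorm (fun y => gradient (f k) y - G y) (ENNReal.ofReal p) μ)
      atTop (𝓝 0) :=
    tendsto_of_tendsto_of_tendsto_of_le_of_le tendsto_const_nhds hf2 (fun _ => zero_le)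
      (fun k => eLpNorm_mono_measure _ hμle)
  -- the comparison function
  set q : E n → ℝ := fun x => (u x₀ - ε * δ ^ 2 / 4) + inner ℝ g (x - x₀) +
    (1 / 2) * inner ℝ (B' (x - x₀)) (x - x₀) with hq
  have hqs : ContDiff ℝ ∞ q := by
    rw [hq]
    have h1 : ContDiff ℝ ∞ fun x : E n => x - x₀ := contDiff_id.sub contDiff_const
    have h2 : ContDiff ℝ ∞ fun x : E n => B' (x - x₀) := B'.contDiff.comp h1
    exact (contDiff_const.add (contDiff_const.inner ℝ h1)).add
      (contDiff_const.mul (h2.inner ℝ h1))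
  have hqd : ∀ x, HasFDerivAt q (innerSL ℝ (dq x)) x := by
    intro x
    have h1 : HasFDerivAt (fun x : E n => x - x₀) (ContinuousLinearMap.id ℝ (E n)) x :=
      (hasFDerivAt_id x).sub_const x₀
    have h2 : HasFDerivAt (fun x : E n => B' (x - x₀)) (B'.comp (ContinuousLinearMap.id ℝ (E n)))
        x := B'.hasFDerivAt.comp x h1
    have h3 := (((hasFDerivAt_const g x).inner ℝ h1).const_add (u x₀ - ε * δ ^ 2 / 4)).add
      ((h2.inner ℝ h1).const_mul (1 / 2 : ℝ))
    have h4 : HasFDerivAt q _ x := h3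
    refine h4.congr_fderiv ?_
    ext v
    simp [-map_sub, hdq, inner_add_left]
    rw [hB's v (x - x₀), real_inner_comm v (B' (x - x₀))]
    ring
  have hgq : ∀ x, gradient q x = dq x := fun x => gradient_congr_smooth (hqd x)
  -- `u - q` on the ball
  have huq : ∀ x ∈ O, u x - q x ≤ ε * δ ^ 2 / 4 - ε * ‖x - x₀‖ ^ 2 := by
    intro x hx
    have h1 := (hδall x (Metric.ball_subset_closedBall hx)).2.2.1
    have h2 : inner ℝ (B' (x - x₀)) (x - x₀) = inner ℝ (B (x - x₀)) (x - x₀) +
        4 * ε * ‖x - x₀‖ ^ 2 := by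
      simp only [hB', ContinuousLinearMap.add_apply, ContinuousLinearMap.smul_apply,
        ContinuousLinearMap.id_apply, inner_add_left, real_inner_smul_left,
        real_inner_self_eq_norm_sq]
    simp only [hq]
    rw [h2]
    linarith
  -- the cut-off
  let χb : ContDiffBump x₀ := ⟨5 * δ / 8, 7 * δ / 8, by positivity, by linarith⟩
  set χ : E n → ℝ := fun x => χb x with hχ
  have hχt : IsTest O χ := by
    refine ⟨χb.contDiff, χb.hasCompactSupport, ?_⟩
    rw [hχ, χb.tsupport_eq]
    exact Metric.closedBall_subset_ball (by change 7 * δ / 8 < δ; linarith)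
  have hχ0 : ∀ x, 0 ≤ χ x := fun x => χb.nonneg
  have hχg : ∀ x ∈ O, 0 < u x - q x → gradient χ x = 0 := by
    intro x hx hpos
    have h1 := huq x hx
    have h2 : ‖x - x₀‖ ^ 2 < (5 * δ / 8) ^ 2 := by
      have : ε * ‖x - x₀‖ ^ 2 < ε * (δ ^ 2 / 4) := by linarith
      have := lt_of_mul_lt_mul_left this hε.le
      nlinarith
    have h3 : ‖x - x₀‖ < 5 * δ / 8 := lt_of_pow_lt_pow_left₀ 2 (by positivity) h2
    have h4 : χ =ᶠ[𝓝 x] fun _ => 1 := by
      have : Metric.ball x₀ (5 * δ / 8) ∈ 𝓝 x :=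
        Metric.isOpen_ball.mem_nhds (by rw [Metric.mem_ball, dist_eq_norm]; exact h3)
      filter_upwards [this] with y hy
      exact χb.one_of_mem_closedBall (Metric.ball_subset_closedBall hy)
    unfold gradient
    rw [h4.fderiv_eq]
    simp
  -- the two truncations
  have hW := W0_cut hp1 huO hGO hf hf1O hf2O hqs hχt cut_eta
  have hWH := W0_cut hp1 huO hGO hf hf1O hf2O hqs hχt cut_Heta
  set w : E n → ℝ := fun x => χ x * eta (u x - q x) with hw
  set k : E n → E n := fun x => (χ x * deta (u x - q x)) • (G x - gradient q x) +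
    eta (u x - q x) • gradient χ x with hk
  have hw0 : ∀ x, 0 ≤ w x := fun x => mul_nonneg (hχ0 x) (expNegInvGlue.nonneg _)
  have hkO : ∀ x ∈ O, k x = (χ x * deta (u x - q x)) • (G x - dq x) := by
    intro x hx
    simp only [hk]
    rw [hgq]
    rcases le_or_gt (u x - q x) 0 with h | h
    · rw [show eta (u x - q x) = 0 from expNegInvGlue.zero_of_nonpos h]; simp
    · rw [hχg x hx h]; simp
  -- weak formulation for `u` on the ball
  have hpp : ENNReal.ofReal (p / (p - 1)) ≤ ENNReal.ofReal p := by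
    apply ENNReal.ofReal_le_ofReal
    rw [div_le_iff₀ (by linarith)]
    nlinarith
  set F : E n → ℝ := fun x => inner ℝ d (G x) + u x / (p - 2) with hF
  have hFp : MemLp F (ENNReal.ofReal p) μ := by
    have h1 : MemLp (fun x => inner ℝ d (G x)) (ENNReal.ofReal p) μ := by
      refine MemLp.of_le_mul (c := ‖d‖) hGO (aestronglyMeasurable_const.inner hGO.1)
        (Eventually.of_forall fun x => ?_)
      exact norm_inner_le_norm d (G x)
    have h2 : MemLp (fun x => u x / (p - 2)) (ENNReal.ofReal p) μ := by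
      simpa [div_eq_mul_inv] using huO.mul_const (p - 2)⁻¹
    exact h1.add h2
  have hFq : MemLp F (ENNReal.ofReal (p / (p - 1))) μ := hFp.mono_exponent hpp
  have hweakO : ∀ φ : E n → ℝ, IsTest O φ →
      ∫ x in O, ‖G x‖ ^ (p - 2) * inner ℝ (G x) (gradient φ x) = ∫ x in O, F x * φ x := by
    intro φ hφ
    have hφU : IsTest U φ := ⟨hφ.1, hφ.2.1, hφ.2.2.trans hOU⟩
    have h1 := hweak φ hφU
    rw [setIntegral_eq_integral_of_forall_compl_eq_zero
      (fun x hx => by rw [hφU.gradient_zero_off hx]; simp),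
      setIntegral_eq_integral_of_forall_compl_eq_zero
      (fun x hx => by rw [hφU.zero_off hx]; simp)] at h1
    rw [setIntegral_eq_integral_of_forall_compl_eq_zero
      (fun x hx => by rw [hφ.gradient_zero_off hx]; simp),
      setIntegral_eq_integral_of_forall_compl_eq_zero
      (fun x hx => by rw [hφ.zero_off hx]; simp)]
    exact h1
  have e1 := weak_ext hp1 hGO hFq hweakO hW
  -- weak formulation for `q`
  have hdqne : ∀ x ∈ Metric.closedBall x₀ δ, dq x ≠ 0 := fun x hx => (hδall x hx).2.1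
  have hdqp : ∀ s : ℝ≥0∞, MemLp dq s μ := fun s => continuous_memLp hdqc.continuousOn s
  set Fq : E n → ℝ := fun x => - pLap p (dq x) B' with hFqd
  have hpc : ContinuousOn (fun x => pLap p (dq x) B') (Metric.closedBall x₀ δ) := by
    unfold pLap
    have h2 : ContinuousOn (fun x => ‖dq x‖ ^ (p - 2)) (Metric.closedBall x₀ δ) :=
      hdqc.norm.continuousOn.rpow_const (fun x hx => Or.inl (norm_ne_zero_iff.2 (hdqne x hx)))
    have h3 : ContinuousOn (fun x => ‖dq x‖ ^ (p - 4)) (Metric.closedBall x₀ δ) :=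
      hdqc.norm.continuousOn.rpow_const (fun x hx => Or.inl (norm_ne_zero_iff.2 (hdqne x hx)))
    have h4 : Continuous (fun x => inner ℝ (B' (dq x)) (dq x)) :=
      (B'.continuous.comp hdqc).inner hdqc
    exact (h2.mul continuousOn_const).add ((continuousOn_const.mul h3).mul h4.continuousOn)
  have hFqL : MemLp Fq (ENNReal.ofReal (p / (p - 1))) μ := continuous_memLp hpc.neg _
  have hWc : ∀ x ∈ O, ContDiffAt ℝ 1 (fun y => flux p (dq y)) x := by
    intro x hx
    have h1 : ContDiff ℝ 1 dq := by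
      rw [hdq]
      exact contDiff_const.add (B'.contDiff.comp (contDiff_id.sub contDiff_const))
    exact (contDiffAt_flux (hdqne x (Metric.ball_subset_closedBall hx))).comp x h1.contDiffAt
  have hdd : ∀ x, HasFDerivAt dq B' x := by
    intro x
    have h1 : HasFDerivAt (fun x : E n => x - x₀) (ContinuousLinearMap.id ℝ (E n)) x :=
      (hasFDerivAt_id x).sub_const x₀
    have h2 : HasFDerivAt (fun x : E n => B' (x - x₀)) (B'.comp (ContinuousLinearMap.id ℝ (E n)))
        x := B'.hasFDerivAt.comp x h1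
    have h3 : HasFDerivAt dq (B'.comp (ContinuousLinearMap.id ℝ (E n))) x := h2.const_add g
    simpa using h3
  have hweakq : ∀ φ : E n → ℝ, IsTest O φ →
      ∫ x in O, ‖dq x‖ ^ (p - 2) * inner ℝ (dq x) (gradient φ x) = ∫ x in O, Fq x * φ x := by
    intro φ hφ
    have h1 := int_div Metric.isOpen_ball hφ hWc
    have h2 : ∀ x ∈ O, tr (fderiv ℝ (fun y => flux p (dq y)) x) = pLap p (dq x) B' := by
      intro x hx
      have hx' := hdqne x (Metric.ball_subset_closedBall hx)
      have h3 : HasFDerivAt (fun y => flux p (dq y)) ((fderiv ℝ (flux p) (dq x)).comp B') x :=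
        ((contDiffAt_flux hx').differentiableAt (by norm_num)).hasFDerivAt.comp x (hdd x)
      rw [h3.fderiv, tr_comp hx' B' hB's]
    calc ∫ x in O, ‖dq x‖ ^ (p - 2) * inner ℝ (dq x) (gradient φ x)
        = ∫ x in O, inner ℝ (flux p (dq x)) (gradient φ x) := by
          apply setIntegral_congr_fun measurableSet_ball
          intro x _
          simp only [flux_inner]
      _ = - ∫ x in O, tr (fderiv ℝ (fun y => flux p (dq y)) x) * φ x := h1
      _ = - ∫ x in O, pLap p (dq x) B' * φ x := by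
          congr 1
          apply setIntegral_congr_fun measurableSet_ball
          intro x hx
          simp only [h2 x hx]
      _ = ∫ x in O, Fq x * φ x := by
          rw [← integral_neg]
          apply setIntegral_congr_fun measurableSet_ball
          intro x _
          simp only [hFqd]
          ring
  have e2 := weak_ext hp1 (hdqp _) hFqL hweakq hW
  -- the transport term
  have e3 := W0_int_zero hp1 hWH d
  have e3' : ∫ x in O, w x * inner ℝ d (G x - dq x) = 0 := by
    rw [← e3]
    apply setIntegral_congr_fun measurableSet_ball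
    intro x hx
    simp only
    rw [hgq]
    rcases le_or_gt (u x - q x) 0 with h | h
    · rw [cut_Heta.zero _ h]
      simp only [hw]
      rw [show eta (u x - q x) = 0 from expNegInvGlue.zero_of_nonpos h]
      simp
    · rw [hχg x hx h]
      simp only [hw, smul_zero, add_zero, real_inner_smul_right]
  -- integrability
  have iw : MemLp w (ENNReal.ofReal p) μ := hW.1
  have f1 := fact1 hp1
  have f2 := fact2 hp1
  have f3 := conj' hp1
  have i1 : Integrable (fun x => inner ℝ (flux p (G x)) (k x)) μ :=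
    integrable_inner' hp1 (memLp_flux hp1 hGO) hW.2.1
  have i2 : Integrable (fun x => inner ℝ (flux p (dq x)) (k x)) μ :=
    integrable_inner' hp1 (memLp_flux hp1 (hdqp _)) hW.2.1
  have i3 : Integrable (fun x => F x * w x) μ := hFq.integrable_mul iw
  have i4 : Integrable (fun x => Fq x * w x) μ := hFqL.integrable_mul iw
  have i5 : Integrable (fun x => w x * inner ℝ d (G x - dq x)) μ := by
    have h1 : MemLp (fun x => inner ℝ d (G x - dq x)) (ENNReal.ofReal p) μ := by
      refine MemLp.of_le_mul (c := ‖d‖) (hGO.sub (hdqp _))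
        (aestronglyMeasurable_const.inner (hGO.1.sub (hdqp (ENNReal.ofReal p)).1))
        (Eventually.of_forall fun x => ?_)
      exact norm_inner_le_norm d (G x - dq x)
    have h2 := (h1.mono_exponent hpp).integrable_mul iw
    exact h2.congr (Eventually.of_forall fun x => by simp [mul_comm])
  -- the left-hand side is nonnegative
  have hL : 0 ≤ ∫ x in O, (inner ℝ (flux p (G x)) (k x) - inner ℝ (flux p (dq x)) (k x)) := by
    apply setIntegral_nonneg measurableSet_ball
    intro x hx
    rw [hkO x hx, real_inner_smul_right, real_inner_smul_right, ← mul_sub]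
    exact mul_nonneg (mul_nonneg (hχ0 x) (deta_nonneg _)) (flux_mono hp1 _ _)
  -- the right-hand side
  set R : E n → ℝ := fun x => pLap p (dq x) B' + inner ℝ d (dq x) + u x / (p - 2) with hR
  have hRint : ∫ x in O, (inner ℝ (flux p (G x)) (k x) - inner ℝ (flux p (dq x)) (k x)) =
      ∫ x in O, R x * w x := by
    have i34 : Integrable (fun x => F x * w x - Fq x * w x) μ := i3.sub i4
    have s1 : ∫ x in O, ((F x * w x - Fq x * w x) - w x * inner ℝ d (G x - dq x)) =
        (∫ x in O, (F x * w x - Fq x * w x)) - ∫ x in O, w x * inner ℝ d (G x - dq x) :=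
      integral_sub i34 i5
    have s2 : ∫ x in O, R x * w x =
        ∫ x in O, ((F x * w x - Fq x * w x) - w x * inner ℝ d (G x - dq x)) := by
      apply setIntegral_congr_fun measurableSet_ball
      intro x _
      simp only [hF, hFqd, hR, inner_sub_right]
      ring
    rw [s2, s1, e3', sub_zero, integral_sub i1 i2, e1, e2, ← integral_sub i3 i4]
  have iR : Integrable (fun x => R x * w x) μ := by
    refine ((i3.sub i4).sub i5).congr (Eventually.of_forall fun x => ?_)
    simp only [Pi.sub_apply, hF, hFqd, hR, inner_sub_right]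
    ring
  have hRneg : ∀ x ∈ O, R x < 0 := fun x hx => (hδall x (Metric.ball_subset_closedBall hx)).1
  have hzero : ∫ x in O, -(R x * w x) = 0 := by
    apply le_antisymm
    · rw [integral_neg]; linarith
    · apply setIntegral_nonneg measurableSet_ball
      intro x hx
      have h0 := mul_nonpos_of_nonpos_of_nonneg (hRneg x hx).le (hw0 x)
      linarith
  have hnn : 0 ≤ᵐ[volume.restrict O] fun x => -(R x * w x) := by
    filter_upwards [ae_restrict_mem measurableSet_ball] with x hx
    have h0 := mul_nonpos_of_nonpos_of_nonneg (hRneg x hx).le (hw0 x)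
    simp only [Pi.zero_apply]
    linarith
  have hae := (setIntegral_eq_zero_iff_of_nonneg_ae (s := O) hnn iR.neg).1 hzero
  -- but the integrand is positive near the centre
  have hpos : ∀ᶠ x in 𝓝 x₀, x ∈ O ∧ 0 < -(R x * w x) := by
    have h1 : ∀ᶠ x in 𝓝 x₀, x ∈ O := Metric.ball_mem_nhds x₀ hδ
    have h2 : ∀ᶠ x in 𝓝 x₀, 0 < u x - q x := by
      have hc2 : ContinuousAt (fun x => u x - q x) x₀ := hcu.sub hqs.continuous.continuousAt
      apply hc2.eventually (lt_mem_nhds _)
      simp only [hq, sub_self, map_zero, inner_zero_right, mul_zero, add_zero]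
      have : 0 < ε * δ ^ 2 / 4 := by positivity
      linarith
    have h3 : ∀ᶠ x in 𝓝 x₀, x ∈ Metric.ball x₀ (5 * δ / 8) :=
      Metric.ball_mem_nhds x₀ (by positivity)
    filter_upwards [h1, h2, h3] with x hx1 hx2 hx3
    refine ⟨hx1, ?_⟩
    have h4 : χ x = 1 := χb.one_of_mem_closedBall (Metric.ball_subset_closedBall hx3)
    have h5 : 0 < eta (u x - q x) := expNegInvGlue.pos_of_pos hx2
    have h6 := hRneg x hx1
    have h7 : 0 < w x := by
      simp only [hw, h4, one_mul]
      exact h5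
    have h8 := mul_neg_of_neg_of_pos h6 h7
    linarith
  obtain ⟨V, hV, hVo, hxV⟩ := eventually_nhds_iff.1 hpos
  have hVpos : 0 < volume V := hVo.measure_pos volume ⟨x₀, hxV⟩
  have hVO : V ⊆ O := fun x hx => (hV x hx).1
  have hae' : ∀ᵐ x ∂volume, x ∈ O → -(R x * w x) = 0 := by
    have := (ae_restrict_iff' measurableSet_ball).1 hae
    exact this
  have hnull : volume V = 0 := by
    apply measure_mono_null _ (ae_iff.1 hae')
    intro x hx
    simp only [mem_setOf_eq, Classical.not_imp]
    exact ⟨hVO hx, (hV x hx).2.ne'⟩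
  exact hVpos.ne' hnull

end Run7.h845
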