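import Pool.Agent.Run7.h845.Polar
import Pool.Agent.Run7.h845.QForm

/-!
# The wedge barrier: the computation at a point
-/

set_option autoImplicit false

open MeasureTheory Set Filter Topology Asymptotics
open scoped ENNReal NNReal ContDiff

namespace Run7.h845

open Pool.Agent.R525.MS

variable {n : ℕ} {p κ γ : ℝ}

/-- Radial direction. -/
noncomputable def aR (a b : E n) (θ : ℝ) : E n := Real.cos θ • a + Real.sin θ • b

/-- Angular direction. -/
noncomputable def aT (a b : E n) (θ : ℝ) : E n := (-Real.sin θ) • a + Real.cos θ • b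

/-- Direction of the gradient. -/
noncomputable def wW (a b : E n) (θ t : ℝ) : E n :=
  Real.cos (θ - t) • a + Real.sin (θ - t) • b

theorem wW_eq (a b : E n) (θ t : ℝ) :
    wW a b θ t = Real.cos t • aR a b θ - Real.sin t • aT a b θ := by
  unfold wW aR aT
  rw [Real.cos_sub, Real.sin_sub]
  module

/-- The principal quadratic form. -/
noncomputable def MM (p : ℝ) (a b : E n) (θ t : ℝ) (v : E n) : ℝ :=
  Real.cos t * inner ℝ (aR a b θ) v ^ 2 -
    2 * Real.sin t * (inner ℝ (aR a b θ) v * inner ℝ (aT a b θ) v) -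
    KK p t * inner ℝ (aT a b θ) v ^ 2

theorem isQ_MM (a b : E n) (θ t : ℝ) : IsQ (MM p a b θ t) := by
  refine ((((isQ_mul (aR a b θ) (aR a b θ)).const_mul (Real.cos t)).add
    ((isQ_mul (aR a b θ) (aT a b θ)).const_mul (-2 * Real.sin t))).add
    ((isQ_mul (aT a b θ) (aT a b θ)).const_mul (-KK p t))).congr fun v => ?_
  unfold MM
  ring

theorem Lq_MM (a b g : E n) (θ t : ℝ) : Lq p g (MM p a b θ t) =
    Real.cos t * (‖g‖ ^ 2 * ‖aR a b θ‖ ^ 2 + (p - 2) * inner ℝ (aR a b θ) g ^ 2) -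
    2 * Real.sin t * (‖g‖ ^ 2 * inner ℝ (aR a b θ) (aT a b θ) +
      (p - 2) * (inner ℝ (aR a b θ) g * inner ℝ (aT a b θ) g)) -
    KK p t * (‖g‖ ^ 2 * ‖aT a b θ‖ ^ 2 + (p - 2) * inner ℝ (aT a b θ) g ^ 2) := by
  have e : MM p a b θ t = fun v => (Real.cos t * inner ℝ (aR a b θ) v ^ 2 +
      (-2 * Real.sin t) * (inner ℝ (aR a b θ) v * inner ℝ (aT a b θ) v)) +
      (-KK p t) * inner ℝ (aT a b θ) v ^ 2 := by
    ext v; unfold MM; ring
  rw [e, Lq_add, Lq_add, Lq_const_mul, Lq_const_mul, Lq_const_mul, Lq_sq, Lq_sq, Lq_mul]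
  ring

theorem continuous_KK (hp : 2 < p) : Continuous (KK p) := by
  unfold KK
  exact Continuous.div (by fun_prop) continuous_num fun t => by
    have := num_ge hp t
    linarith

/-- The crucial identity: the function is `p`-harmonic when the frame is orthonormal. -/
theorem Lq_MM_zero (hp : 2 < p) {a b : E n} (ha : ‖a‖ = 1) (hb : ‖b‖ = 1)
    (hab : inner ℝ a b = (0:ℝ)) (θ t : ℝ) : Lq p (wW a b θ t) (MM p a b θ t) = 0 := by
  have hba : inner ℝ b a = (0:ℝ) := by rw [real_inner_comm]; exact hab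
  have haa : inner ℝ a a = (1:ℝ) := by rw [real_inner_self_eq_norm_sq, ha]; norm_num
  have hbb : inner ℝ b b = (1:ℝ) := by rw [real_inner_self_eq_norm_sq, hb]; norm_num
  have hsc := Real.sin_sq_add_cos_sq θ
  have hsc' := Real.sin_sq_add_cos_sq t
  have e1 : ‖aR a b θ‖ ^ 2 = 1 := by
    rw [← real_inner_self_eq_norm_sq]
    unfold aR
    simp only [inner_add_left, inner_add_right, real_inner_smul_left, real_inner_smul_right,
      haa, hbb, hab, hba]
    linear_combination hsc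
  have e2 : ‖aT a b θ‖ ^ 2 = 1 := by
    rw [← real_inner_self_eq_norm_sq]
    unfold aT
    simp only [inner_add_left, inner_add_right, real_inner_smul_left, real_inner_smul_right,
      haa, hbb, hab, hba]
    linear_combination hsc
  have e3 : inner ℝ (aR a b θ) (aT a b θ) = (0:ℝ) := by
    unfold aR aT
    simp only [inner_add_left, inner_add_right, real_inner_smul_left, real_inner_smul_right,
      haa, hbb, hab, hba]
    ring
  have e3' : inner ℝ (aT a b θ) (aR a b θ) = (0:ℝ) := by rw [real_inner_comm]; exact e3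
  have e4 : inner ℝ (aR a b θ) (wW a b θ t) = Real.cos t := by
    rw [wW_eq, inner_sub_right, real_inner_smul_right, real_inner_smul_right, e3,
      real_inner_self_eq_norm_sq, e1]
    ring
  have e5 : inner ℝ (aT a b θ) (wW a b θ t) = -Real.sin t := by
    rw [wW_eq, inner_sub_right, real_inner_smul_right, real_inner_smul_right, e3',
      real_inner_self_eq_norm_sq, e2]
    ring
  have e6 : ‖wW a b θ t‖ ^ 2 = 1 := by
    rw [← real_inner_self_eq_norm_sq]
    nth_rw 1 [wW_eq]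
    rw [inner_sub_left, real_inner_smul_left, real_inner_smul_left, e4, e5]
    linear_combination hsc'
  rw [Lq_MM, e1, e2, e3, e4, e5, e6]
  have hnum := num_eq (p := p) t
  have hn1 := num_ge hp t
  unfold KK
  have hn0 : num p t ≠ 0 := by linarith
  field_simp
  rw [hnum]
  have hc2 : Real.cos t ^ 2 = 1 - Real.sin t ^ 2 := by linarith
  have hc3 : Real.cos t ^ 3 = Real.cos t * (1 - Real.sin t ^ 2) := by rw [← hc2]; ring
  ring_nf
  simp only [hc3]
  ring

theorem continuous_aR (b : E n) : Continuous fun z : E n × ℝ => aR z.1 b z.2 := by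
  unfold aR; fun_prop

theorem continuous_aT (b : E n) : Continuous fun z : E n × ℝ => aT z.1 b z.2 := by
  unfold aT; fun_prop

theorem continuous_wW (b : E n) : Continuous fun z : E n × (ℝ × ℝ) => wW z.1 b z.2.1 z.2.2 := by
  unfold wW; fun_prop

theorem continuous_PP (hp : 2 < p) (b : E n) : Continuous fun z : E n × (ℝ × ℝ) =>
    Lq p (wW z.1 b z.2.1 z.2.2) (MM p z.1 b z.2.1 z.2.2) := by
  have h1 := continuous_wW b
  have h2 : Continuous fun z : E n × (ℝ × ℝ) => aR z.1 b z.2.1 :=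
    (continuous_aR b).comp (f := fun z : E n × (ℝ × ℝ) => (z.1, z.2.1)) (by fun_prop)
  have h3 : Continuous fun z : E n × (ℝ × ℝ) => aT z.1 b z.2.1 :=
    (continuous_aT b).comp (f := fun z : E n × (ℝ × ℝ) => (z.1, z.2.1)) (by fun_prop)
  have h4 : Continuous fun z : E n × (ℝ × ℝ) => KK p z.2.2 :=
    (continuous_KK hp).comp (by fun_prop)
  have h5 := h2.inner (𝕜 := ℝ) h1
  have h6 := h3.inner (𝕜 := ℝ) h1
  have h7 := h2.inner (𝕜 := ℝ) h3
  have hc : Continuous fun z : E n × (ℝ × ℝ) => Real.cos z.2.2 := by fun_prop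
  have hs : Continuous fun z : E n × (ℝ × ℝ) => Real.sin z.2.2 := by fun_prop
  have e : (fun z : E n × (ℝ × ℝ) =>
      Lq p (wW z.1 b z.2.1 z.2.2) (MM p z.1 b z.2.1 z.2.2)) = fun z => _ :=
    funext fun z => Lq_MM z.1 b (wW z.1 b z.2.1 z.2.2) z.2.1 z.2.2
  rw [e]
  exact ((hc.mul (((h1.norm.pow 2).mul (h2.norm.pow 2)).add (continuous_const.mul (h5.pow 2)))).sub
    ((continuous_const.mul hs).mul (((h1.norm.pow 2).mul h7).add
      (continuous_const.mul (h5.mul h6))))).sub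
    (h4.mul (((h1.norm.pow 2).mul (h3.norm.pow 2)).add (continuous_const.mul (h6.pow 2))))

/-- The smallness of the perturbation. -/
theorem exists_eps (hp : 2 < p) (hκ : 1 < κ) (hγ : γ < 1) {a b : E n} (ha : ‖a‖ = 1)
    (hb : ‖b‖ = 1) (hab : inner ℝ a b = (0:ℝ)) {η : ℝ} (hη : 0 < η) (A : ℝ) :
    ∃ ε : ℝ, 0 < ε ∧ ε ≤ η ∧ ∀ a' : E n, ‖a' - a‖ ≤ ε →
      ∀ θ ∈ Icc (-(Real.pi / 2)) (Real.pi / 2), ∀ t ∈ Icc (-(Real.pi / 2)) (Real.pi / 2),
      (κ - 1) * Lq p (wW a' b θ t) (MM p a' b θ t) + ε * A * ‖wW a' b θ t‖ ^ 2 <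
        (p - 1) * (1 - γ) * κ * ‖wW a' b θ t‖ ^ 4 := by
  set K : Set (ℝ × ℝ) := Icc (-(Real.pi / 2)) (Real.pi / 2) ×ˢ Icc (-(Real.pi / 2)) (Real.pi / 2)
    with hK
  have hKc : IsCompact K := isCompact_Icc.prod isCompact_Icc
  set Q : (ℝ × E n) × (ℝ × ℝ) → ℝ := fun z =>
    (κ - 1) * Lq p (wW z.1.2 b z.2.1 z.2.2) (MM p z.1.2 b z.2.1 z.2.2) +
      z.1.1 * A * ‖wW z.1.2 b z.2.1 z.2.2‖ ^ 2 -
      (p - 1) * (1 - γ) * κ * ‖wW z.1.2 b z.2.1 z.2.2‖ ^ 4 with hQ
  have hQc : Continuous Q := by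
    have h1 : Continuous fun z : (ℝ × E n) × (ℝ × ℝ) => wW z.1.2 b z.2.1 z.2.2 :=
      (continuous_wW b).comp (f := fun z : (ℝ × E n) × (ℝ × ℝ) => (z.1.2, z.2)) (by fun_prop)
    have h2 : Continuous fun z : (ℝ × E n) × (ℝ × ℝ) =>
        Lq p (wW z.1.2 b z.2.1 z.2.2) (MM p z.1.2 b z.2.1 z.2.2) :=
      (continuous_PP hp b).comp (f := fun z : (ℝ × E n) × (ℝ × ℝ) => (z.1.2, z.2)) (by fun_prop)
    have h3 : Continuous fun z : (ℝ × E n) × (ℝ × ℝ) => z.1.1 := by fun_prop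
    exact ((continuous_const.mul h2).add ((h3.mul continuous_const).mul (h1.norm.pow 2))).sub
      (continuous_const.mul (h1.norm.pow 4))
  have hev := hKc.eventually_forall_of_forall_eventually (x₀ := ((0:ℝ), a))
    (P := fun x y => Q (x, y) < 0) (fun y _ => by
      have h0 : Q (((0:ℝ), a), y) < 0 := by
        have e1 := Lq_MM_zero hp ha hb hab y.1 y.2
        have e6 : ‖wW a b y.1 y.2‖ ^ 2 = 1 := by
          have hba : inner ℝ b a = (0:ℝ) := by rw [real_inner_comm]; exact hab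
          have haa : inner ℝ a a = (1:ℝ) := by rw [real_inner_self_eq_norm_sq, ha]; norm_num
          have hbb : inner ℝ b b = (1:ℝ) := by rw [real_inner_self_eq_norm_sq, hb]; norm_num
          rw [← real_inner_self_eq_norm_sq]
          unfold wW
          simp only [inner_add_left, inner_add_right, real_inner_smul_left,
            real_inner_smul_right, haa, hbb, hab, hba]
          linear_combination Real.sin_sq_add_cos_sq (y.1 - y.2)
        have e7 : ‖wW a b y.1 y.2‖ ^ 4 = 1 := by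
          have : ‖wW a b y.1 y.2‖ ^ 4 = (‖wW a b y.1 y.2‖ ^ 2) ^ 2 := by ring
          rw [this, e6]; norm_num
        simp only [hQ, e1, e7, mul_zero, zero_mul, zero_add, mul_one]
        have : 0 < (p - 1) * (1 - γ) * κ := by
          apply mul_pos (mul_pos _ _) <;> linarith
        linarith
      exact (hQc.tendsto _).eventually (gt_mem_nhds h0))
  obtain ⟨r, hr, hball⟩ := Metric.eventually_nhds_iff_ball.1 hev
  refine ⟨min η (r / 2), lt_min hη (by linarith), min_le_left _ _, ?_⟩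
  intro a' ha' θ hθ t ht
  have h1 : ((min η (r / 2), a') : ℝ × E n) ∈ Metric.ball ((0:ℝ), a) r := by
    rw [Metric.mem_ball, Prod.dist_eq]
    apply max_lt
    · rw [Real.dist_eq, sub_zero, abs_of_pos (lt_min hη (by linarith))]
      exact (min_le_right _ _).trans_lt (by linarith)
    · rw [dist_eq_norm]
      exact (ha'.trans (min_le_right _ _)).trans_lt (by linarith)
  have h2 := hball _ h1 (θ, t) ⟨hθ, ht⟩
  simp only [hQ] at h2
  linarith

/-- The computation at a touching point. -/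
theorem wedge_no_touch (hp : 2 < p) (hκ : 1 < κ) (hγ0 : 0 < γ) (hγ1 : γ < 1)
    {Ω : Set (E n)} (hΩ : IsOpen Ω) {c : ℝ} {e : E n} {φ : E n → ℝ}
    (hφc : ContinuousOn φ Ω) (hw : IsWeakSol Ω p (c • e) φ) {x₀ : E n} (hx₀ : x₀ ∈ Ω)
    {f1 f2 : E n → ℝ} {a b : E n} {q1 : E n → ℝ} (h1 : Jet f1 x₀ (fun v => inner ℝ a v) q1)
    (hq1 : IsQ q1) (h2 : Jet f2 x₀ (fun v => inner ℝ b v) (fun _ => 0)) (hpos : 0 < f1 x₀)
    {θ t r : ℝ} (hθ : θ = Real.arctan (f2 x₀ / f1 x₀)) (ht : t = Xf p κ θ)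
    (hr : r = Real.sqrt (f1 x₀ ^ 2 + f2 x₀ ^ 2)) (hθ2 : |θ| < half p κ)
    (hw0 : wW a b θ t ≠ 0)
    (hA : (κ - 1) * Lq p (wW a b θ t) (MM p a b θ t) +
      r * Real.cos (θ - t) * Lq p (wW a b θ t) q1 <
        (p - 1) * (1 - γ) * κ * ‖wW a b θ t‖ ^ 4)
    (hB : c * inner ℝ e (wW a b θ t) + r / (κ * γ * (p - 2)) ≤ 0) {lam : ℝ} (hlam : 0 < lam)
    (hle : ∀ᶠ x in 𝓝 x₀, φ x ≤ lam * UU p κ f1 f2 x ^ γ)
    (heq : φ x₀ = lam * UU p κ f1 f2 x₀ ^ γ) : False := by
  have hr2 : 0 < f1 x₀ ^ 2 + f2 x₀ ^ 2 := by positivity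
  have hr0 : 0 < r := by rw [hr]; exact Real.sqrt_pos.2 hr2
  have hκ0 : 0 < κ := by linarith
  have htlt : |t| < Real.pi / 2 := by rw [ht]; exact abs_Xf_lt hp hκ hθ2
  have hC : 0 < Real.cos t := Real.cos_pos_of_mem_Ioo ⟨by linarith [(abs_lt.1 htlt).1],
    by linarith [(abs_lt.1 htlt).2]⟩
  have hC1 : Real.cos t ≤ 1 := Real.cos_le_one t
  set R : ℝ := r ^ κ / r * gg p κ t with hR
  have hR0 : 0 < R := by
    rw [hR]; exact mul_pos (div_pos (Real.rpow_pos_of_pos hr0 _) hr0) (gg_pos hp hκ t)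
  set u₀ := UU p κ f1 f2 x₀ with hu₀
  have hu : u₀ = R * r * Real.cos t / κ := by
    rw [hu₀]; unfold UU FF
    rw [← hθ, ← hr, ← ht, hR]
    field_simp
  have hu0 : 0 < u₀ := by rw [hu]; positivity
  set w := wW a b θ t with hwdef
  -- the jet of the function
  have hj := jet_UU hp hκ h1 h2 hpos hθ ht hr hR
  set qu : E n → ℝ := fun v => (κ - 1) * (R / r) * MM p a b θ t v +
    R * Real.cos (θ - t) * q1 v with hqu
  have hquQ : IsQ qu := ((isQ_MM a b θ t).const_mul _).add (hq1.const_mul _)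
  have hj2 : Jet (UU p κ f1 f2) x₀ (fun v => inner ℝ (R • w) v) qu := by
    refine hj.congr ?_ ?_
    · intro v
      rw [hwdef, real_inner_smul_left]
      unfold wW
      rw [Real.cos_sub, Real.sin_sub]
      simp only [inner_add_left, real_inner_smul_left]
      ring
    · intro v
      rw [hqu]
      unfold MM aR aT
      rw [Real.cos_sub]
      simp only [inner_add_left, real_inner_smul_left]
      ring
  set G1 : ℝ := lam * (γ * (u₀ ^ γ / u₀)) with hG1
  set G2 : ℝ := lam * (γ * (γ - 1) * (u₀ ^ γ / u₀ ^ 2)) with hG2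
  have hG10 : 0 < G1 := by
    rw [hG1]
    have := Real.rpow_pos_of_pos hu0 γ
    positivity
  have hG12 : G2 = G1 * (γ - 1) / u₀ := by
    rw [hG1, hG2]; field_simp
  have hj3 : Jet (fun x => lam * UU p κ f1 f2 x ^ γ) x₀
      (fun v => inner ℝ (G1 • (R • w)) v)
      (fun v => G1 * qu v + G2 * inner ℝ (R • w) v ^ 2) := by
    have := (hj2.comp (G := fun s => s ^ γ) (jet1_rpow γ hu0)).const_mul lam
    refine this.congr ?_ ?_
    · intro v
      simp only [real_inner_smul_left, hG1, ← hu₀]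
      ring
    · intro v
      simp only [real_inner_smul_left, hG1, hG2, ← hu₀]
      ring
  have hg0 : G1 • (R • w) ≠ 0 := smul_ne_zero hG10.ne' (smul_ne_zero hR0.ne' hw0)
  have hvisc := visc_jet hΩ hp hφc hw hx₀ hg0 hj3 (fun v => rfl) (isQ_comp hquQ _ _ _) hle heq
  rw [Lq_comp hquQ, Lq_smul hquQ] at hvisc
  have hLqu : Lq p w qu = (κ - 1) * (R / r) * Lq p w (MM p a b θ t) +
      R * Real.cos (θ - t) * Lq p w q1 := by
    rw [hqu, Lq_add, Lq_const_mul, Lq_const_mul]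
  rw [hLqu] at hvisc
  have hneg : G1 ^ 3 * (R ^ 2 * ((κ - 1) * (R / r) * Lq p w (MM p a b θ t) +
      R * Real.cos (θ - t) * Lq p w q1)) + (p - 1) * G1 ^ 2 * G2 * ‖R • w‖ ^ 4 < 0 := by
    rw [norm_smul, Real.norm_eq_abs, abs_of_pos hR0, hG12, hu]
    have e1 : G1 ^ 3 * (R ^ 2 * ((κ - 1) * (R / r) * Lq p w (MM p a b θ t) +
      R * Real.cos (θ - t) * Lq p w q1)) + (p - 1) * G1 ^ 2 * (G1 * (γ - 1) /
        (R * r * Real.cos t / κ)) * (R * ‖w‖) ^ 4 =
        G1 ^ 3 * R ^ 3 / r * (((κ - 1) * Lq p w (MM p a b θ t) +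
      r * Real.cos (θ - t) * Lq p w q1) -
        (p - 1) * (1 - γ) * κ * ‖w‖ ^ 4 / Real.cos t) := by
      field_simp
      ring
    rw [e1]
    have h3 : (p - 1) * (1 - γ) * κ * ‖w‖ ^ 4 ≤
        (p - 1) * (1 - γ) * κ * ‖w‖ ^ 4 / Real.cos t := by
      rw [le_div_iff₀ hC]
      have : 0 ≤ (p - 1) * (1 - γ) * κ * ‖w‖ ^ 4 := by
        have h4 : 0 < (p - 1) * (1 - γ) * κ := by
          apply mul_pos (mul_pos _ _) <;> linarith
        positivity
      nlinarith
    apply mul_neg_of_pos_of_neg (by positivity)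
    linarith
  have hnn : 0 < ‖G1 • (R • w)‖ ^ (p - 4) := Real.rpow_pos_of_pos (norm_pos_iff.2 hg0) _
  have h5 := mul_neg_of_pos_of_neg hnn hneg
  have h6 : inner ℝ (c • e) (G1 • (R • w)) + lam * u₀ ^ γ / (p - 2) ≤ 0 := by
    have e2 : lam * u₀ ^ γ = G1 * R * r * Real.cos t / (κ * γ) := by
      have : lam * u₀ ^ γ = G1 * u₀ / γ := by rw [hG1]; field_simp
      rw [this, hu]; field_simp
    rw [e2, real_inner_smul_left, real_inner_smul_right, real_inner_smul_right]
    have hp2 : 0 < p - 2 := by linarith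
    have e3 : c * (G1 * (R * inner ℝ e w)) + G1 * R * r * Real.cos t / (κ * γ) / (p - 2) =
        G1 * R * (c * inner ℝ e w + r / (κ * γ * (p - 2)) * Real.cos t) := by
      field_simp
    rw [e3]
    apply mul_nonpos_of_nonneg_of_nonpos (by positivity)
    have h7 : r / (κ * γ * (p - 2)) * Real.cos t ≤ r / (κ * γ * (p - 2)) :=
      mul_le_of_le_one_right (by positivity) hC1
    linarith
  linarith

end Run7.h845
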